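import Pool.Agent.Lib.MP_17a322_nt.EF.C2
import Pool.Agent.Lib.MP_17a322_nt.EF.C3
import Pool.Agent.Lib.MP_17a322_nt.EF.C4
import Pool.Agent.Lib.MP_17a322_nt.EF.C5
import Pool.Agent.Lib.MP_17a322_nt.EF.W2

/-!
Commutative algebra of one fibre: the choice of the degree for finitely many families of forms.
-/

universe u

namespace Pool.Agent.Lib.MP_17a322_nt.EG

open MvPolynomial
open Pool.Agent.Lib.MP_17a322_nt.EF

/-- The choice of the degree `k` for finitely many families of `t` forms without common zeros. -/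
theorem A_choose {L : Type u} [Field L] [IsAlgClosed L] {n t d : ℕ} (ht : 0 < t) (hd : 0 < d)
    (I : Ideal (MvPolynomial (Fin n) L)) [I.IsPrime]
    (hI : ∀ f ∈ I, ∀ k, homogeneousComponent k f ∈ I)
    (htr : Algebra.trdeg L (MvPolynomial (Fin n) L ⧸ I) = t) {Ω : Type*} [Finite Ω]
    (Q : Ω → Fin t → MvPolynomial (Fin n) L) (hQ : ∀ ω j, (Q ω j).IsHomogeneous d)
    (h0 : ∀ ω, ∀ X : Fin n → L, (∀ f ∈ I, eval X f = 0) → (∀ j, eval X (Q ω j) = 0) → X = 0)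
    {δ : ℝ} (hδ : 0 < δ) (hδ1 : δ < 1) :
    ∃ (k : ℕ) (M : Ω → Finset (Fin n → ℕ)), 0 < k ∧ 0 < rk I k ∧
      ∀ ω,
        (∀ a : (Fin n → ℕ) × (Fin t → ℕ) → L,
          ∑ p ∈ fam (M ω) t d k, C (a p) * fm (Q ω) p ∈ I → ∀ p ∈ fam (M ω) t d k, a p = 0) ∧
        (∀ j : Fin t, (1 - δ) * (k * rk I k) ≤
          t * d * ∑ p ∈ fam (M ω) t d k, (p.2 j : ℝ)) ∧
        ∀ j, Q ω j ∉ I := by
  classical
  let _ : Fintype Ω := Fintype.ofFinite Ω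
  have h1 := exists_X_notMem I ht htr
  have key : ∀ ω, ∃ (M : Finset (Fin n → ℕ)) (c : ℕ),
      (∀ (k : ℕ) (a : (Fin n → ℕ) × (Fin t → ℕ) → L),
        ∑ p ∈ fam M t d k, C (a p) * fm (Q ω) p ∈ I → ∀ p ∈ fam M t d k, a p = 0) ∧
      (∀ k, rk I k ≤ (fam M t d (k + c)).card) ∧ ∀ j, Q ω j ∉ I := by
    intro ω
    obtain ⟨M', hM'⟩ := C_span hd I hI (Q ω) (hQ ω) (h0 ω)
    have hind := C_indep I htr hd (Q ω) M' hM'
    obtain ⟨M, c, h2, h3⟩ := C_fam I hI hd (Q ω) (hQ ω) hind M' hM'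
    refine ⟨M, c, h2, h3, fun j hj => ?_⟩
    have h4 := hind.ne_zero j
    exact h4 (Ideal.Quotient.eq_zero_iff_mem.2 hj)
  choose M c hM using key
  obtain ⟨c₁, hc₁⟩ : ∃ c₁, c₁ = ∑ ω, c ω := ⟨_, rfl⟩
  obtain ⟨c₂, hc₂⟩ : ∃ c₂, c₂ = ∑ ω, ∑ ν ∈ M ω, ∑ l, ν l := ⟨_, rfl⟩
  have hc₁' : ∀ ω, c ω ≤ c₁ := fun ω => by
    rw [hc₁]
    exact Finset.single_le_sum (f := c) (fun _ _ => Nat.zero_le _) (Finset.mem_univ ω)
  have hc₂' : ∀ ω, ∀ ν ∈ M ω, ∑ l, ν l ≤ c₂ := fun ω ν hν => by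
    rw [hc₂]
    exact (Finset.single_le_sum (f := fun ν : Fin n → ℕ => ∑ l, ν l)
      (fun _ _ => Nat.zero_le _) hν).trans
      (Finset.single_le_sum (f := fun ω => ∑ ν ∈ M ω, ∑ l, ν l) (fun _ _ => Nat.zero_le _)
        (Finset.mem_univ ω))
  obtain ⟨k₀, hk₀⟩ := exists_nat_ge (2 * c₂ / δ)
  obtain ⟨k, hk, hck, hrk, hgr⟩ := C_growth I h1 c₁ (k₀ + 1) (half_pos hδ)
  refine ⟨k, M, by omega, hrk, fun ω => ⟨(hM ω).1 k, fun j => ?_, (hM ω).2.2⟩⟩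
  have h2 : rk I (k - c₁) ≤ (fam (M ω) t d k).card := by
    have h3 := (hM ω).2.1 (k - c ω)
    have h4 : k - c ω + c ω = k := Nat.sub_add_cancel ((hc₁' ω).trans hck)
    rw [h4] at h3
    exact (rk_mono I h1 (Nat.sub_le_sub_left (hc₁' ω) k)).trans h3
  have h3 := (C_weight (M ω) t d k c₂ (hc₂' ω) j).1
  have hk1 : (k₀ : ℝ) + 1 ≤ k := by exact_mod_cast hk
  have h4 : (c₂ : ℝ) ≤ δ / 2 * k := by
    rw [div_le_iff₀ hδ] at hk₀
    nlinarith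
  have h5 : (rk I (k - c₁) : ℝ) ≤ (fam (M ω) t d k).card := by exact_mod_cast h2
  have hk0 : (0 : ℝ) ≤ k := Nat.cast_nonneg _
  have hr0 : (0 : ℝ) ≤ rk I k := Nat.cast_nonneg _
  have h6 : (1 - δ / 2) * rk I k * ((1 - δ / 2) * k) ≤ (fam (M ω) t d k).card * (k - c₂) :=
    mul_le_mul (hgr.trans h5) (by linarith) (mul_nonneg (by linarith) hk0)
      (Nat.cast_nonneg _)
  have h7 : (1 - δ) * (k * rk I k) ≤ (1 - δ / 2) * rk I k * ((1 - δ / 2) * k) := by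
    have h8 : 0 ≤ δ ^ 2 / 4 * (k * rk I k : ℝ) := by positivity
    nlinarith
  exact h7.trans (h6.trans h3)

/-- Forms without common zeros are not in the ideal. -/
theorem A_notMem {L : Type u} [Field L] [IsAlgClosed L] {n t d : ℕ} (hd : 0 < d)
    (I : Ideal (MvPolynomial (Fin n) L)) [I.IsPrime]
    (hI : ∀ f ∈ I, ∀ k, homogeneousComponent k f ∈ I)
    (htr : Algebra.trdeg L (MvPolynomial (Fin n) L ⧸ I) = t)
    (Q : Fin t → MvPolynomial (Fin n) L) (hQ : ∀ j, (Q j).IsHomogeneous d)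
    (h0 : ∀ X : Fin n → L, (∀ f ∈ I, eval X f = 0) → (∀ j, eval X (Q j) = 0) → X = 0) (j : Fin t) :
    Q j ∉ I := by
  obtain ⟨M', hM'⟩ := C_span hd I hI Q hQ h0
  have hind := C_indep I htr hd Q M' hM'
  intro hj
  exact hind.ne_zero j (Ideal.Quotient.eq_zero_iff_mem.2 hj)

end Pool.Agent.Lib.MP_17a322_nt.EG
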