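import Pool.Agent.Lib.MP_17a322_nt.EG.Defs2
import Pool.Agent.Lib.MP_17a322_nt.TB.R1

/-!
Leading parts.
-/

universe u

namespace Pool.Agent.Lib.MP_17a322_nt.EG

open MvPolynomial Height
open Pool.Agent.Lib.MP_17a322_nt.VA
open Pool.Agent.Lib.MP_17a322_nt.SL
open Pool.Agent.Lib.MP_17a322_nt.TB (Tor ev supp wt maxWt partWt)

section

variable {q p n w : ℕ} {R : Type*} [CommRing R] (τ : Fin q → ℝ)

theorem wt_add (a b : Fin q × Fin p →₀ ℕ) : wt τ (a + b) = wt τ a + wt τ b :=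
  TB.R1_wt_add τ a b

theorem coeff_partWt (h : ℝ) (f : MvPolynomial (Fin q × Fin p) R) (a : Fin q × Fin p →₀ ℕ) :
    coeff a (partWt τ h f) = open Classical in if wt τ a = h then coeff a f else 0 := by
  classical
  rw [TB.R1_coeff]

theorem partWt_add (h : ℝ) (f g : MvPolynomial (Fin q × Fin p) R) :
    partWt τ h (f + g) = partWt τ h f + partWt τ h g := by
  classical
  ext a
  rw [coeff_add, coeff_partWt, coeff_partWt, coeff_partWt]
  by_cases h1 : wt τ a = h
  · rw [if_pos h1, if_pos h1, if_pos h1, coeff_add]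
  · rw [if_neg h1, if_neg h1, if_neg h1, add_zero]

theorem partWt_sum {ι : Type*} (h : ℝ) (J : Finset ι) (f : ι → MvPolynomial (Fin q × Fin p) R) :
    partWt τ h (∑ i ∈ J, f i) = ∑ i ∈ J, partWt τ h (f i) := by
  classical
  ext a
  rw [coeff_sum, coeff_partWt, coeff_sum]
  by_cases h1 : wt τ a = h
  · rw [if_pos h1]
    refine Finset.sum_congr rfl fun i _ => ?_
    rw [coeff_partWt, if_pos h1]
  · rw [if_neg h1]
    refine (Finset.sum_eq_zero fun i _ => ?_).symm
    rw [coeff_partWt, if_neg h1]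

/-- Products: the part of weight `h + h'`. -/
theorem partWt_mul {h h' : ℝ} {f g : MvPolynomial (Fin q × Fin p) R}
    (hf : ∀ a ∈ f.support, wt τ a ≤ h) (hg : ∀ a ∈ g.support, wt τ a ≤ h') :
    (∀ a ∈ (f * g).support, wt τ a ≤ h + h') ∧
      partWt τ (h + h') (f * g) = partWt τ h f * partWt τ h' g :=
  TB.R1_mul hf hg

theorem le_maxWt {f : Fin w → MvPolynomial (Fin q × Fin p) R} {l : Fin w}
    {a : Fin q × Fin p →₀ ℕ} (ha : a ∈ (f l).support) : wt τ a ≤ maxWt τ f :=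
  TB.R1_le_max τ f l a ha

theorem mem_supp {f : Fin w → MvPolynomial (Fin q × Fin p) R} {a : Fin q × Fin p →₀ ℕ} :
    a ∈ supp f ↔ ∃ l, a ∈ (f l).support := by
  classical
  unfold supp
  rw [Finset.mem_biUnion]
  constructor
  · rintro ⟨l, _, hl⟩
    exact ⟨l, hl⟩
  · rintro ⟨l, hl⟩
    exact ⟨l, Finset.mem_univ l, hl⟩

theorem exists_maxWt {f : Fin w → MvPolynomial (Fin q × Fin p) R} (hf : ∃ l, f l ≠ 0) :
    ∃ l, ∃ a ∈ (f l).support, wt τ a = maxWt τ f := by
  classical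
  obtain ⟨l, hl⟩ := hf
  obtain ⟨b, hb⟩ := ne_zero_iff.1 hl
  have : Nonempty (supp f) := ⟨⟨b, mem_supp.2 ⟨l, mem_support_iff.2 hb⟩⟩⟩
  obtain ⟨a, ha⟩ := exists_eq_ciSup_of_finite
    (f := fun m : supp f => wt τ (m : Fin q × Fin p →₀ ℕ))
  obtain ⟨l', hl'⟩ := mem_supp.1 a.2
  exact ⟨l', a, hl', ha⟩

theorem maxWt_eq {f : Fin w → MvPolynomial (Fin q × Fin p) R} {h : ℝ}
    (hf : ∀ l, ∀ a ∈ (f l).support, wt τ a ≤ h) {l : Fin w} {a : Fin q × Fin p →₀ ℕ}
    (ha : a ∈ (f l).support) (hah : wt τ a = h) : maxWt τ f = h := by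
  classical
  refine le_antisymm ?_ (hah ▸ le_maxWt τ ha)
  have : Nonempty (supp f) := ⟨⟨a, mem_supp.2 ⟨l, ha⟩⟩⟩
  refine ciSup_le fun m => ?_
  obtain ⟨l', hl'⟩ := mem_supp.1 m.2
  exact hf l' _ hl'

theorem le_mx {f : MvPolynomial (Fin q × Fin p) R} {a : Fin q × Fin p →₀ ℕ}
    (ha : a ∈ f.support) : wt τ a ≤ mx τ f :=
  le_maxWt τ (f := fun _ : Fin 1 => f) (l := 0) ha

/-- A bound for the weights that is attained is the largest weight. -/
theorem mx_of {f : MvPolynomial (Fin q × Fin p) R} {h : ℝ} (hf : ∀ a ∈ f.support, wt τ a ≤ h)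
    (h0 : partWt τ h f ≠ 0) : mx τ f = h := by
  classical
  obtain ⟨a, ha⟩ := ne_zero_iff.1 h0
  rw [coeff_partWt] at ha
  by_cases h1 : wt τ a = h
  · rw [if_pos h1] at ha
    exact maxWt_eq τ (f := fun _ : Fin 1 => f) (fun _ => hf) (l := 0) (mem_support_iff.2 ha) h1
  · rw [if_neg h1] at ha
    exact absurd rfl ha

theorem ld_zero : ld τ (0 : MvPolynomial (Fin q × Fin p) R) = 0 := by
  classical
  unfold ld
  ext a
  rw [coeff_partWt, coeff_zero, ite_self]

theorem ld_ne {f : MvPolynomial (Fin q × Fin p) R} (hf : f ≠ 0) : ld τ f ≠ 0 := by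
  classical
  obtain ⟨_, a, ha, hah⟩ := exists_maxWt τ (f := fun _ : Fin 1 => f) ⟨0, hf⟩
  have h1 : wt τ a = mx τ f := hah
  refine ne_zero_iff.2 ⟨a, ?_⟩
  unfold ld
  rw [coeff_partWt, if_pos h1]
  exact mem_support_iff.1 ha

theorem mx_C (r : R) : mx τ (C r : MvPolynomial (Fin q × Fin p) R) = 0 := by
  classical
  by_cases hr : r = 0
  · have h0 : (C r : MvPolynomial (Fin q × Fin p) R) = 0 := by rw [hr, C_0]
    have h1 : IsEmpty (supp fun _ : Fin 1 => (C r : MvPolynomial (Fin q × Fin p) R)) := by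
      refine ⟨fun m => ?_⟩
      obtain ⟨_, hl⟩ := mem_supp.1 m.2
      exact mem_support_iff.1 hl ((congrArg (coeff _) h0).trans (coeff_zero _))
    unfold mx maxWt
    exact Real.iSup_of_isEmpty _
  · refine maxWt_eq τ (f := fun _ : Fin 1 => (C r : MvPolynomial (Fin q × Fin p) R))
      (fun _ => (TB.R1_C τ r).1) (l := 0) (a := 0) ?_ (TB.R1_wt_zero τ)
    rw [mem_support_iff, coeff_zero_C]
    exact hr

theorem ld_C (r : R) : ld τ (C r : MvPolynomial (Fin q × Fin p) R) = C r := by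
  unfold ld
  rw [mx_C]
  exact (TB.R1_C τ r).2

theorem mx_mul [IsDomain R] {f g : MvPolynomial (Fin q × Fin p) R} (hf : f ≠ 0) (hg : g ≠ 0) :
    mx τ (f * g) = mx τ f + mx τ g := by
  obtain ⟨h1, h2⟩ := partWt_mul τ (f := f) (g := g) (fun a ha => le_mx τ ha)
    (fun a ha => le_mx τ ha)
  refine mx_of τ h1 ?_
  rw [h2]
  exact mul_ne_zero (ld_ne τ hf) (ld_ne τ hg)

theorem ld_mul [IsDomain R] (f g : MvPolynomial (Fin q × Fin p) R) :
    ld τ (f * g) = ld τ f * ld τ g := by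
  by_cases hf : f = 0
  · rw [hf, zero_mul, ld_zero, zero_mul]
  · by_cases hg : g = 0
    · rw [hg, mul_zero, ld_zero, mul_zero]
    · obtain ⟨_, h2⟩ := partWt_mul τ (f := f) (g := g) (fun a ha => le_mx τ ha)
        (fun a ha => le_mx τ ha)
      unfold ld
      rw [mx_mul τ hf hg]
      exact h2

theorem mx_pow [IsDomain R] {f : MvPolynomial (Fin q × Fin p) R} (hf : f ≠ 0) (e : ℕ) :
    mx τ (f ^ e) = e * mx τ f := by
  induction e with
  | zero =>
    rw [pow_zero, ← C_1, mx_C]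
    simp
  | succ e ih =>
    rw [pow_succ, mx_mul τ (pow_ne_zero e hf) hf, ih]
    push_cast
    ring

theorem ld_pow [IsDomain R] (f : MvPolynomial (Fin q × Fin p) R) (e : ℕ) :
    ld τ (f ^ e) = ld τ f ^ e := by
  induction e with
  | zero => rw [pow_zero, pow_zero, ← C_1, ld_C]
  | succ e ih => rw [pow_succ, pow_succ, ld_mul, ih]

theorem mx_prod [IsDomain R] {ι : Type*} (J : Finset ι) (f : ι → MvPolynomial (Fin q × Fin p) R)
    (hf : ∀ i ∈ J, f i ≠ 0) : mx τ (∏ i ∈ J, f i) = ∑ i ∈ J, mx τ (f i) := by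
  classical
  induction J using Finset.induction_on with
  | empty => rw [Finset.prod_empty, Finset.sum_empty, ← C_1, mx_C]
  | insert a J ha ih =>
    have h1 : ∀ i ∈ J, f i ≠ 0 := fun i hi => hf i (Finset.mem_insert_of_mem hi)
    rw [Finset.prod_insert ha, Finset.sum_insert ha,
      mx_mul τ (hf a (Finset.mem_insert_self a J)) (Finset.prod_ne_zero_iff.2 h1), ih h1]

theorem ld_prod [IsDomain R] {ι : Type*} (J : Finset ι)
    (f : ι → MvPolynomial (Fin q × Fin p) R) : ld τ (∏ i ∈ J, f i) = ∏ i ∈ J, ld τ (f i) := by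
  classical
  induction J using Finset.induction_on with
  | empty => rw [Finset.prod_empty, Finset.prod_empty, ← C_1, ld_C]
  | insert a J ha ih => rw [Finset.prod_insert ha, Finset.prod_insert ha, ld_mul, ih]

/-! #### the coefficients of the powers of `X` -/

theorem coeff_cX {σ : Type*} (μ : Fin n →₀ ℕ) (f : MvPolynomial σ (MvPolynomial (Fin n) R))
    (ν : σ →₀ ℕ) : coeff ν (cX μ f) = coeff μ (coeff ν f) := by
  classical
  unfold cX
  rw [coeff_sum]
  simp only [coeff_monomial]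
  rw [Finset.sum_ite_eq']
  by_cases h : ν ∈ f.support
  · rw [if_pos h]
  · rw [if_neg h, notMem_support_iff.1 h, coeff_zero]

theorem partWt_cX (h : ℝ) (μ : Fin n →₀ ℕ)
    (f : MvPolynomial (Fin q × Fin p) (MvPolynomial (Fin n) R)) :
    partWt τ h (cX μ f) = cX μ (partWt τ h f) := by
  classical
  ext ν
  rw [coeff_partWt, coeff_cX, coeff_cX, coeff_partWt]
  by_cases h1 : wt τ ν = h
  · rw [if_pos h1, if_pos h1]
  · rw [if_neg h1, if_neg h1, coeff_zero]

end

end Pool.Agent.Lib.MP_17a322_nt.EG
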