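import Pool.Agent.Lib.MP_17a322_nt.EG.Defs2
import Pool.Agent.Lib.MP_17a322_nt.EF.V1
import Pool.Agent.Lib.MP_17a322_nt.EG.B2

/-!
Bihomogeneous polynomials and their values.
-/

universe u

namespace Pool.Agent.Lib.MP_17a322_nt.EG

open MvPolynomial Height
open Pool.Agent.Lib.MP_17a322_nt.VA
open Pool.Agent.Lib.MP_17a322_nt.SL
open Pool.Agent.Lib.MP_17a322_nt.EF (BH fib sp Mo mo ver cf)
open Pool.Agent.Lib.MP_17a322_nt.TB (Tor ev supp wt maxWt partWt)

section

variable {K : Type u} [Field K] {N q p n m s w : ℕ} {A : AV K N} (T : Tor A q p)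

theorem BG_zero (D d : ℕ) : BG T D d (0 : Pol K N q p n) := by
  intro μ hμ
  exact absurd (coeff_zero μ) hμ

theorem BG_C {D d : ℕ} {F : MvPolynomial (Fin n) (MvPolynomial (Fin (N + 1)) K)}
    (hF : BH D d F) : BG T D d (C F : Pol K N q p n) := by
  classical
  intro μ hμ
  rw [coeff_C] at hμ ⊢
  split_ifs at hμ ⊢ with h
  · exact ⟨D, hF, by simp [← h]⟩
  · exact absurd rfl hμ

theorem BG_X (i : Fin q × Fin p) : BG T (T.k i.1) 0 (X i : Pol K N q p n) := by
  classical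
  intro μ hμ
  rw [coeff_X] at hμ ⊢
  split_ifs at hμ ⊢ with h
  · refine ⟨0, ⟨isHomogeneous_one _ _, fun ν => ?_⟩, ?_⟩
    · rw [coeff_one]
      split_ifs
      · exact isHomogeneous_one _ _
      · exact isHomogeneous_zero _ _ _
    · rw [← h, zero_add, Finset.sum_eq_single i]
      · simp
      · intro j _ hj
        rw [Finsupp.single_eq_of_ne (Ne.symm hj.symm)]
        simp
      · intro hi
        exact absurd (Finset.mem_univ i) hi
  · exact absurd rfl hμ

variable {T}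

/-- the degree is determined by the exponent -/
theorem BG_deg {D d : ℕ} {f : Pol K N q p n} (hf : BG T D d f) (μ : Fin q × Fin p →₀ ℕ) :
    BH (D - ∑ i, T.k i.1 * μ i) d (coeff μ f) ∧
      (coeff μ f ≠ 0 → ∑ i, T.k i.1 * μ i ≤ D) := by
  by_cases h : coeff μ f = 0
  · rw [h]
    exact ⟨⟨isHomogeneous_zero _ _ _, fun ν => by rw [coeff_zero]; exact isHomogeneous_zero _ _ _⟩,
      fun h' => absurd rfl h'⟩
  · obtain ⟨δ, h1, h2⟩ := hf μ h
    have h3 : D - ∑ i, T.k i.1 * μ i = δ := by omega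
    rw [h3]
    exact ⟨h1, fun _ => by omega⟩

theorem BG_of {D d : ℕ} {f : Pol K N q p n} (h : ∀ μ, coeff μ f ≠ 0 →
    BH (D - ∑ i, T.k i.1 * μ i) d (coeff μ f) ∧ ∑ i, T.k i.1 * μ i ≤ D) : BG T D d f := by
  intro μ hμ
  obtain ⟨h1, h2⟩ := h μ hμ
  exact ⟨_, h1, Nat.sub_add_cancel h2⟩

theorem B1_add {D d : ℕ} {F G : MvPolynomial (Fin n) (MvPolynomial (Fin (N + 1)) K)}
    (hF : BH D d F) (hG : BH D d G) : BH D d (F + G) :=
  ⟨hF.1.add hG.1, fun μ => by rw [coeff_add]; exact (hF.2 μ).add (hG.2 μ)⟩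

theorem B1_zero (D d : ℕ) : BH D d (0 : MvPolynomial (Fin n) (MvPolynomial (Fin (N + 1)) K)) :=
  ⟨isHomogeneous_zero _ _ _, fun ν => by rw [coeff_zero]; exact isHomogeneous_zero _ _ _⟩

theorem B1_sum {ι : Type*} (J : Finset ι) {D d : ℕ}
    (F : ι → MvPolynomial (Fin n) (MvPolynomial (Fin (N + 1)) K))
    (hF : ∀ i ∈ J, BH D d (F i)) : BH D d (∑ i ∈ J, F i) := by
  classical
  induction J using Finset.induction_on with
  | empty => rw [Finset.sum_empty]; exact B1_zero D d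
  | insert i J hi ih =>
    rw [Finset.sum_insert hi]
    exact B1_add (hF i (Finset.mem_insert_self i J))
      (ih fun j hj => hF j (Finset.mem_insert_of_mem hj))

theorem B1_mul {D d D' d' : ℕ} {F G : MvPolynomial (Fin n) (MvPolynomial (Fin (N + 1)) K)}
    (hF : BH D d F) (hG : BH D' d' G) : BH (D + D') (d + d') (F * G) := by
  classical
  refine ⟨hF.1.mul hG.1, fun μ => ?_⟩
  rw [coeff_mul]
  exact IsHomogeneous.sum _ _ _ fun x _ => (hF.2 x.1).mul (hG.2 x.2)

theorem BG_add {D d : ℕ} {f g : Pol K N q p n} (hf : BG T D d f) (hg : BG T D d g) :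
    BG T D d (f + g) := by
  refine BG_of fun μ hμ => ?_
  rw [coeff_add] at hμ ⊢
  refine ⟨B1_add (BG_deg hf μ).1 (BG_deg hg μ).1, ?_⟩
  by_cases h : coeff μ f = 0
  · rw [h, zero_add] at hμ
    exact (BG_deg hg μ).2 hμ
  · exact (BG_deg hf μ).2 h

theorem BG_sum {ι : Type*} (J : Finset ι) {D d : ℕ} (f : ι → Pol K N q p n)
    (hf : ∀ i ∈ J, BG T D d (f i)) : BG T D d (∑ i ∈ J, f i) := by
  classical
  induction J using Finset.induction_on with
  | empty => rw [Finset.sum_empty]; exact BG_zero T D d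
  | insert i J hi ih =>
    rw [Finset.sum_insert hi]
    exact BG_add (hf i (Finset.mem_insert_self i J))
      (ih fun j hj => hf j (Finset.mem_insert_of_mem hj))

theorem BG_mul {D D' d d' : ℕ} {f g : Pol K N q p n} (hf : BG T D d f) (hg : BG T D' d' g) :
    BG T (D + D') (d + d') (f * g) := by
  classical
  have hsum : ∀ {μ a b : Fin q × Fin p →₀ ℕ}, (a, b) ∈ Finset.HasAntidiagonal.antidiagonal μ →
      ∑ i, T.k i.1 * μ i = ∑ i, T.k i.1 * a i + ∑ i, T.k i.1 * b i := by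
    intro μ a b h
    rw [← Finset.HasAntidiagonal.mem_antidiagonal.mp h, ← Finset.sum_add_distrib]
    exact Finset.sum_congr rfl fun i _ => by rw [Finsupp.add_apply, mul_add]
  refine BG_of fun μ hμ => ?_
  have key : ∀ x ∈ Finset.HasAntidiagonal.antidiagonal μ, coeff x.1 f * coeff x.2 g ≠ 0 →
      BH (D + D' - ∑ i, T.k i.1 * μ i) (d + d') (coeff x.1 f * coeff x.2 g) ∧
        ∑ i, T.k i.1 * μ i ≤ D + D' := by
    intro x hx h
    obtain ⟨h1, h2⟩ := BG_deg hf x.1
    obtain ⟨h3, h4⟩ := BG_deg hg x.2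
    have h5 := h2 (left_ne_zero_of_mul h)
    have h6 := h4 (right_ne_zero_of_mul h)
    have h7 := hsum hx
    have h8 : D + D' - ∑ i, T.k i.1 * μ i =
        (D - ∑ i, T.k i.1 * x.1 i) + (D' - ∑ i, T.k i.1 * x.2 i) := by omega
    rw [h8]
    exact ⟨B1_mul h1 h3, by omega⟩
  rw [coeff_mul] at hμ ⊢
  refine ⟨B1_sum _ _ fun x hx => ?_, ?_⟩
  · by_cases h : coeff x.1 f * coeff x.2 g = 0
    · rw [h]
      exact B1_zero _ _
    · exact (key x hx h).1
  · obtain ⟨x, hx, h⟩ := Finset.exists_ne_zero_of_sum_ne_zero hμ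
    exact (key x hx h).2

theorem BG_one (T : Tor A q p) : BG T 0 0 (1 : Pol K N q p n) := by
  rw [← C_1]
  refine BG_C T ⟨isHomogeneous_one _ _, fun ν => ?_⟩
  rw [coeff_one]
  split_ifs
  · exact isHomogeneous_one _ _
  · exact isHomogeneous_zero _ _ _

theorem BG_pow {D d : ℕ} {f : Pol K N q p n} (hf : BG T D d f) (e : ℕ) :
    BG T (e * D) (e * d) (f ^ e) := by
  induction e with
  | zero =>
    rw [pow_zero, zero_mul, zero_mul]
    exact BG_one T
  | succ e ih =>
    rw [pow_succ, add_mul, add_mul, one_mul, one_mul]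
    exact BG_mul ih hf

theorem BG_prod {ι : Type*} (J : Finset ι) (D d : ι → ℕ) (f : ι → Pol K N q p n)
    (hf : ∀ i ∈ J, BG T (D i) (d i) (f i)) :
    BG T (∑ i ∈ J, D i) (∑ i ∈ J, d i) (∏ i ∈ J, f i) := by
  classical
  induction J using Finset.induction_on with
  | empty =>
    rw [Finset.sum_empty, Finset.sum_empty, Finset.prod_empty]
    exact BG_one T
  | insert i J hi ih =>
    rw [Finset.sum_insert hi, Finset.sum_insert hi, Finset.prod_insert hi]
    exact BG_mul (hf i (Finset.mem_insert_self i J))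
      (ih fun j hj => hf j (Finset.mem_insert_of_mem hj))

theorem BG_partWt {D d : ℕ} {f : Pol K N q p n} (hf : BG T D d f) (τ : Fin q → ℝ) (h : ℝ) :
    BG T D d (partWt τ h f) := by
  intro μ hμ
  rw [coeff_partWt] at hμ ⊢
  split_ifs at hμ ⊢ with h1
  · exact hf μ hμ
  · exact absurd rfl hμ

theorem BG_ld {D d : ℕ} {f : Pol K N q p n} (hf : BG T D d f) (τ : Fin q → ℝ) :
    BG T D d (ld τ f) :=
  BG_partWt hf τ _

theorem cX_WH {D d : ℕ} {f : Pol K N q p n} (hf : BG T D d f) (μ : Fin n →₀ ℕ) :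
    T.WH D (cX μ f) := by
  intro ν hν
  rw [coeff_cX] at hν ⊢
  have h1 : coeff ν f ≠ 0 := fun h => hν (by rw [h, coeff_zero])
  obtain ⟨δ, h2, h3⟩ := hf ν h1
  exact ⟨δ, h2.2 μ, h3⟩

theorem cfG_WH {D d k : ℕ} {f : Pol K N q p n} (hf : BG T D d f) (l : Fin (Mo n k).card) :
    T.WH D (cfG k f l) :=
  cX_WH hf _

/-- the monomials of `f` are those of the coefficients -/
theorem cfG_supp {D k : ℕ} {f : Pol K N q p n} (hf : BG T D k f) (ν : Fin q × Fin p →₀ ℕ) :
    coeff ν f ≠ 0 ↔ ∃ l, coeff ν (cfG k f l) ≠ 0 := by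
  constructor
  · intro h
    obtain ⟨δ, h2, -⟩ := hf ν h
    obtain ⟨μ, hμ⟩ := MvPolynomial.ne_zero_iff.mp h
    have h3 : ∑ l, μ l = k := by
      have := h2.1 hμ
      rw [← this, Finsupp.weight_apply, Finsupp.sum_fintype]
      · simp
      · simp
    obtain ⟨i, hi⟩ := EF.mo_surj h3
    refine ⟨i, ?_⟩
    unfold cfG
    rw [coeff_cX, hi]
    have h4 : Finsupp.equivFunOnFinite.symm (⇑μ) = μ := by
      ext j
      rfl
    rw [h4]
    exact hμ
  · rintro ⟨l, hl⟩ h
    apply hl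
    unfold cfG
    rw [coeff_cX, h, coeff_zero]

theorem maxWt_cfG {D k : ℕ} {f : Pol K N q p n} (hf : BG T D k f) (τ : Fin q → ℝ) :
    maxWt τ (cfG k f) = mx τ f := by
  have h1 : supp (cfG k f) = supp (fun _ : Fin 1 => f) := by
    ext ν
    simp only [supp, Finset.mem_biUnion, Finset.mem_univ, true_and, mem_support_iff]
    rw [← cfG_supp hf ν]
    exact ⟨fun h => ⟨0, h⟩, fun ⟨_, h⟩ => h⟩
  unfold mx maxWt
  rw [h1]

theorem partWt_cfG {D k : ℕ} {f : Pol K N q p n} (hf : BG T D k f) (τ : Fin q → ℝ)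
    (l : Fin (Mo n k).card) :
    partWt τ (maxWt τ (cfG k f)) (cfG k f l) = cfG k (ld τ f) l := by
  rw [maxWt_cfG hf]
  unfold cfG ld
  rw [partWt_cX]

section

variable {L : Type u} [Field L] [Algebra K L] (P : A.Pts L) (y : Fin q × Fin p → L)

/-- `spG` as a homomorphism. -/
noncomputable def spH : Pol K N q p n →+* MvPolynomial (Fin n) L :=
  eval₂Hom (MvPolynomial.map (aeval (A.x P) : MvPolynomial (Fin (N + 1)) K →ₐ[K] L).toRingHom)
    (fun i => C (y i))

theorem spH_apply (f : Pol K N q p n) : spH P y f = spG P y f := rfl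

theorem spG_C (F : MvPolynomial (Fin n) (MvPolynomial (Fin (N + 1)) K)) :
    spG P y (C F : Pol K N q p n) = sp A P F :=
  eval₂_C _ _ _

theorem spG_X (i : Fin q × Fin p) : spG P y (X i : Pol K N q p n) = C (y i) :=
  eval₂_X _ _ _

theorem spG_add (f g : Pol K N q p n) : spG P y (f + g) = spG P y f + spG P y g :=
  map_add (spH P y) f g

theorem spG_mul (f g : Pol K N q p n) : spG P y (f * g) = spG P y f * spG P y g :=
  map_mul (spH P y) f g

theorem spG_pow (f : Pol K N q p n) (e : ℕ) : spG P y (f ^ e) = spG P y f ^ e :=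
  map_pow (spH P y) f e

theorem spG_sum {ι : Type*} (J : Finset ι) (f : ι → Pol K N q p n) :
    spG P y (∑ i ∈ J, f i) = ∑ i ∈ J, spG P y (f i) :=
  map_sum (spH P y) f J

theorem spG_prod {ι : Type*} (J : Finset ι) (f : ι → Pol K N q p n) :
    spG P y (∏ i ∈ J, f i) = ∏ i ∈ J, spG P y (f i) :=
  map_prod (spH P y) f J

theorem spG_eq (f : Pol K N q p n) :
    spG P y f = ∑ ν ∈ f.support, sp A P (coeff ν f) * C (∏ i, y i ^ ν i) := by
  unfold spG
  rw [eval₂_eq']
  refine Finset.sum_congr rfl fun ν _ => ?_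
  rw [map_prod]
  simp only [map_pow]
  rfl

theorem coeff_spG (f : Pol K N q p n) (μ : Fin n →₀ ℕ) :
    coeff μ (spG P y f) = ev P y (cX μ f) := by
  have h1 : ev P y (cX μ f) = ∑ ν ∈ f.support, aeval (A.x P) (coeff μ (coeff ν f)) *
      ∏ i, y i ^ ν i := by
    unfold ev cX
    rw [map_sum, map_sum]
    refine Finset.sum_congr rfl fun ν _ => ?_
    rw [map_monomial, eval_monomial, Finsupp.prod_fintype _ _ fun i => pow_zero _]
    rfl
  rw [h1, spG_eq, coeff_sum]
  refine Finset.sum_congr rfl fun ν _ => ?_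
  rw [mul_comm (sp A P (coeff ν f)), coeff_C_mul, mul_comm]
  unfold sp
  rw [coeff_map]
  rfl

theorem cf_spG (k : ℕ) (f : Pol K N q p n) (l : Fin (Mo n k).card) :
    cf k (spG P y f) l = ev P y (cfG k f l) :=
  coeff_spG P y f _

theorem spG_hom {D d : ℕ} {f : Pol K N q p n} (hf : BG T D d f) :
    (spG P y f).IsHomogeneous d := by
  rw [spG_eq]
  refine IsHomogeneous.sum _ _ _ fun ν hν => ?_
  obtain ⟨δ, h1, -⟩ := hf ν (mem_support_iff.mp hν)
  have h2 : (sp A P (coeff ν f)).IsHomogeneous d := h1.1.map _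
  have h3 := h2.mul (isHomogeneous_C (Fin n) (∏ i, y i ^ ν i))
  rwa [add_zero] at h3

theorem sum_cfG {D k : ℕ} {f : Pol K N q p n} (hf : BG T D k f) (X : Fin n → L) :
    ∑ l, ev P y (cfG k f l) * ver k X l = eval X (spG P y f) := by
  rw [EF.eval_cf (spG_hom P y hf) X]
  exact Finset.sum_congr rfl fun l _ => by rw [cf_spG]

end

end

end Pool.Agent.Lib.MP_17a322_nt.EG
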