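import Pool.Agent.Lib.MP_17a322_nt.TB.Defs
import Pool.Agent.Lib.MP_17a322_nt.EF.Defs3

/-!
Closed subschemes of a family over a principal torus bundle over `A`: definitions of the final
statement.
-/

universe u

namespace Pool.Agent.Lib.MP_17a322_nt.EG

open MvPolynomial Height
open Pool.Agent.Lib.MP_17a322_nt.VA
open Pool.Agent.Lib.MP_17a322_nt.SL
open Pool.Agent.Lib.MP_17a322_nt.EF (BH fib)
open Pool.Agent.Lib.MP_17a322_nt.TB (Tor ev maxWt partWt)

/-- The polynomials in the coordinates of `A`, the coordinates `y_(i,c)` of the bundle and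
`X_1, ..., X_n`. -/
abbrev Pol (K : Type u) [Field K] (N q p n : ℕ) : Type u :=
  MvPolynomial (Fin q × Fin p) (MvPolynomial (Fin n) (MvPolynomial (Fin (N + 1)) K))

section

variable {K : Type u} [Field K] {N q p n m s w : ℕ} {A : AV K N} (T : Tor A q p)

/-- `f` is a form of degree `d` in `X_1, ..., X_n` whose coefficients are weighted homogeneous of
degree `D`. -/
def BG (D d : ℕ) (f : Pol K N q p n) : Prop :=
  ∀ μ, coeff μ f ≠ 0 → ∃ δ : ℕ, BH δ d (coeff μ f) ∧ δ + ∑ i, T.k i.1 * μ i = D

/-- The form `f` at the point `(P, y)`. -/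
noncomputable def spG {L : Type u} [Field L] [Algebra K L] (P : A.Pts L)
    (y : Fin q × Fin p → L) (f : Pol K N q p n) : MvPolynomial (Fin n) L :=
  eval₂ (MvPolynomial.map (aeval (A.x P) : MvPolynomial (Fin (N + 1)) K →ₐ[K] L).toRingHom)
    (fun i => C (y i)) f

/-- The form `f` at the points `(P, (t_i η_i(P)))`, a polynomial in `t_1, ..., t_q`. -/
noncomputable def spX {L : Type u} [Field L] [Algebra K L] (P : A.Pts L) (f : Pol K N q p n) :
    MvPolynomial (Fin q) (MvPolynomial (Fin n) L) :=
  eval₂ ((C : MvPolynomial (Fin n) L →+* MvPolynomial (Fin q) (MvPolynomial (Fin n) L)).comp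
      (MvPolynomial.map (aeval (A.x P) : MvPolynomial (Fin (N + 1)) K →ₐ[K] L).toRingHom))
    (fun i => C (C (aeval (A.x P) (T.η i.1 i.2))) * X i.1) f

/-- `(P, y)` is a generic point of the bundle. -/
def GenB {L : Type u} [Field L] [Algebra K L] (P : A.Pts L) (y : Fin q × Fin p → L) : Prop :=
  Gen A P ∧ T.On P y ∧
    ∀ (D : ℕ) (b : MvPolynomial (Fin q × Fin p) (MvPolynomial (Fin (N + 1)) K)),
      T.WH D b → ev P y b = 0 → T.sp P b = 0

/-- `F` is bihomogeneous (with weights) and does not vanish identically on the generic fibre of the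
closed subset with the equations `H i`. -/
def ExcX (H : Fin m → MvPolynomial (Fin n) (MvPolynomial (Fin (N + 1)) K)) (F : Pol K N q p n) :
    Prop :=
  (∃ a b : ℕ, BG T a b F) ∧
  ∀ (L : Type u) [Field L] [IsAlgClosed L] [Algebra K L] (P : A.Pts L), Gen A P →
    spX T P F ∉ (fib A H P).map (C : MvPolynomial (Fin n) L →+*
      MvPolynomial (Fin q) (MvPolynomial (Fin n) L))

/-- The leading parts in the direction `τ` of the equations `f j l`, `l < w`, for `j ∈ U`. -/
def cutB (f : Fin s → Fin w → Pol K N q p n) (τ : Fin q → ℝ) (U : Finset (Fin s)) :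
    Set (Pol K N q p n) :=
  {g | ∃ j ∈ U, ∃ l, g = partWt τ (maxWt τ (f j)) (f j l)}

/-- Over a generic point of the bundle: on the fibre of the closed subset with the equations `H i`,
which has dimension `t - 1`, the closed subset with the equations in `G` has codimension at least `i`
(for `i = t`: it is empty). -/
def CodimB (H : Fin m → MvPolynomial (Fin n) (MvPolynomial (Fin (N + 1)) K)) (t : ℕ)
    (G : Set (Pol K N q p n)) (i : ℕ) : Prop :=
  ∀ (L : Type u) [Field L] [IsAlgClosed L] [Algebra K L] (P : A.Pts L) (y : Fin q × Fin p → L),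
    GenB T P y → ∀ 𝔭 : Ideal (MvPolynomial (Fin n) L), 𝔭.IsPrime → fib A H P ≤ 𝔭 →
      (∀ g ∈ G, spG P y g ∈ 𝔭) → Algebra.trdeg L (MvPolynomial (Fin n) L ⧸ 𝔭) + i ≤ t

/-- The local height of the point `(P, y, X)` with respect to the closed subscheme which the equations
`f l`, `l < w`, define over a toric compactification of the bundle (`maxWt` is the norm of the section
one at the boundary); the `f l` are forms of degree `d` with coefficients of weighted degree `D`. -/
noncomputable def lamB {L : Type u} [Field L] [Algebra K L] (v : AbsoluteValue L ℝ) (D d : ℕ)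
    (f : Fin w → Pol K N q p n) (P : A.Pts L) (y : Fin q × Fin p → L) (X : Fin n → L) : ℝ :=
  d * Real.log (⨆ l, v (X l)) + D * Real.log (⨆ i, v (A.x P i)) + maxWt (T.tau v P y) f -
    Real.log (⨆ l, v (eval X (spG P y (f l))))

end

end Pool.Agent.Lib.MP_17a322_nt.EG
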