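import Pool.Agent.Lib.MP_17a322_nt.SV3.Defs
import Pool.Agent.Lib.MP_17a322_nt.EG.Defs

/-!
Closed subschemes of a family over a principal torus bundle over `A`: definitions of the final
statement for the bundles `Bun`.
-/

universe u

namespace Pool.Agent.Lib.MP_17a322_nt.EG

open MvPolynomial Height
open Pool.Agent.Lib.MP_17a322_nt.VA
open Pool.Agent.Lib.MP_17a322_nt.SL
open Pool.Agent.Lib.MP_17a322_nt.EF (BH fib)
open Pool.Agent.Lib.MP_17a322_nt.TB (ev partWt)
open Pool.Agent.Lib.MP_17a322_nt.SV3 (Bun md)

section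

variable {K : Type u} [Field K] {N q p p' n m s w : ℕ} {A : AV K N} (B : Bun A q p p')

/-- `f` is a form of degree `d` in `X_1, ..., X_n` whose coefficients are weighted homogeneous of
degree `D`. -/
def BB (D d : ℕ) (f : Pol K N q p n) : Prop :=
  ∀ μ, coeff μ f ≠ 0 → ∃ δ : ℕ, BH δ d (coeff μ f) ∧ δ + ∑ i, B.k i.1 * μ i = D

/-- The part of multidegree `a` in `y` of `f`. -/
noncomputable def ptG (a : Fin q → ℕ) (f : Pol K N q p n) : Pol K N q p n :=
  open Classical in ∑ μ ∈ f.support.filter fun μ => md μ = a, monomial μ (coeff μ f)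

/-- `(P, y)` is a generic point of the bundle. -/
def GenP {L : Type u} [Field L] [Algebra K L] (P : A.Pts L) (y : Fin q × Fin p → L) : Prop :=
  Gen A P ∧ B.On P y ∧
    ∀ (D : ℕ) (b : MvPolynomial (Fin q × Fin p) (MvPolynomial (Fin (N + 1)) K)),
      B.WH D b → ev P y b = 0 → B.Van b

/-- `g` vanishes on the generic fibre of the closed subset with the equations `H i`. -/
def Zer (H : Fin m → MvPolynomial (Fin n) (MvPolynomial (Fin (N + 1)) K)) (g : Pol K N q p n) :
    Prop :=
  ∀ (L : Type u) [Field L] [IsAlgClosed L] [Algebra K L] (P : A.Pts L) (y : Fin q × Fin p → L),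
    GenP B P y → spG P y g ∈ fib A H P

/-- `F` is bihomogeneous (with weights) and does not vanish identically on the generic fibre of the
closed subset with the equations `H i`. -/
def ExcP (H : Fin m → MvPolynomial (Fin n) (MvPolynomial (Fin (N + 1)) K)) (F : Pol K N q p n) :
    Prop :=
  (∃ a b : ℕ, BB B a b F) ∧
  ∀ (L : Type u) [Field L] [IsAlgClosed L] [Algebra K L] (P : A.Pts L) (y : Fin q × Fin p → L),
    GenP B P y → spG P y F ∉ fib A H P

/-- The multidegrees of the parts of the equations `f l` which do not vanish on the generic fibre. -/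
def NewH (H : Fin m → MvPolynomial (Fin n) (MvPolynomial (Fin (N + 1)) K))
    (f : Fin w → Pol K N q p n) : Set (Fin q → ℕ) :=
  {a | ∃ l, ¬ Zer B H (ptG a (f l))}

/-- The support function of the convex hull of `NewH B H f`. -/
noncomputable def supH (H : Fin m → MvPolynomial (Fin n) (MvPolynomial (Fin (N + 1)) K))
    (f : Fin w → Pol K N q p n) (τ : Fin q → ℝ) : ℝ :=
  ⨆ a : NewH B H f, ∑ i, (a.1 i : ℝ) * τ i

/-- The leading parts in the direction `τ` of the equations `f j l`, `l < w`, for `j ∈ U`. -/
def cutP (H : Fin m → MvPolynomial (Fin n) (MvPolynomial (Fin (N + 1)) K))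
    (f : Fin s → Fin w → Pol K N q p n) (τ : Fin q → ℝ) (U : Finset (Fin s)) :
    Set (Pol K N q p n) :=
  {g | ∃ j ∈ U, ∃ l, g = partWt τ (supH B H (f j) τ) (f j l)}

/-- Over a generic point of the bundle: on the fibre of the closed subset with the equations `H i`,
which has dimension `t - 1`, the closed subset with the equations in `G` has codimension at least `i`
(for `i = t`: it is empty). -/
def CodimP (H : Fin m → MvPolynomial (Fin n) (MvPolynomial (Fin (N + 1)) K)) (t : ℕ)
    (G : Set (Pol K N q p n)) (i : ℕ) : Prop :=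
  ∀ (L : Type u) [Field L] [IsAlgClosed L] [Algebra K L] (P : A.Pts L) (y : Fin q × Fin p → L),
    GenP B P y → ∀ 𝔭 : Ideal (MvPolynomial (Fin n) L), 𝔭.IsPrime → fib A H P ≤ 𝔭 →
      (∀ g ∈ G, spG P y g ∈ 𝔭) → Algebra.trdeg L (MvPolynomial (Fin n) L ⧸ 𝔭) + i ≤ t

/-- The local height of the point `(P, y, X)` with respect to the closed subscheme which the equations
`f l`, `l < w`, define over a toric compactification of the bundle (`supH`, the support function of the
Newton polytope of the family `f l`, is its normalisation at the boundary); the `f l` are forms of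
degree `d` with coefficients of weighted degree `D`. -/
noncomputable def lamP (H : Fin m → MvPolynomial (Fin n) (MvPolynomial (Fin (N + 1)) K))
    {L : Type u} [Field L] [Algebra K L] (v : AbsoluteValue L ℝ) (D d : ℕ)
    (f : Fin w → Pol K N q p n) (P : A.Pts L) (y : Fin q × Fin p → L) (X : Fin n → L) : ℝ :=
  d * Real.log (⨆ l, v (X l)) + D * Real.log (⨆ i, v (A.x P i)) + supH B H f (B.tau v P y) -
    Real.log (⨆ l, v (eval X (spG P y (f l))))

end

end Pool.Agent.Lib.MP_17a322_nt.EG
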