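import Pool.Agent.Lib.MP_17a322_nt.EG.Defs2
import Pool.Agent.Lib.MP_17a322_nt.EF.Y0
import Pool.Agent.Lib.MP_17a322_nt.EF.Y4

/-!
Codimension in one fibre.
-/

universe u

namespace Pool.Agent.Lib.MP_17a322_nt.EG

open MvPolynomial
open Pool.Agent.Lib.MP_17a322_nt.EF (Mo mo mn Y4_trdeg line_prime mo_surj)

section

variable {L : Type u} [Field L] {n t : ℕ} {I : Ideal (MvPolynomial (Fin n) L)}

theorem CodA_mono {G : Set (MvPolynomial (Fin n) L)} {i i' : ℕ} (hi : i' ≤ i)
    (h : CodA I t G i) : CodA I t G i' := by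
  intro 𝔭 h1 h2 h3
  have h4 := h 𝔭 h1 h2 h3
  have h5 : ((i' : ℕ) : Cardinal) ≤ (i : ℕ) := by exact_mod_cast hi
  exact le_trans (add_le_add le_rfl h5) h4

theorem CodA_empty (hI : I.IsPrime) (htr : Algebra.trdeg L (MvPolynomial (Fin n) L ⧸ I) = t)
    {i : ℕ} (hi : 0 < i) : ¬ CodA I t ∅ i := by
  intro h
  have h1 := h I hI le_rfl (fun g hg => absurd hg (Set.notMem_empty g))
  rw [htr] at h1
  have h2 : t + i ≤ t := by exact_mod_cast h1
  omega

/-- The origin. -/
theorem CodA_le (hI : I.IsPrime) (hgr : ∀ f ∈ I, ∀ k, homogeneousComponent k f ∈ I) {d : ℕ}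
    (hd : 0 < d) {G : Set (MvPolynomial (Fin n) L)} (hG : ∀ g ∈ G, g.IsHomogeneous d) {i : ℕ}
    (h : CodA I t G i) : i ≤ t := by
  have hp : (RingHom.ker (constantCoeff (R := L) (σ := Fin n))).IsPrime :=
    RingHom.ker_isPrime _
  have h0 : I ≤ RingHom.ker (constantCoeff (R := L) (σ := Fin n)) := by
    intro f hf
    rw [RingHom.mem_ker]
    by_contra h1
    have h2 := hgr f hf 0
    rw [homogeneousComponent_zero] at h2
    apply hI.ne_top
    rw [Ideal.eq_top_iff_one]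
    have h3 := I.mul_mem_left (C (constantCoeff f)⁻¹) h2
    have h4 : coeff 0 f = constantCoeff f := rfl
    rwa [h4, ← C_mul, inv_mul_cancel₀ h1, C_1] at h3
  have h1 := h _ hp h0 (by
    intro g hg
    rw [RingHom.mem_ker]
    by_contra h3
    have h4 := hG g hg (show coeff 0 g ≠ 0 from h3)
    simp only [map_zero] at h4
    omega)
  have h2 : (i : Cardinal) ≤ t := le_trans le_add_self h1
  exact_mod_cast h2

/-- All monomials of degree `d`. -/
theorem CodA_all {d : ℕ} (_hd : 0 < d) {i : ℕ} (hi : i ≤ t) :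
    CodA I t (Set.range (mn L n d)) i := by
  classical
  intro 𝔭 hp _ hg
  have h1 : ∀ l, (X l : MvPolynomial (Fin n) L) ∈ 𝔭 := by
    intro l
    obtain ⟨j, hj⟩ := mo_surj (n := n) (k := d) (m := Pi.single l d) (by simp)
    have h2 := hg (mn L n d j) ⟨j, rfl⟩
    have h3 : mn L n d j = X l ^ d := by
      show ∏ l', (X l' : MvPolynomial (Fin n) L) ^ mo n d j l' = X l ^ d
      simp only [hj]
      rw [Finset.prod_eq_single l]
      · simp
      · intro l' _ hl'
        rw [Pi.single_eq_of_ne hl', pow_zero]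
      · simp
    rw [h3] at h2
    exact hp.mem_of_pow_mem _ h2
  rw [Y4_trdeg 𝔭 hp h1, zero_add]
  exact_mod_cast hi

/-- Codimension `t`: no common zeros. -/
theorem CodA_zero (hgr : ∀ f ∈ I, ∀ k, homogeneousComponent k f ∈ I) {d : ℕ}
    {G : Set (MvPolynomial (Fin n) L)} (hG : ∀ g ∈ G, g.IsHomogeneous d) (h : CodA I t G t)
    {X : Fin n → L} (hX : ∀ f ∈ I, eval X f = 0) (hXG : ∀ g ∈ G, eval X g = 0) : X = 0 := by
  by_contra h0
  obtain ⟨𝔭, hp, htr, hall⟩ := line_prime h0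
  have h1 : I ≤ 𝔭 := by
    intro f hf
    rw [← sum_homogeneousComponent f]
    refine Ideal.sum_mem _ fun k _ => ?_
    exact hall k _ (homogeneousComponent_isHomogeneous k f) (hX _ (hgr f hf k))
  have h2 := h 𝔭 hp h1 fun g hg => hall d g (hG g hg) (hXG g hg)
  rw [htr] at h2
  have h3 : ((1 + t : ℕ) : Cardinal.{u}) ≤ (t : ℕ) := by
    push_cast
    exact h2
  rw [Nat.cast_le] at h3
  omega

end

end Pool.Agent.Lib.MP_17a322_nt.EG
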