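import Pool.Agent.Lib.MP_17a322_nt.EG.Defs

/-!
Closed subschemes of a family over a principal torus bundle over `A`: definitions used in the proof.
-/

universe u

namespace Pool.Agent.Lib.MP_17a322_nt.EG

open MvPolynomial Height
open Pool.Agent.Lib.MP_17a322_nt.VA
open Pool.Agent.Lib.MP_17a322_nt.SL
open Pool.Agent.Lib.MP_17a322_nt.EF (BH fib sp Mo mo ver)
open Pool.Agent.Lib.MP_17a322_nt.TB (Tor ev supp wt maxWt partWt)

section

variable {q p n : ℕ} {R : Type*} [CommRing R]

/-- The largest weight of the monomials of `f`. -/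
noncomputable def mx (τ : Fin q → ℝ) (f : MvPolynomial (Fin q × Fin p) R) : ℝ :=
  maxWt τ fun _ : Fin 1 => f

/-- The leading part of `f` in the direction `τ`. -/
noncomputable def ld (τ : Fin q → ℝ) (f : MvPolynomial (Fin q × Fin p) R) :
    MvPolynomial (Fin q × Fin p) R :=
  partWt τ (mx τ f) f

/-- The coefficient of `X ^ μ`. -/
noncomputable def cX {σ : Type*} (μ : Fin n →₀ ℕ) (f : MvPolynomial σ (MvPolynomial (Fin n) R)) :
    MvPolynomial σ R :=
  ∑ ν ∈ f.support, monomial ν (coeff μ (coeff ν f))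

/-- The vector of the coefficients of a form of degree `k` in `X_1, ..., X_n`. -/
noncomputable def cfG (k : ℕ) (f : MvPolynomial (Fin q × Fin p) (MvPolynomial (Fin n) R)) :
    Fin (Mo n k).card → MvPolynomial (Fin q × Fin p) R :=
  fun i => cX (Finsupp.equivFunOnFinite.symm (mo n k i)) f

end

section

/-- The homogeneous forms in `G` define a closed subset of codimension at least `i` of the closed
subset of the ideal `I`. -/
def CodA {L : Type u} [Field L] {n : ℕ} (I : Ideal (MvPolynomial (Fin n) L)) (t : ℕ)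
    (G : Set (MvPolynomial (Fin n) L)) (i : ℕ) : Prop :=
  ∀ 𝔭 : Ideal (MvPolynomial (Fin n) L), 𝔭.IsPrime → I ≤ 𝔭 → (∀ g ∈ G, g ∈ 𝔭) →
    Algebra.trdeg L (MvPolynomial (Fin n) L ⧸ 𝔭) + i ≤ t

variable {K : Type u} [Field K] {N q p n m s w : ℕ} {A : AV K N} (T : Tor A q p)

/-- The local height for one equation. -/
noncomputable def lam1 {L : Type u} [Field L] [Algebra K L] (v : AbsoluteValue L ℝ) (D d : ℕ)
    (Q : Pol K N q p n) (P : A.Pts L) (y : Fin q × Fin p → L) (X : Fin n → L) : ℝ :=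
  d * Real.log (⨆ l, v (X l)) + D * Real.log (⨆ i, v (A.x P i)) + mx (T.tau v P y) Q -
    Real.log (v (eval X (spG P y Q)))

/-- The form `X ^ ν * Q ^ e` times a power of the coordinate `x_a` such that the weighted degree is
`D * k`. -/
noncomputable def LamG (a : Fin (N + 1)) (D k : ℕ) {t : ℕ} (Q : Fin t → Pol K N q p n)
    (z : (Fin n → ℕ) × (Fin t → ℕ)) : Pol K N q p n :=
  C (C (X a ^ (D * (k - ∑ j, z.2 j))) * ∏ l, X l ^ z.1 l) * ∏ j, Q j ^ z.2 j

/-- The form `F` at the Veronese vector. -/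
noncomputable def pullG (n k : ℕ)
    (F : MvPolynomial (Fin (N + 1) ⊕ (Fin q × Fin p) ⊕ Fin (Mo n k).card) K) : Pol K N q p n :=
  aeval (Sum.elim (fun i => (C (C (X i)) : Pol K N q p n))
    (Sum.elim (fun i => X i) fun l =>
      C (ver k (X : Fin n → MvPolynomial (Fin n) (MvPolynomial (Fin (N + 1)) K)) l))) F

end

/-- The monomials of largest weight. -/
noncomputable def pat {R : Type*} [CommRing R] {q p s w : ℕ}
    (f : Fin s → Fin w → MvPolynomial (Fin q × Fin p) R) (τ : Fin q → ℝ) (j : Fin s) :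
    Finset (Fin q × Fin p →₀ ℕ) :=
  open Classical in (supp (f j)).filter fun a => wt τ a = maxWt τ (f j)

end Pool.Agent.Lib.MP_17a322_nt.EG
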