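import Pool.Agent.Lib.MP_17a322_nt.EG.Defs2
import Pool.Agent.Lib.MP_17a322_nt.TB.N1
import Pool.Agent.Lib.MP_17a322_nt.EF.E1
import Pool.Agent.Lib.MP_17a322_nt.EF.T2

/-!
Closed subschemes of a family over a principal torus bundle over `A`: exceptional polynomials.
-/

universe u

namespace Pool.Agent.Lib.MP_17a322_nt.EG

open MvPolynomial Height
open Pool.Agent.Lib.MP_17a322_nt.VA
open Pool.Agent.Lib.MP_17a322_nt.SL
open Pool.Agent.Lib.MP_17a322_nt.EF (BH fib sp Mo mo ver cf IsRows)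
open Pool.Agent.Lib.MP_17a322_nt.TB (Tor ev supp wt maxWt partWt)

section

/-- The extension of a prime ideal to a polynomial ring. -/
theorem Ex_prime {R σ : Type*} [CommRing R] {I : Ideal R} (hI : I.IsPrime) :
    (I.map (C : R →+* MvPolynomial σ R)).IsPrime := by
  have h1 : I.map (C : R →+* MvPolynomial σ R) =
      RingHom.ker (MvPolynomial.map (σ := σ) (Ideal.Quotient.mk I)) := by
    ext f
    rw [mem_map_C_iff, RingHom.mem_ker, MvPolynomial.ext_iff]
    refine forall_congr' fun m => ?_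
    rw [coeff_map, coeff_zero, Ideal.Quotient.eq_zero_iff_mem]
  rw [h1]
  exact RingHom.ker_isPrime _

theorem Ex_C_notMem {R σ : Type*} [CommRing R] {I : Ideal R} {r : R} (hr : r ∉ I) :
    (C r : MvPolynomial σ R) ∉ I.map (C : R →+* MvPolynomial σ R) := by
  intro h
  have h1 := (mem_map_C_iff.1 h) 0
  rw [coeff_zero_C] at h1
  exact hr h1

end

section

variable {K : Type u} [Field K] {N q p n m s w : ℕ} {A : AV K N} (T : Tor A q p)

theorem Ex_BH_zero (D d : ℕ) : BH D d (0 : MvPolynomial (Fin n) (MvPolynomial (Fin (N + 1)) K)) :=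
  ⟨isHomogeneous_zero _ _ _, fun μ => by
    rw [coeff_zero]
    exact isHomogeneous_zero _ _ _⟩

/-- All coefficients are forms, of the right degrees. -/
theorem Ex_BG_of {D d : ℕ} {f : Pol K N q p n}
    (h : ∀ μ, coeff μ f ≠ 0 → ∃ δ : ℕ, δ + ∑ i, T.k i.1 * μ i = D ∧ BH δ d (coeff μ f)) :
    BG T D d f := fun μ hμ => by
  obtain ⟨δ, h1, h2⟩ := h μ hμ
  exact ⟨δ, h2, h1⟩

variable {T}

theorem Ex_BG_coeff {D d : ℕ} {f : Pol K N q p n} (hf : BG T D d f) {μ : Fin q × Fin p →₀ ℕ}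
    {δ : ℕ} (hδ : δ + ∑ i, T.k i.1 * μ i = D) : BH δ d (coeff μ f) := by
  by_cases h : coeff μ f = 0
  · rw [h]
    exact Ex_BH_zero _ _
  · obtain ⟨δ', h1, h2⟩ := hf μ h
    have h3 : δ' = δ := by omega
    rw [← h3]
    exact h1

theorem Ex_BG_sum {ι : Type*} (J : Finset ι) {D d : ℕ} (f : ι → Pol K N q p n)
    (hf : ∀ i ∈ J, BG T D d (f i)) : BG T D d (∑ i ∈ J, f i) := by
  classical
  intro μ hμ
  rw [coeff_sum] at hμ ⊢
  obtain ⟨i, hi, hne⟩ := Finset.exists_ne_zero_of_sum_ne_zero hμ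
  obtain ⟨δ, h1, h2⟩ := hf i hi μ hne
  exact ⟨δ, EF.E1_bh_sum _ _ fun j hj => Ex_BG_coeff (hf j hj) h2, h2⟩

theorem Ex_BG_mul {D D' d d' : ℕ} {f g : Pol K N q p n} (hf : BG T D d f)
    (hg : BG T D' d' g) : BG T (D + D') (d + d') (f * g) := by
  classical
  intro μ hμ
  rw [coeff_mul] at hμ ⊢
  obtain ⟨x, hx, hne⟩ := Finset.exists_ne_zero_of_sum_ne_zero hμ
  obtain ⟨δ₁, -, h1⟩ := hf x.1 (left_ne_zero_of_mul hne)
  obtain ⟨δ₂, -, h2⟩ := hg x.2 (right_ne_zero_of_mul hne)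
  have hs : ∀ z ∈ Finset.HasAntidiagonal.antidiagonal μ, ∑ i, T.k i.1 * μ i =
      ∑ i, T.k i.1 * z.1 i + ∑ i, T.k i.1 * z.2 i := by
    intro z hz
    rw [← Finset.HasAntidiagonal.mem_antidiagonal.1 hz, ← Finset.sum_add_distrib]
    refine Finset.sum_congr rfl fun i _ => ?_
    rw [Finsupp.add_apply, mul_add]
  have h3 := hs x hx
  refine ⟨δ₁ + δ₂, EF.E1_bh_sum _ _ fun z hz => ?_, by omega⟩
  have h4 := hs z hz
  by_cases hz1 : coeff z.1 f = 0
  · rw [hz1, zero_mul]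
    exact Ex_BH_zero _ _
  by_cases hz2 : coeff z.2 g = 0
  · rw [hz2, mul_zero]
    exact Ex_BH_zero _ _
  obtain ⟨ε₁, k1, k2⟩ := hf z.1 hz1
  obtain ⟨ε₂, k3, k4⟩ := hg z.2 hz2
  have h5 : δ₁ + δ₂ = ε₁ + ε₂ := by omega
  rw [h5]
  exact EF.E1_bh_mul k1 k3

theorem Ex_BG_mono {D d : ℕ} (μ : Fin q × Fin p →₀ ℕ)
    {Q : MvPolynomial (Fin n) (MvPolynomial (Fin (N + 1)) K)} {δ : ℕ} (hQ : BH δ d Q)
    (hδ : δ + ∑ i, T.k i.1 * μ i = D) : BG T D d (monomial μ Q : Pol K N q p n) := by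
  classical
  intro ν hν
  rw [coeff_monomial] at hν
  have h1 : μ = ν := by
    by_contra hne
    rw [if_neg hne] at hν
    exact hν rfl
  subst h1
  refine ⟨δ, ?_, hδ⟩
  rw [coeff_monomial, if_pos rfl]
  exact hQ

theorem Ex_BG_C {D d : ℕ} {F : MvPolynomial (Fin n) (MvPolynomial (Fin (N + 1)) K)}
    (hF : BH D d F) : BG T D d (C F : Pol K N q p n) := by
  rw [C_apply]
  exact Ex_BG_mono 0 hF (by simp)

variable (T)

/-- The pullback of a monomial. -/
theorem Ex_pull_mon {k : ℕ} (d : Fin (N + 1) ⊕ (Fin q × Fin p) ⊕ Fin (Mo n k).card →₀ ℕ) (c : K) :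
    pullG n k (monomial d c) =
      (monomial (∑ i, Finsupp.single i (d (Sum.inr (Sum.inl i))))
        (C (C c) * ((∏ i, (C (X i) : MvPolynomial (Fin n) (MvPolynomial (Fin (N + 1)) K)) ^
            d (Sum.inl i)) *
          ∏ l, (ver k (X : Fin n → MvPolynomial (Fin n) (MvPolynomial (Fin (N + 1)) K)) l) ^
            d (Sum.inr (Sum.inr l)))) : Pol K N q p n) := by
  have h1 : ∀ (μ : Fin q × Fin p →₀ ℕ) (Q : MvPolynomial (Fin n) (MvPolynomial (Fin (N + 1)) K)),
      (monomial μ Q : Pol K N q p n) = C Q * monomial μ 1 := by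
    intro μ Q
    rw [C_mul_monomial, mul_one]
  rw [h1, monomial_sum_one]
  unfold pullG
  rw [aeval_monomial, Finsupp.prod_fintype _ _ (fun i => pow_zero _), Fintype.prod_sum_type,
    Fintype.prod_sum_type]
  simp only [Sum.elim_inl, Sum.elim_inr, map_mul, map_prod, map_pow]
  have h2 : algebraMap K (Pol K N q p n) c = C (C (C c)) := rfl
  have h3 : ∀ i : Fin q × Fin p, (monomial (Finsupp.single i (d (Sum.inr (Sum.inl i)))) 1 :
      Pol K N q p n) = X i ^ d (Sum.inr (Sum.inl i)) := by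
    intro i
    rw [X_pow_eq_monomial]
  rw [h2, Finset.prod_congr rfl fun i _ => h3 i]
  ring

theorem Ex_pull_BG {k a b : ℕ}
    (F : MvPolynomial (Fin (N + 1) ⊕ (Fin q × Fin p) ⊕ Fin (Mo n k).card) K)
    (hF : ∀ m ∈ F.support,
      ∑ i, m (Sum.inl i) + ∑ i, T.k i.1 * m (Sum.inr (Sum.inl i)) = a ∧
      ∑ l, m (Sum.inr (Sum.inr l)) = b) :
    BG T a (b * k) (pullG n k F) := by
  classical
  have h1 : pullG n k F = (∑ m ∈ F.support, pullG n k (monomial m (coeff m F)) :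
      Pol K N q p n) := by
    conv_lhs => rw [F.as_sum]
    unfold pullG
    rw [map_sum]
  rw [h1]
  refine Ex_BG_sum _ _ fun m hm => ?_
  obtain ⟨h3, h4⟩ := hF m hm
  rw [Ex_pull_mon]
  have h5 := EF.E1_bh_prod (n := n) (N := N) (K := K) Finset.univ (fun i => m (Sum.inl i) * 1)
    (fun i => m (Sum.inl i) * 0)
    (fun i => (C (X i) : MvPolynomial (Fin n) (MvPolynomial (Fin (N + 1)) K)) ^ m (Sum.inl i))
    (fun i _ => EF.E1_bh_pow (EF.E1_bh_C (isHomogeneous_X _ _)) _)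
  have h6 := EF.E1_bh_prod (n := n) (N := N) (K := K) Finset.univ
    (fun i => m (Sum.inr (Sum.inr i)) * 0)
    (fun i => m (Sum.inr (Sum.inr i)) * k)
    (fun i => (ver k (X : Fin n → MvPolynomial (Fin n) (MvPolynomial (Fin (N + 1)) K)) i) ^
      m (Sum.inr (Sum.inr i))) (fun i _ => EF.E1_bh_pow (EF.E1_bh_ver k i) _)
  have h7 := EF.E1_bh_mul (EF.E1_bh_C (n := n) (N := N)
    (isHomogeneous_C (Fin (N + 1)) (coeff m F))) (EF.E1_bh_mul h5 h6)
  have h8 : BH (∑ i, m (Sum.inl i)) (b * k)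
      (C (C (coeff m F)) * ((∏ i, (C (X i) :
          MvPolynomial (Fin n) (MvPolynomial (Fin (N + 1)) K)) ^ m (Sum.inl i)) *
        ∏ l, (ver k (X : Fin n → MvPolynomial (Fin n) (MvPolynomial (Fin (N + 1)) K)) l) ^
          m (Sum.inr (Sum.inr l)))) := by
    simpa only [mul_zero, mul_one, Finset.sum_const_zero, ← Finset.sum_mul, h4, zero_add,
      add_zero] using h7
  refine Ex_BG_mono _ h8 ?_
  rw [← h3]
  congr 1
  refine Finset.sum_congr rfl fun i _ => ?_
  congr 1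
  rw [Finsupp.finsetSum_apply]
  simp [Finsupp.single_apply]

/-! #### values -/

section

variable {L : Type u} [Field L] [Algebra K L] (P : A.Pts L)

/-- `spG` as a homomorphism. -/
theorem Ex_spG (y : Fin q × Fin p → L) (f : Pol K N q p n) :
    spG P y f = eval₂Hom (MvPolynomial.map
      (aeval (A.x P) : MvPolynomial (Fin (N + 1)) K →ₐ[K] L).toRingHom)
      (fun i => C (y i)) f := rfl

/-- `spX` as a homomorphism. -/
theorem Ex_spX (f : Pol K N q p n) :
    spX T P f = eval₂Hom ((C : MvPolynomial (Fin n) L →+*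
        MvPolynomial (Fin q) (MvPolynomial (Fin n) L)).comp
      (MvPolynomial.map (aeval (A.x P) : MvPolynomial (Fin (N + 1)) K →ₐ[K] L).toRingHom))
      (fun i => C (C (aeval (A.x P) (T.η i.1 i.2))) * X i.1) f := rfl

theorem Ex_spX_mul (f g : Pol K N q p n) : spX T P (f * g) = spX T P f * spX T P g := by
  rw [Ex_spX, Ex_spX, Ex_spX, map_mul]

theorem Ex_spX_C (F : MvPolynomial (Fin n) (MvPolynomial (Fin (N + 1)) K)) :
    spX T P (C F : Pol K N q p n) = C (sp A P F) := by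
  rw [Ex_spX, coe_eval₂Hom, eval₂_C]
  rfl

end

theorem pullG_eval {k : ℕ} (F : MvPolynomial (Fin (N + 1) ⊕ (Fin q × Fin p) ⊕ Fin (Mo n k).card) K)
    {L : Type u} [Field L] [Algebra K L] (P : A.Pts L) (y : Fin q × Fin p → L) (X : Fin n → L) :
    eval X (spG P y (pullG n k F)) = aeval (Sum.elim (A.x P) (Sum.elim y (ver k X))) F := by
  rw [Ex_spG]
  unfold pullG
  induction F using MvPolynomial.induction_on with
  | C a =>
    rw [algHom_C, algHom_C]
    have h1 : algebraMap K (Pol K N q p n) a = C (C (C a)) := rfl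
    rw [h1, coe_eval₂Hom, eval₂_C, map_C, eval_C]
    exact algHom_C _ _
  | add f g hf hg => simp only [map_add, hf, hg]
  | mul_X f i hf =>
    simp only [map_mul, hf, aeval_X]
    refine congrArg (HMul.hMul _) ?_
    rcases i with i | i | i
    · simp only [Sum.elim_inl, coe_eval₂Hom, eval₂_C, map_C, eval_C]
      exact aeval_X _ _
    · simp only [Sum.elim_inl, Sum.elim_inr, coe_eval₂Hom, eval₂_X, eval_C]
    · simp only [Sum.elim_inr, coe_eval₂Hom, eval₂_C, ver, map_prod, map_pow, map_X, eval_X]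

/-- The pullback at a generic point. -/
theorem Ex_spX_pull {k : ℕ}
    (F : MvPolynomial (Fin (N + 1) ⊕ (Fin q × Fin p) ⊕ Fin (Mo n k).card) K)
    {L : Type u} [Field L] [Algebra K L] (P : A.Pts L) :
    spX T P (pullG n k F : Pol K N q p n) =
      eval₂Hom (MvPolynomial.map (σ := Fin q) (C : L →+* MvPolynomial (Fin n) L))
        (fun l => C (ver k (X : Fin n → MvPolynomial (Fin n) L) l))
        (aeval (Sum.elim (fun i => (C (C (A.x P i)) :
            MvPolynomial (Fin (Mo n k).card) (MvPolynomial (Fin q) L)))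
          (Sum.elim (fun i => C (C (aeval (A.x P) (T.η i.1 i.2)) * X i.1)) X)) F) := by
  rw [Ex_spX]
  unfold pullG
  induction F using MvPolynomial.induction_on with
  | C a =>
    rw [algHom_C, algHom_C]
    have h1 : algebraMap K (Pol K N q p n) a = C (C (C a)) := rfl
    have h2 : algebraMap K (MvPolynomial (Fin (Mo n k).card) (MvPolynomial (Fin q) L)) a =
      C (C (algebraMap K L a)) := rfl
    rw [h1, h2, coe_eval₂Hom, coe_eval₂Hom, eval₂_C, eval₂_C, map_C, RingHom.comp_apply, map_C]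
    congr 2
    exact algHom_C _ _
  | add f g hf hg => simp only [map_add, hf, hg]
  | mul_X f i hf =>
    rw [map_mul, map_mul, map_mul, map_mul, hf, aeval_X, aeval_X]
    refine congrArg (HMul.hMul _) ?_
    rcases i with i | i | i
    · simp only [Sum.elim_inl, coe_eval₂Hom, eval₂_C, map_C, RingHom.comp_apply]
      congr 2
      exact aeval_X _ _
    · simp only [Sum.elim_inl, Sum.elim_inr, coe_eval₂Hom, eval₂_X, eval₂_C, map_mul, map_C,
        map_X]
    · simp only [Sum.elim_inr, coe_eval₂Hom, eval₂_C, eval₂_X, ver, map_prod, map_pow, map_X,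
        RingHom.comp_apply]

theorem pullG_exc (H : Fin m → MvPolynomial (Fin n) (MvPolynomial (Fin (N + 1)) K)) {k g' : ℕ}
    (G' : Matrix (Fin g') (Fin (Mo n k).card) (MvPolynomial (Fin (N + 1)) K))
    (hG' : IsRows A H k G')
    (hpr : ∀ (L : Type u) [Field L] [IsAlgClosed L] [Algebra K L] (P : A.Pts L), Gen A P →
      (fib A H P).IsPrime)
    (F : MvPolynomial (Fin (N + 1) ⊕ (Fin q × Fin p) ⊕ Fin (Mo n k).card) K)
    (hF : T.Exc G' F) : ExcX T H (pullG n k F) := by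
  classical
  obtain ⟨⟨a, b, hab⟩, hF2⟩ := hF
  refine ⟨⟨a, b * k, Ex_pull_BG T F hab⟩, fun L _ _ _ P hP hmem => ?_⟩
  obtain ⟨c, s, z, hc, hz, hzF⟩ := hF2 L P hP
  have hI := hpr L P hP
  have hpr' := Ex_prime (σ := Fin q) hI
  rw [Ex_spX_pull, hzF, map_mul, map_prod] at hmem
  rcases hpr'.mem_or_mem hmem with h | h
  · rw [coe_eval₂Hom, eval₂_C, mem_map_C_iff] at h
    obtain ⟨ν, hν⟩ := ne_zero_iff.1 hc
    have h1 := h ν
    rw [coeff_map] at h1
    exact hI.ne_top (Ideal.eq_top_of_isUnit_mem _ h1 ((IsUnit.mk0 _ hν).map _))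
  · obtain ⟨j, -, hj⟩ := (hpr'.prod_mem_iff).1 h
    have h1 : eval₂Hom (MvPolynomial.map (σ := Fin q) (C : L →+* MvPolynomial (Fin n) L))
        (fun l => C (ver k (X : Fin n → MvPolynomial (Fin n) L) l))
        (∑ l, C (z j l) * X l) =
        ∑ l, MvPolynomial.map C (z j l) * C (ver k (X : Fin n → MvPolynomial (Fin n) L) l) := by
      rw [map_sum]
      refine Finset.sum_congr rfl fun l _ => ?_
      rw [map_mul, coe_eval₂Hom, eval₂_C, eval₂_X]
    rw [h1, mem_map_C_iff] at hj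
    obtain ⟨w, hw, hne⟩ := hz j
    apply hne
    ext ν
    rw [coeff_zero, coeff_sum]
    have h2 : coeff ν (∑ l, MvPolynomial.map C (z j l) *
        C (ver k (X : Fin n → MvPolynomial (Fin n) L) l)) =
        EF.uncf k fun l => coeff ν (z j l) := by
      rw [coeff_sum, EF.uncf]
      refine Finset.sum_congr rfl fun l _ => ?_
      rw [mul_comm, coeff_C_mul, coeff_map, mul_comm, monomial_eq,
        Finsupp.prod_fintype _ _ (fun l => pow_zero _)]
      simp only [Finsupp.equivFunOnFinite_symm_apply_apply]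
      rfl
    have h3 := hj ν
    rw [h2, (hG'.2.1 L P hP).2 _ (EF.uncf_hom _), EF.cf_uncf] at h3
    have h4 : ∀ u ∈ Submodule.span L (Set.range fun i l => aeval (A.x P) (G' i l)),
        ∑ l, u l * w l = 0 := by
      intro u hu
      induction hu using Submodule.span_induction with
      | mem u hu =>
        obtain ⟨i, rfl⟩ := hu
        exact hw i
      | zero => simp
      | add u u' _ _ h h' =>
        simp only [Pi.add_apply, add_mul, Finset.sum_add_distrib, h, h', add_zero]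
      | smul t u _ h =>
        simp only [Pi.smul_apply, smul_eq_mul, mul_assoc, ← Finset.mul_sum, h, mul_zero]
    rw [← h4 _ h3]
    refine Finset.sum_congr rfl fun l _ => ?_
    rw [mul_comm, coeff_C_mul, mul_comm]

theorem ExcX_mul (H : Fin m → MvPolynomial (Fin n) (MvPolynomial (Fin (N + 1)) K))
    (hpr : ∀ (L : Type u) [Field L] [IsAlgClosed L] [Algebra K L] (P : A.Pts L), Gen A P →
      (fib A H P).IsPrime) {F F' : Pol K N q p n} (hF : ExcX T H F) (hF' : ExcX T H F') :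
    ExcX T H (F * F') := by
  obtain ⟨⟨a, b, hab⟩, h1⟩ := hF
  obtain ⟨⟨a', b', hab'⟩, h2⟩ := hF'
  refine ⟨⟨a + a', b + b', Ex_BG_mul hab hab'⟩, fun L _ _ _ P hP hmem => ?_⟩
  rw [Ex_spX_mul] at hmem
  rcases (Ex_prime (hpr L P hP)).mem_or_mem hmem with h | h
  · exact h1 L P hP h
  · exact h2 L P hP h

theorem ExcX_C (H : Fin m → MvPolynomial (Fin n) (MvPolynomial (Fin (N + 1)) K))
    (hpr : ∀ (L : Type u) [Field L] [IsAlgClosed L] [Algebra K L] (P : A.Pts L), Gen A P →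
      (fib A H P).IsPrime) {R : MvPolynomial (Fin (N + 1)) K} {ρ : ℕ} (hR : R.IsHomogeneous ρ)
    (hRA : R ∉ A.I) : ExcX T H (C (C R) : Pol K N q p n) := by
  refine ⟨⟨ρ, 0, Ex_BG_C (EF.E1_bh_C hR)⟩, fun L _ _ _ P hP hmem => ?_⟩
  rw [Ex_spX_C, EF.E1_sp_C] at hmem
  refine Ex_C_notMem ?_ hmem
  intro h
  have h1 : aeval (A.x P) R ≠ 0 := fun h => hRA (hP R ρ hR h)
  exact (hpr L P hP).ne_top (Ideal.eq_top_of_isUnit_mem _ h ((IsUnit.mk0 _ h1).map _))

theorem ExcX_one (H : Fin m → MvPolynomial (Fin n) (MvPolynomial (Fin (N + 1)) K))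
    (hpr : ∀ (L : Type u) [Field L] [IsAlgClosed L] [Algebra K L] (P : A.Pts L), Gen A P →
      (fib A H P).IsPrime) : ExcX T H (1 : Pol K N q p n) := by
  have h0 : (1 : Pol K N q p n) = C 1 := (map_one C).symm
  refine ⟨⟨0, 0, ?_⟩, fun L _ _ _ P hP hmem => ?_⟩
  · rw [h0, ← map_one C]
    exact Ex_BG_C (EF.E1_bh_C (isHomogeneous_one _ _))
  · rw [Ex_spX, map_one] at hmem
    exact (Ex_prime (hpr L P hP)).ne_top ((Ideal.eq_top_iff_one _).2 hmem)

/-- Finitely many statements outside exceptional sets together. -/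
theorem exc_allG {ι : Type*} (Ω : Finset ι)
    (H : Fin m → MvPolynomial (Fin n) (MvPolynomial (Fin (N + 1)) K))
    (hpr : ∀ (L : Type u) [Field L] [IsAlgClosed L] [Algebra K L] (P : A.Pts L), Gen A P →
      (fib A H P).IsPrime)
    (φ : ι → ℝ → A.Pts K → (Fin q × Fin p → K) → (Fin n → K) → Prop)
    (hφ : ∀ i C C' P y X, C ≤ C' → φ i C P y X → φ i C' P y X)
    (h : ∀ i ∈ Ω, ∃ (C : ℝ) (F : Pol K N q p n),
      ExcX T H F ∧ ∀ P y X, eval X (spG P y F) ≠ 0 → φ i C P y X) :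
    ∃ (C : ℝ) (F : Pol K N q p n),
      ExcX T H F ∧ ∀ P y X, eval X (spG P y F) ≠ 0 → ∀ i ∈ Ω, φ i C P y X := by
  classical
  induction Ω using Finset.induction_on with
  | empty =>
    exact ⟨0, 1, ExcX_one T H hpr, fun P y X _ i hi => absurd hi (Finset.notMem_empty i)⟩
  | insert a s ha ih =>
    obtain ⟨C, F, hF, h1⟩ := ih fun i hi => h i (Finset.mem_insert_of_mem hi)
    obtain ⟨C', F', hF', h2⟩ := h a (Finset.mem_insert_self a s)
    refine ⟨max C C', F * F', ExcX_mul T H hpr hF hF', fun P y X hX i hi => ?_⟩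
    rw [Ex_spG, map_mul, map_mul, ← Ex_spG, ← Ex_spG] at hX
    rcases Finset.mem_insert.1 hi with rfl | hi
    · exact hφ _ _ _ _ _ _ (le_max_right _ _) (h2 P y X (right_ne_zero_of_mul hX))
    · exact hφ _ _ _ _ _ _ (le_max_left _ _) (h1 P y X (left_ne_zero_of_mul hX) i hi)

/-- Vertical divisors: `N_main` for the family. -/
theorem N_vert [NumberField K] (Γ : AddSubgroup (A.Pts K)) (hΓ : Γ.FG)
    (H : Fin m → MvPolynomial (Fin n) (MvPolynomial (Fin (N + 1)) K))
    (hH : ∀ i, ∃ a b : ℕ, BH a b (H i))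
    (hpr : ∀ (L : Type u) [Field L] [IsAlgClosed L] [Algebra K L] (P : A.Pts L), Gen A P →
      (fib A H P).IsPrime) {e : ℕ}
    (f : MvPolynomial (Fin q × Fin p) (MvPolynomial (Fin (N + 1)) K)) (hf : T.WH e f)
    (hfA : T.NZ f) (S : Finset (NumberField.FinitePlace K)) (ε : ℝ) (hε : 0 < ε) :
    ∃ (C : ℝ) (F : Pol K N q p n), ExcX T H F ∧
      ∀ P ∈ Γ, ∀ y : Fin q × Fin p → K, T.On P y → ∀ X : Fin n → K,
        eval X (spG P y F) ≠ 0 → ev P y f ≠ 0 ∧
          (∑ v : NumberField.InfinitePlace K, (v.mult : ℝ) *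
              T.lam v.val e (fun _ : Fin 1 => f) P y (fun _ => 1)) +
            (∑ v ∈ S, T.lam v.val e (fun _ : Fin 1 => f) P y (fun _ => 1)) ≤
            ε * (logHeight (A.x P) + ∑ i, T.ht P y i) + C * (1 + T.NS S P y) := by
  obtain ⟨g', G', hG'⟩ := EF.T_rows A H hH 1
  obtain ⟨C, F, hF, h1⟩ := TB.N_main T Γ hΓ G' f hf hfA S ε hε
  refine ⟨C, pullG n 1 F, pullG_exc T H G' hG' hpr F hF, fun P hP y hy X hX => ?_⟩
  rw [pullG_eval] at hX
  exact h1 P hP y hy _ hX

end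

end Pool.Agent.Lib.MP_17a322_nt.EG
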