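import Pool.Agent.Lib.MP_17a322_nt.EG.Defs2
import Pool.Agent.Lib.MP_17a322_nt.TB.R2
import Pool.Agent.Lib.MP_17a322_nt.EF.R0
import Pool.Agent.Lib.MP_17a322_nt.EF.T1

/-!
Generic points of the bundle.
-/

universe u

namespace Pool.Agent.Lib.MP_17a322_nt.EG

open MvPolynomial
open Pool.Agent.Lib.MP_17a322_nt.VA
open Pool.Agent.Lib.MP_17a322_nt.SL
open Pool.Agent.Lib.MP_17a322_nt.TB (Tor ev R2_pd R2_pd_hom R2_sp R2_sp_eq R2_sp_coeff R2_sp_C
  R1_WH_det R1_WH_C R1_ev_eq ev_sp)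

section

variable {K : Type u} [Field K] {N q p : ℕ} {A : AV K N} (T : Tor A q p)

/-- A polynomial that vanishes on the bundle over one generic point of `A` vanishes on the bundle over
all points. -/
theorem G1_sp_zero {D : ℕ} {b : MvPolynomial (Fin q × Fin p) (MvPolynomial (Fin (N + 1)) K)}
    (hb : T.WH D b) {L₁ : Type u} [Field L₁] [Algebra K L₁] {P₁ : A.Pts L₁} (hP₁ : Gen A P₁)
    (h : T.sp P₁ b = 0) {L : Type u} [Field L] [Algebra K L] (P : A.Pts L) : T.sp P b = 0 := by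
  ext d
  rw [R2_sp_coeff, coeff_zero]
  have h1 : aeval (A.x P₁) (R2_pd T b d) = 0 := by
    rw [← R2_sp_coeff, h, coeff_zero]
  exact EF.R0_pt A P _ (hP₁ _ _ (R2_pd_hom T hb d) h1)

theorem G1_scale {D : ℕ} {b : MvPolynomial (Fin q × Fin p) (MvPolynomial (Fin (N + 1)) K)}
    (hb : T.WH D b) {L : Type u} [Field L] [Algebra K L] (c : L) {x x' : Fin (N + 1) → L}
    {y y' : Fin q × Fin p → L} (hx : x = fun i => c * x' i)
    (hy : ∀ i, y i = c ^ T.k i.1 * y' i) :
    eval₂ (aeval x : MvPolynomial (Fin (N + 1)) K →ₐ[K] L).toRingHom y b =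
      c ^ D * eval₂ (aeval x' : MvPolynomial (Fin (N + 1)) K →ₐ[K] L).toRingHom y' b := by
  rw [eval₂_eq', eval₂_eq', Finset.mul_sum]
  refine Finset.sum_congr rfl fun μ hμ => ?_
  obtain ⟨δ, h1, h2⟩ := hb μ (mem_support_iff.1 hμ)
  have h3 : aeval x (coeff μ b) = c ^ δ * aeval x' (coeff μ b) := by
    rw [hx]
    exact aeval_mul_homog h1 c x'
  have h4 : ∏ i, y i ^ μ i = c ^ (∑ i, T.k i.1 * μ i) * ∏ i, y' i ^ μ i := by
    rw [← Finset.prod_pow_eq_pow_sum, ← Finset.prod_mul_distrib]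
    refine Finset.prod_congr rfl fun i _ => ?_
    rw [hy i, mul_pow, ← pow_mul]
  show aeval x (coeff μ b) * ∏ i, y i ^ μ i = c ^ D * (aeval x' (coeff μ b) * ∏ i, y' i ^ μ i)
  rw [h3, h4, ← h2, pow_add]
  ring

theorem genB_exists : ∃ (L : Type u) (_ : Field L) (_ : IsAlgClosed L) (_ : Algebra K L)
    (P : A.Pts L) (y : Fin q × Fin p → L), GenB T P y := by
  obtain ⟨L₁, _, _, _, P₁, hP₁⟩ := EF.T_gen A
  let R : Type u := MvPolynomial (Fin q) L₁
  let M : Type u := FractionRing R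
  let L : Type u := AlgebraicClosure M
  let φ : R →ₐ[K] L := (IsScalarTower.toAlgHom K M L).comp (IsScalarTower.toAlgHom K R M)
  have hφ : ∀ f, φ f = 0 → f = 0 := by
    intro f h
    have h1 : φ f = algebraMap M L (algebraMap R M f) := rfl
    rw [h1] at h
    have h2 := (map_eq_zero_iff _ (algebraMap M L).injective).1 h
    exact (map_eq_zero_iff _ (IsFractionRing.injective R M)).1 h2
  let ψ : L₁ →ₐ[K] L := φ.comp (IsScalarTower.toAlgHom K L₁ R)
  have hψ : ∀ a, ψ a = φ (C a) := fun a => rfl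
  have hC : ∀ f : MvPolynomial (Fin (N + 1)) K,
      ψ (aeval (A.x P₁) f) = aeval (fun i => ψ (A.x P₁ i)) f := by
    intro f
    exact comp_aeval_apply (A.x P₁) ψ f
  have hψ0 : ∀ a, ψ a = 0 → a = 0 := fun a h => (map_eq_zero_iff _ ψ.toRingHom.injective).1 h
  have hpt : A.IsPt fun i => ψ (A.x P₁ i) := by
    intro f hf
    rw [← hC, EF.R0_pt A P₁ f hf, map_zero]
  have hne : (fun i => ψ (A.x P₁ i)) ≠ 0 := by
    intro h0
    obtain ⟨i, hi⟩ := A.exists_x_ne P₁
    exact hi (hψ0 _ (congrFun h0 i))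
  obtain ⟨P, c, hc, hP⟩ := AV.exists_rep hne hpt
  have hP' : (fun i => ψ (A.x P₁ i)) = fun i => c * A.x P i := funext hP
  have hgen : Gen A P := by
    intro f d hf h0
    refine hP₁ f d hf (hψ0 _ ?_)
    rw [hC, hP', aeval_mul_homog hf, h0, mul_zero]
  refine ⟨L, inferInstance, inferInstance, inferInstance, P,
    fun i => (c ^ T.k i.1)⁻¹ * (φ (X i.1) * ψ (aeval (A.x P₁) (T.η i.1 i.2))), hgen, ?_, ?_⟩
  · intro i
    constructor
    · obtain ⟨j, hj⟩ := T.ne i
      refine ⟨j, mul_ne_zero (inv_ne_zero (pow_ne_zero _ hc)) (mul_ne_zero ?_ ?_)⟩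
      · intro h
        exact X_ne_zero i (hφ _ h)
      · intro h
        exact hj (hP₁ _ _ (T.hom i j) (hψ0 _ h))
    · refine ⟨(c ^ T.k i)⁻¹ * φ (X i) * c ^ T.e i, fun j => ?_⟩
      show (c ^ T.k i)⁻¹ * (φ (X i) * ψ (aeval (A.x P₁) (T.η i j))) = _
      rw [hC, hP', aeval_mul_homog (T.hom i j)]
      ring
  · intro D b hb h0
    have h1 := G1_scale T hb c hP' (y := fun i => φ (X i.1) * ψ (aeval (A.x P₁) (T.η i.1 i.2)))
      (y' := fun i => (c ^ T.k i.1)⁻¹ * (φ (X i.1) * ψ (aeval (A.x P₁) (T.η i.1 i.2))))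
      (fun i => (mul_inv_cancel_left₀ (pow_ne_zero _ hc) _).symm)
    have h2 : eval₂ (aeval (A.x P) : MvPolynomial (Fin (N + 1)) K →ₐ[K] L).toRingHom
        (fun i => (c ^ T.k i.1)⁻¹ * (φ (X i.1) * ψ (aeval (A.x P₁) (T.η i.1 i.2)))) b = 0 := by
      rw [← h0]
      unfold ev
      rw [eval_map]
    rw [h2, mul_zero] at h1
    have h3 : φ (T.sp P₁ b) = eval₂ (aeval (fun i => ψ (A.x P₁ i)) :
        MvPolynomial (Fin (N + 1)) K →ₐ[K] L).toRingHom
        (fun i => φ (X i.1) * ψ (aeval (A.x P₁) (T.η i.1 i.2))) b := by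
      unfold Tor.sp
      show φ.toRingHom _ = _
      rw [hom_eval₂]
      have h4 : φ.toRingHom.comp ((C : L₁ →+* MvPolynomial (Fin q) L₁).comp
          (aeval (A.x P₁) : MvPolynomial (Fin (N + 1)) K →ₐ[K] L₁).toRingHom) =
          (aeval (fun i => ψ (A.x P₁ i)) : MvPolynomial (Fin (N + 1)) K →ₐ[K] L).toRingHom :=
        RingHom.ext fun f => hC f
      have h5 : (φ.toRingHom ∘ fun i : Fin q × Fin p => C (aeval (A.x P₁) (T.η i.1 i.2)) * X i.1) =
          fun i => φ (X i.1) * ψ (aeval (A.x P₁) (T.η i.1 i.2)) := by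
        funext i
        show φ (C (aeval (A.x P₁) (T.η i.1 i.2)) * X i.1) = _
        rw [map_mul, mul_comm]
        rfl
      rw [h4]
      exact congrArg (fun g => eval₂ (aeval (fun i => ψ (A.x P₁ i)) :
        MvPolynomial (Fin (N + 1)) K →ₐ[K] L).toRingHom g b) h5
    rw [← h3] at h1
    exact G1_sp_zero T hb hP₁ (hφ _ h1) P

theorem G1_ev_sp {L : Type u} [Field L] [Algebra K L] {P : A.Pts L} {y : Fin q × Fin p → L}
    (hy : T.On P y) {b : MvPolynomial (Fin q × Fin p) (MvPolynomial (Fin (N + 1)) K)}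
    (h : T.sp P b = 0) : ev P y b = 0 := by
  choose t ht using fun i => (hy i).2
  have h1 : y = fun i => t i.1 * aeval (A.x P) (T.η i.1 i.2) := by
    funext i
    exact ht i.1 i.2
  rw [h1, ← ev_sp, h, map_zero]

/-- `ev` as a homomorphism of rings. -/
noncomputable def G1_ev {L : Type u} [Field L] [Algebra K L] (P : A.Pts L)
    (y : Fin q × Fin p → L) :
    MvPolynomial (Fin q × Fin p) (MvPolynomial (Fin (N + 1)) K) →+* L :=
  (eval y).comp (MvPolynomial.map (aeval (A.x P) : MvPolynomial (Fin (N + 1)) K →ₐ[K] L).toRingHom)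

/-- Linear independence at one generic point of the bundle gives linear independence over all generic
points of `A`. -/
theorem G_li {g n s D' D : ℕ} (G : Matrix (Fin g) (Fin n) (MvPolynomial (Fin (N + 1)) K))
    (hG : ∀ i l, (G i l).IsHomogeneous D')
    (Λ : Matrix (Fin s) (Fin n) (MvPolynomial (Fin q × Fin p) (MvPolynomial (Fin (N + 1)) K)))
    (hΛ : ∀ j l, T.WH D (Λ j l)) (J : Finset (Fin s)) {L₀ : Type u} [Field L₀] [Algebra K L₀]
    (P₀ : A.Pts L₀) (y₀ : Fin q × Fin p → L₀) (h₀ : GenB T P₀ y₀)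
    (h : LinearIndependent L₀ (Sum.elim (fun (i : Fin g) (l : Fin n) => aeval (A.x P₀) (G i l))
      fun (j : J) (l : Fin n) => ev P₀ y₀ (Λ j l)))
    {L : Type u} [Field L] [Algebra K L] (P : A.Pts L) (hP : Gen A P) :
    LinearIndependent (MvPolynomial (Fin q) L)
      (Sum.elim (fun (i : Fin g) (l : Fin n) => (C (aeval (A.x P) (G i l)) :
        MvPolynomial (Fin q) L)) fun (j : J) (l : Fin n) => T.sp P (Λ j l)) := by
  classical
  obtain ⟨k, ⟨e⟩⟩ : ∃ k, Nonempty (Fin k ≃ Fin g ⊕ J) :=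
    ⟨Fintype.card (Fin g ⊕ J), ⟨(Fintype.equivFin _).symm⟩⟩
  obtain ⟨c, hc⟩ := EF.R0_minor _ (h.comp e e.injective)
  obtain ⟨M, hM⟩ : ∃ M : Matrix (Fin k) (Fin k)
      (MvPolynomial (Fin q × Fin p) (MvPolynomial (Fin (N + 1)) K)),
      M = Matrix.of fun i l => Sum.elim (fun (i : Fin g) (l : Fin n) => C (G i l))
        (fun (j : J) (l : Fin n) => Λ j l) (e i) (c l) := ⟨_, rfl⟩
  have hWH : T.WH (∑ i, Sum.elim (fun _ : Fin g => D') (fun _ : J => D) (e i)) M.det := by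
    refine R1_WH_det T M _ fun i l => ?_
    rw [hM, Matrix.of_apply]
    rcases e i with a | j
    · exact R1_WH_C T (hG a (c l))
    · exact hΛ j (c l)
  have h1 : ev P₀ y₀ M.det ≠ 0 := by
    show G1_ev P₀ y₀ M.det ≠ 0
    rw [RingHom.map_det]
    have h2 : (G1_ev P₀ y₀).mapMatrix M = Matrix.of fun i j : Fin k =>
        (Sum.elim (fun (i : Fin g) (l : Fin n) => aeval (A.x P₀) (G i l))
          (fun (j : J) (l : Fin n) => ev P₀ y₀ (Λ j l)) ∘ e) i (c j) := by
      ext i l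
      rw [RingHom.mapMatrix_apply, Matrix.map_apply, hM, Matrix.of_apply, Matrix.of_apply,
        Function.comp_apply]
      rcases e i with a | j
      · show eval y₀ (MvPolynomial.map _ (C (G a (c l)))) = _
        rw [map_C, eval_C]
        rfl
      · rfl
    rw [h2]
    exact hc
  have h3 : T.sp P M.det ≠ 0 := fun h4 =>
    h1 (G1_ev_sp T h₀.2.1 (G1_sp_zero T hWH hP h4 P₀))
  rw [← linearIndependent_equiv e, Fintype.linearIndependent_iff]
  intro a ha
  have h4 : T.sp P M.det = (Matrix.of fun i j : Fin k =>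
        (Sum.elim (fun (i : Fin g) (l : Fin n) => (C (aeval (A.x P) (G i l)) :
          MvPolynomial (Fin q) L)) (fun (j : J) (l : Fin n) => T.sp P (Λ j l)) ∘ e) i (c j)).det := by
    rw [← R2_sp_eq, RingHom.map_det]
    refine congrArg Matrix.det ?_
    ext1 i l
    rw [RingHom.mapMatrix_apply, Matrix.map_apply, hM, Matrix.of_apply, Matrix.of_apply,
      Function.comp_apply]
    rcases e i with a | j
    · exact R2_sp_C T P (G a (c l))
    · rfl
  rw [h4] at h3
  have h5 := Matrix.eq_zero_of_vecMul_eq_zero h3 (v := a) (by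
    funext l
    have h6 := congrFun ha (c l)
    rw [Finset.sum_apply] at h6
    exact h6)
  exact congrFun h5

end

end Pool.Agent.Lib.MP_17a322_nt.EG
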