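import Pool.Agent.Lib.MP_17a322_nt.EG.BDefs
import Pool.Agent.Lib.MP_17a322_nt.SV3.A1
import Pool.Agent.Lib.MP_17a322_nt.TB.R2

/-!
Charts of the bundles.
-/

universe u

namespace Pool.Agent.Lib.MP_17a322_nt.EG

open MvPolynomial Height
open Pool.Agent.Lib.MP_17a322_nt.VA
open Pool.Agent.Lib.MP_17a322_nt.SL
open Pool.Agent.Lib.MP_17a322_nt.TB (Tor ev)
open Pool.Agent.Lib.MP_17a322_nt.SV3 (Bun md)

section

variable {K : Type u} [Field K] {N q p p' n m s w : ℕ} {A : AV K N}

theorem K_on (B : Bun A q p p') {ch : Fin q → Fin p'} (h : B.Ch ch) {L : Type u} [Field L]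
    [Algebra K L] {P : A.Pts L} (hP : B.In ch P) (y : Fin q × Fin p → L) :
    B.On P y ↔ (B.tor ch h).On P y := by
  constructor
  · intro hy i
    obtain ⟨t, _, ht⟩ := SV3.A_on B hP hy
    refine ⟨(hy i).1, t i, fun c => ?_⟩
    rw [ht]
    rfl
  · intro hy
    choose t ht using fun i => (hy i).2
    have h1 : y = B.yt ch P t := by
      funext i
      exact ht i.1 i.2
    rw [h1]
    refine SV3.A_on' B hP fun i h0 => ?_
    obtain ⟨c, hc⟩ := (hy i).1
    apply hc
    rw [ht, h0, zero_mul]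

theorem K_sp (B : Bun A q p p') {ch : Fin q → Fin p'} (h : B.Ch ch) {L : Type u} [Field L]
    [Algebra K L] (P : A.Pts L)
    (b : MvPolynomial (Fin q × Fin p) (MvPolynomial (Fin (N + 1)) K)) (a : Fin q →₀ ℕ) :
    coeff a ((B.tor ch h).sp P b) = aeval (A.x P) (coeff a (B.gen ch b)) := by
  rw [TB.R2_sp_coeff, SV3.A_gen_coeff]
  rfl

theorem K_gen (B : Bun A q p p') {ch : Fin q → Fin p'} (h : B.Ch ch) {L : Type u} [Field L]
    [Algebra K L] (P : A.Pts L) (y : Fin q × Fin p → L) :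
    GenP B P y ↔ GenB (B.tor ch h) P y := by
  unfold GenP GenB
  refine and_congr_right fun hP => and_congr (K_on B h (SV3.A_gen_in B hP h) y) ?_
  refine forall_congr' fun D => forall_congr' fun b => ?_
  have h1 : B.WH D b → (B.Van b ↔ (B.tor ch h).sp P b = 0) := by
    intro hb
    rw [SV3.A_van B h hb]
    constructor
    · intro h2
      ext a
      rw [K_sp, coeff_zero]
      exact A.x_isPt P _ (h2 a)
    · intro h2 a
      refine SV3.A_mem B hb ch a hP ?_
      rw [← K_sp B h, h2, coeff_zero]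
  constructor
  · intro h2 hb h3
    exact (h1 hb).1 (h2 hb h3)
  · intro h2 hb h3
    exact (h1 hb).2 (h2 hb h3)

/-- The points of the chart: `R` is a product of entries of the column `ch`. -/
theorem K_chart (B : Bun A q p p') {ch : Fin q → Fin p'} (h : B.Ch ch) :
    ∃ (R : MvPolynomial (Fin (N + 1)) K) (ρ : ℕ), R.IsHomogeneous ρ ∧ R ∉ A.I ∧
      ∀ (L : Type u) [Field L] [Algebra K L] (P : A.Pts L), aeval (A.x P) R ≠ 0 → B.In ch P := by
  classical
  choose b hb using h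
  refine ⟨∏ i, B.ζ i (b i) (ch i), ∑ i, B.e i,
    IsHomogeneous.prod _ _ _ fun i _ => B.hom i (b i) (ch i), ?_, ?_⟩
  · intro h0
    obtain ⟨L₀, _, _, _, P₀, hP₀⟩ := EF.T_gen A
    have h1 := A.x_isPt P₀ _ h0
    rw [map_prod, Finset.prod_eq_zero_iff] at h1
    obtain ⟨i, _, hi⟩ := h1
    exact hb i (hP₀ _ _ (B.hom i (b i) (ch i)) hi)
  · intro L _ _ P hP i
    rw [map_prod, Finset.prod_ne_zero_iff] at hP
    exact ⟨b i, hP i (Finset.mem_univ i)⟩

end

end Pool.Agent.Lib.MP_17a322_nt.EG
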