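import Pool.Agent.Lib.MP_17a322_nt.EG.B1
import Pool.Agent.Lib.MP_17a322_nt.EG.G1
import Pool.Agent.Lib.MP_17a322_nt.EF.T2

/-!
Closed subschemes over torus bundles: generic points of the bundle and polynomials that vanish there.
-/

universe u

namespace Pool.Agent.Lib.MP_17a322_nt.EG

open MvPolynomial Height
open Pool.Agent.Lib.MP_17a322_nt.VA
open Pool.Agent.Lib.MP_17a322_nt.SL
open Pool.Agent.Lib.MP_17a322_nt.EF (BH fib sp Mo mo ver cf IsRows)
open Pool.Agent.Lib.MP_17a322_nt.TB (Tor ev spR spR_coeff yd)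

section

variable {S : Type*} [CommRing S] {κ : Type*} {g : ℕ}

/-- The rows of `G` and the row `w`, the columns `e`. -/
def bm (G : Fin g → κ → S) (w : κ → S) (e : Fin (g + 1) → κ) :
    Matrix (Fin (g + 1)) (Fin (g + 1)) S :=
  Matrix.of fun i j => (Fin.snoc (α := fun _ => κ → S) G w : Fin (g + 1) → κ → S) i (e j)

omit [CommRing S] in
theorem bm_last (G : Fin g → κ → S) (w : κ → S) (e : Fin (g + 1) → κ) (j : Fin (g + 1)) :
    bm G w e (Fin.last g) j = w (e j) := by
  unfold bm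
  rw [Matrix.of_apply, Fin.snoc_last]

omit [CommRing S] in
theorem bm_cast (G : Fin g → κ → S) (w : κ → S) (e : Fin (g + 1) → κ) (i : Fin g)
    (j : Fin (g + 1)) : bm G w e i.castSucc j = G i (e j) := by
  unfold bm
  rw [Matrix.of_apply, Fin.snoc_castSucc]

theorem bm_map {S' : Type*} [CommRing S'] (φ : S →+* S') (G : Fin g → κ → S) (w : κ → S)
    (e : Fin (g + 1) → κ) :
    φ (bm G w e).det = (bm (fun i l => φ (G i l)) (fun l => φ (w l)) e).det := by
  rw [RingHom.map_det]
  congr 1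
  ext i j
  rw [RingHom.mapMatrix_apply, Matrix.map_apply]
  refine Fin.lastCases ?_ (fun i => ?_) i
  · rw [bm_last, bm_last]
  · rw [bm_cast, bm_cast]

/-- The expansion in the last row. -/
theorem bm_row (G : Fin g → κ → S) (w : κ → S) (e : Fin (g + 1) → κ) :
    (bm G w e).det = ∑ j : Fin (g + 1), (-1) ^ ((Fin.last g : ℕ) + (j : ℕ)) * w (e j) *
      (Matrix.of fun (a b : Fin g) => G a (e (j.succAbove b))).det := by
  rw [Matrix.det_succ_row _ (Fin.last g)]
  refine Finset.sum_congr rfl fun j _ => ?_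
  rw [bm_last]
  congr 2
  ext a b
  rw [Matrix.submatrix_apply, Fin.succAbove_last, bm_cast, Matrix.of_apply]

/-- The expansion in the last column. -/
theorem bm_col (G : Fin g → κ → S) (w : κ → S) (e : Fin (g + 1) → κ) :
    (bm G w e).det = (∑ i : Fin g, (-1) ^ (((i.castSucc : Fin (g + 1)) : ℕ) +
      ((Fin.last g : Fin (g + 1)) : ℕ)) * G i (e (Fin.last g)) *
        ((bm G w e).submatrix i.castSucc.succAbove (Fin.last g).succAbove).det) +
      w (e (Fin.last g)) * (Matrix.of fun (a b : Fin g) => G a (e b.castSucc)).det := by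
  rw [Matrix.det_succ_column _ (Fin.last g), Fin.sum_univ_castSucc]
  congr 1
  · refine Finset.sum_congr rfl fun i _ => ?_
    rw [bm_cast]
  · rw [bm_last]
    have h1 : (-1 : S) ^ (((Fin.last g : Fin (g + 1)) : ℕ) + ((Fin.last g : Fin (g + 1)) : ℕ)) =
        1 := by
      rw [← two_mul, pow_mul]
      simp
    rw [h1, one_mul]
    congr 2
    ext a b
    rw [Matrix.submatrix_apply, Fin.succAbove_last, bm_cast]
    rfl

/-- The coefficients of the determinant if the rows of `G` are constant. -/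
theorem bm_coeff {σ : Type*} (G : Fin g → κ → S) (w : κ → MvPolynomial σ S)
    (e : Fin (g + 1) → κ) (a : σ →₀ ℕ) :
    coeff a (bm (fun i l => (C (G i l) : MvPolynomial σ S)) w e).det =
      (bm G (fun l => coeff a (w l)) e).det := by
  rw [bm_row, bm_row, coeff_sum]
  refine Finset.sum_congr rfl fun j _ => ?_
  have h1 : (Matrix.of fun (a b : Fin g) => (C (G a (e (j.succAbove b))) : MvPolynomial σ S)).det =
      C (Matrix.of fun (a b : Fin g) => G a (e (j.succAbove b))).det := by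
    rw [RingHom.map_det]
    rfl
  have h2 : (-1 : MvPolynomial σ S) ^ ((Fin.last g : ℕ) + (j : ℕ)) =
      C ((-1) ^ ((Fin.last g : ℕ) + (j : ℕ))) := by
    rw [map_pow, map_neg, map_one]
  rw [h1, h2, mul_assoc, coeff_C_mul, mul_comm (w (e j)), coeff_C_mul]
  ring

end

section

variable {L : Type*} [Field L] {κ : Type*} {g : ℕ}

theorem bm_zero {G : Fin g → κ → L} {w : κ → L}
    (hw : w ∈ Submodule.span L (Set.range G)) (e : Fin (g + 1) → κ) : (bm G w e).det = 0 := by
  rw [Submodule.mem_span_range_iff_exists_fun] at hw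
  obtain ⟨c, hc⟩ := hw
  refine Matrix.exists_vecMul_eq_zero_iff.1 ⟨Fin.snoc (α := fun _ => L) (fun i => c i) (-1), ?_,
    ?_⟩
  · intro h
    have h1 := congrFun h (Fin.last g)
    rw [Fin.snoc_last] at h1
    exact (neg_ne_zero.2 one_ne_zero) h1
  · funext j
    show ∑ i, (Fin.snoc (α := fun _ => L) (fun i => c i) (-1) : Fin (g + 1) → L) i *
      bm G w e i j = 0
    rw [Fin.sum_univ_castSucc, Fin.snoc_last, bm_last]
    have h1 : ∀ i : Fin g, (Fin.snoc (α := fun _ => L) (fun i => c i) (-1) : Fin (g + 1) → L)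
        i.castSucc * bm G w e i.castSucc j = c i * G i (e j) := fun i => by
      rw [Fin.snoc_castSucc, bm_cast]
    rw [Finset.sum_congr rfl fun i _ => h1 i, ← hc, Finset.sum_apply]
    simp only [Pi.smul_apply, smul_eq_mul]
    ring

theorem bm_span [Finite κ] {G : Fin g → κ → L} (hG : LinearIndependent L G) {w : κ → L}
    (h : ∀ e : Fin (g + 1) → κ, (bm G w e).det = 0) : w ∈ Submodule.span L (Set.range G) := by
  by_contra hw
  have h1 : LinearIndependent L (Fin.snoc (α := fun _ => κ → L) G w : Fin (g + 1) → κ → L) :=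
    linearIndependent_finSnoc.2 ⟨hG, hw⟩
  obtain ⟨e, he⟩ := EF.R0_minor _ h1
  exact he (h e)

end

section

variable {K : Type u} [Field K] {N q p n m : ℕ} {A : AV K N} (T : Tor A q p)

theorem spX_eq {L : Type u} [Field L] [Algebra K L] (P : A.Pts L) (f : Pol K N q p n) :
    spX T P f = spR (MvPolynomial.map
      (aeval (A.x P) : MvPolynomial (Fin (N + 1)) K →ₐ[K] L).toRingHom)
      (fun i => C (aeval (A.x P) (T.η i.1 i.2))) f := rfl

theorem spX_coeff {L : Type u} [Field L] [Algebra K L] (P : A.Pts L) (f : Pol K N q p n)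
    (a : Fin q →₀ ℕ) (μ : Fin n →₀ ℕ) :
    coeff μ (coeff a (spX T P f)) = coeff a (T.sp P (cX μ f)) := by
  classical
  rw [spX_eq, TB.sp_eq, spR_coeff, spR_coeff, coeff_sum]
  have hs : (cX μ f).support ⊆ f.support := by
    intro ν hν
    rw [mem_support_iff, coeff_cX] at hν
    rw [mem_support_iff]
    intro h0
    rw [h0, coeff_zero] at hν
    exact hν rfl
  rw [Finset.sum_subset hs (fun ν _ hν => by
    rw [notMem_support_iff.1 hν, map_zero, zero_mul, ite_self])]
  refine Finset.sum_congr rfl fun ν _ => ?_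
  by_cases h : yd ν = a
  · rw [if_pos h, if_pos h]
    have h1 : ∏ i, (C (aeval (A.x P) (T.η i.1 i.2)) : MvPolynomial (Fin n) L) ^ ν i =
        C (∏ i, aeval (A.x P) (T.η i.1 i.2) ^ ν i) := by
      rw [map_prod]
      simp only [map_pow]
    rw [h1, mul_comm, coeff_C_mul, coeff_map, coeff_cX, mul_comm]
  · rw [if_neg h, if_neg h, coeff_zero]

theorem spX_hom {D d : ℕ} {f : Pol K N q p n} (hf : BG T D d f) {L : Type u} [Field L]
    [Algebra K L] (P : A.Pts L) (a : Fin q →₀ ℕ) : (coeff a (spX T P f)).IsHomogeneous d := by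
  classical
  rw [spX_eq, spR_coeff]
  refine IsHomogeneous.sum _ _ _ fun ν hν => ?_
  by_cases h : yd ν = a
  · rw [if_pos h]
    obtain ⟨δ, h1, _⟩ := hf ν (mem_support_iff.1 hν)
    have h2 : ∏ i, (C (aeval (A.x P) (T.η i.1 i.2)) : MvPolynomial (Fin n) L) ^ ν i =
        C (∏ i, aeval (A.x P) (T.η i.1 i.2) ^ ν i) := by
      rw [map_prod]
      simp only [map_pow]
    rw [h2, mul_comm]
    exact (h1.1.map _).C_mul _
  · rw [if_neg h]
    exact isHomogeneous_zero _ _ _

/-- The bordered determinants are weighted homogeneous. -/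
theorem bm_WH {g D D' d : ℕ} (G' : Matrix (Fin g) (Fin (Mo n d).card) (MvPolynomial (Fin (N + 1)) K))
    (hG' : ∀ i l, (G' i l).IsHomogeneous D') {f : Pol K N q p n} (hf : BG T D d f)
    (e : Fin (g + 1) → Fin (Mo n d).card) :
    T.WH (∑ i : Fin (g + 1), (Fin.snoc (α := fun _ => ℕ) (fun _ : Fin g => D') D :
      Fin (g + 1) → ℕ) i)
      (bm (fun i l => (C (G' i l) :
        MvPolynomial (Fin q × Fin p) (MvPolynomial (Fin (N + 1)) K))) (cfG d f) e).det := by
  refine TB.R1_WH_det T _ _ fun i l => ?_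
  refine Fin.lastCases ?_ (fun i => ?_) i
  · rw [bm_last, Fin.snoc_last]
    exact cfG_WH hf _
  · rw [bm_cast, Fin.snoc_castSucc]
    exact TB.R1_WH_C T (hG' i _)

theorem bm_ev {g d : ℕ} (G' : Matrix (Fin g) (Fin (Mo n d).card) (MvPolynomial (Fin (N + 1)) K))
    (f : Pol K N q p n) (e : Fin (g + 1) → Fin (Mo n d).card) {L : Type u} [Field L]
    [Algebra K L] (P : A.Pts L) (y : Fin q × Fin p → L) :
    ev P y (bm (fun i l => (C (G' i l) :
        MvPolynomial (Fin q × Fin p) (MvPolynomial (Fin (N + 1)) K))) (cfG d f) e).det =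
      (bm (fun i l => aeval (A.x P) (G' i l)) (cf d (spG P y f)) e).det := by
  show G1_ev P y _ = _
  rw [bm_map]
  congr 2
  · funext i l
    show eval y (MvPolynomial.map _ (C (G' i l))) = _
    rw [map_C, eval_C]
    rfl
  · funext l
    exact (cf_spG P y d f l).symm

theorem bm_sp {g d : ℕ} (G' : Matrix (Fin g) (Fin (Mo n d).card) (MvPolynomial (Fin (N + 1)) K))
    (f : Pol K N q p n) (e : Fin (g + 1) → Fin (Mo n d).card) {L : Type u} [Field L]
    [Algebra K L] (P : A.Pts L) :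
    T.sp P (bm (fun i l => (C (G' i l) :
        MvPolynomial (Fin q × Fin p) (MvPolynomial (Fin (N + 1)) K))) (cfG d f) e).det =
      (bm (fun i l => (C (aeval (A.x P) (G' i l)) : MvPolynomial (Fin q) L))
        (fun l => T.sp P (cfG d f l)) e).det := by
  rw [TB.sp_eq, bm_map]
  congr 2
  funext i l
  exact TB.R2_sp_C T P (G' i l)

theorem K_exc (H : Fin m → MvPolynomial (Fin n) (MvPolynomial (Fin (N + 1)) K))
    (hH : ∀ i, ∃ a b : ℕ, BH a b (H i)) {F : Pol K N q p n} (hF : ExcX T H F) {L : Type u}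
    [Field L] [IsAlgClosed L] [Algebra K L] (P : A.Pts L) (y : Fin q × Fin p → L)
    (hP : GenB T P y) : spG P y F ∉ fib A H P := by
  intro hmem
  obtain ⟨⟨D, d, hFB⟩, hFx⟩ := hF
  obtain ⟨g, G', hG'⟩ := EF.T_rows A H hH d
  obtain ⟨D', hD'⟩ := hG'.1
  obtain ⟨hli, hiff⟩ := hG'.2.1 L P hP.1
  refine hFx L P hP.1 ?_
  have h1 := (hiff _ (spG_hom P y hFB)).1 hmem
  have h2 : ∀ e, T.sp P (bm (fun i l => (C (G' i l) :
        MvPolynomial (Fin q × Fin p) (MvPolynomial (Fin (N + 1)) K))) (cfG d F) e).det = 0 := by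
    intro e
    refine hP.2.2 _ _ (bm_WH T G' hD' hFB e) ?_
    rw [bm_ev]
    exact bm_zero h1 e
  rw [mem_map_C_iff]
  intro a
  rw [hiff _ (spX_hom T hFB P a)]
  refine bm_span hli fun e => ?_
  have h3 := congrArg (coeff a) (h2 e)
  rw [bm_sp, bm_coeff, coeff_zero] at h3
  rw [← h3]
  congr 2
  funext l
  exact spX_coeff T P F a _

theorem K_zer (H : Fin m → MvPolynomial (Fin n) (MvPolynomial (Fin (N + 1)) K))
    (hH : ∀ i, ∃ a b : ℕ, BH a b (H i)) {D d : ℕ} {g : Pol K N q p n} (hg : BG T D d g)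
    (h0 : ∀ (L : Type u) [Field L] [IsAlgClosed L] [Algebra K L] (P : A.Pts L)
      (y : Fin q × Fin p → L), GenB T P y → spG P y g ∈ fib A H P) :
    ∃ (R : MvPolynomial (Fin (N + 1)) K) (ρ : ℕ), R.IsHomogeneous ρ ∧ R ∉ A.I ∧
      ∀ (P : A.Pts K) (y : Fin q × Fin p → K), T.On P y → aeval (A.x P) R ≠ 0 →
        ∀ X : Fin n → K, (∀ i, eval X (sp A P (H i)) = 0) → eval X (spG P y g) = 0 := by
  obtain ⟨r, G', hG'⟩ := EF.T_rows A H hH d
  obtain ⟨D', hD'⟩ := hG'.1
  obtain ⟨L₀, _, _, _, P₀, y₀, h₀⟩ := genB_exists T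
  obtain ⟨hli, hiff⟩ := hG'.2.1 L₀ P₀ h₀.1
  obtain ⟨e₀, he₀⟩ := EF.R0_minor _ hli
  have hR : aeval (A.x P₀) (Matrix.of fun a b : Fin r => G' a (e₀ b)).det ≠ 0 := by
    have h1 : aeval (A.x P₀) (Matrix.of fun a b : Fin r => G' a (e₀ b)).det =
        (Matrix.of fun i j : Fin r => aeval (A.x P₀) (G' i (e₀ j))).det := by
      rw [AlgHom.map_det]
      rfl
    rw [h1]
    exact he₀
  refine ⟨(Matrix.of fun a b : Fin r => G' a (e₀ b)).det, ∑ _i : Fin r, D',
    EF.R0_det _ (fun _ => D') fun i j => hD' _ _, fun h => hR (EF.R0_pt A P₀ _ h), ?_⟩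
  intro P y hy hRP X hX
  have h1 := (hiff _ (spG_hom P₀ y₀ hg)).1 (h0 L₀ P₀ y₀ h₀)
  have h2 : ∀ e, (bm (fun i l => aeval (A.x P) (G' i l)) (cf d (spG P y g)) e).det = 0 := by
    intro e
    rw [← bm_ev]
    refine G1_ev_sp T hy (G1_sp_zero T (bm_WH T G' hD' hg e) h₀.1 ?_ P)
    refine h₀.2.2 _ _ (bm_WH T G' hD' hg e) ?_
    rw [bm_ev]
    exact bm_zero h1 e
  have h3 : ∀ i, ∑ l, aeval (A.x P) (G' i l) * ver d X l = 0 := hG'.2.2 K P X hX
  have h4 : ∑ l, ver d X l * (bm (fun i l => aeval (A.x P) (G' i l)) (cf d (spG P y g))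
      (Fin.snoc (α := fun _ => Fin (Mo n d).card) e₀ l)).det = 0 :=
    Finset.sum_eq_zero fun l _ => by rw [h2, mul_zero]
  have h5 : ∀ l, (bm (fun i l => aeval (A.x P) (G' i l)) (cf d (spG P y g))
      (Fin.snoc (α := fun _ => Fin (Mo n d).card) e₀ l)).det =
      (∑ i : Fin r, (-1) ^ (((i.castSucc : Fin (r + 1)) : ℕ) +
        ((Fin.last r : Fin (r + 1)) : ℕ)) * aeval (A.x P) (G' i l) *
        (Matrix.of fun (a b : Fin r) =>
          (Fin.snoc (α := fun _ => Fin (Mo n d).card → K) (fun i l => aeval (A.x P) (G' i l))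
            (cf d (spG P y g)) : Fin (r + 1) → Fin (Mo n d).card → K)
              (i.castSucc.succAbove a) (e₀ b)).det) +
      cf d (spG P y g) l * aeval (A.x P) (Matrix.of fun a b : Fin r => G' a (e₀ b)).det := by
    intro l
    rw [bm_col, Fin.snoc_last]
    congr 1
    · refine Finset.sum_congr rfl fun i _ => ?_
      congr 2
      ext a b
      rw [Matrix.submatrix_apply, Matrix.of_apply, Fin.succAbove_last]
      unfold bm
      rw [Matrix.of_apply, Fin.snoc_castSucc]
    · congr 1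
      rw [AlgHom.map_det]
      congr 1
      ext a b
      rw [AlgHom.mapMatrix_apply, Matrix.map_apply, Matrix.of_apply, Matrix.of_apply,
        Fin.snoc_castSucc]
  simp only [h5, mul_add, Finset.mul_sum, Finset.sum_add_distrib] at h4
  rw [Finset.sum_comm] at h4
  have h6 : ∀ i : Fin r, ∑ l, ver d X l * ((-1) ^ (((i.castSucc : Fin (r + 1)) : ℕ) +
        ((Fin.last r : Fin (r + 1)) : ℕ)) * aeval (A.x P) (G' i l) *
        (Matrix.of fun (a b : Fin r) =>
          (Fin.snoc (α := fun _ => Fin (Mo n d).card → K) (fun i l => aeval (A.x P) (G' i l))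
            (cf d (spG P y g)) : Fin (r + 1) → Fin (Mo n d).card → K)
              (i.castSucc.succAbove a) (e₀ b)).det) = 0 := by
    intro i
    have h7 : ∀ l, ver d X l * ((-1) ^ (((i.castSucc : Fin (r + 1)) : ℕ) +
        ((Fin.last r : Fin (r + 1)) : ℕ)) * aeval (A.x P) (G' i l) *
        (Matrix.of fun (a b : Fin r) =>
          (Fin.snoc (α := fun _ => Fin (Mo n d).card → K) (fun i l => aeval (A.x P) (G' i l))
            (cf d (spG P y g)) : Fin (r + 1) → Fin (Mo n d).card → K)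
              (i.castSucc.succAbove a) (e₀ b)).det) =
        ((-1) ^ (((i.castSucc : Fin (r + 1)) : ℕ) + ((Fin.last r : Fin (r + 1)) : ℕ)) *
        (Matrix.of fun (a b : Fin r) =>
          (Fin.snoc (α := fun _ => Fin (Mo n d).card → K) (fun i l => aeval (A.x P) (G' i l))
            (cf d (spG P y g)) : Fin (r + 1) → Fin (Mo n d).card → K)
              (i.castSucc.succAbove a) (e₀ b)).det) * (aeval (A.x P) (G' i l) * ver d X l) := by
      intro l
      ring
    rw [Finset.sum_congr rfl fun l _ => h7 l, ← Finset.mul_sum, h3, mul_zero]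
  rw [Finset.sum_congr rfl fun i _ => h6 i, Finset.sum_const_zero, zero_add] at h4
  have h8 : ∑ l, ver d X l * (cf d (spG P y g) l *
      aeval (A.x P) (Matrix.of fun a b : Fin r => G' a (e₀ b)).det) =
      (∑ l, cf d (spG P y g) l * ver d X l) *
      aeval (A.x P) (Matrix.of fun a b : Fin r => G' a (e₀ b)).det := by
    rw [Finset.sum_mul]
    refine Finset.sum_congr rfl fun l _ => ?_
    ring
  rw [h8] at h4
  have h9 := (mul_eq_zero.1 h4).resolve_right hRP
  rw [← h9]
  exact EF.eval_cf (spG_hom P y hg) X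

end

end Pool.Agent.Lib.MP_17a322_nt.EG
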