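import Pool.Agent.Lib.MP_17a322_nt.EG.K1
import Pool.Agent.Lib.MP_17a322_nt.EG.K2
import Pool.Agent.Lib.MP_17a322_nt.EG.B1
import Pool.Agent.Lib.MP_17a322_nt.VA.Z7

/-!
The reduction: the equations without the parts that vanish on the generic fibre.
-/

universe u

namespace Pool.Agent.Lib.MP_17a322_nt.EG

open MvPolynomial Height
open Pool.Agent.Lib.MP_17a322_nt.VA
open Pool.Agent.Lib.MP_17a322_nt.SL
open Pool.Agent.Lib.MP_17a322_nt.EF (BH fib sp)
open Pool.Agent.Lib.MP_17a322_nt.TB (Tor ev supp wt partWt maxWt)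
open Pool.Agent.Lib.MP_17a322_nt.SV3 (Bun md)

section

variable {K : Type u} [Field K] {N q p p' n m s w : ℕ} {A : AV K N}

section

variable (B : Bun A q p p') (H : Fin m → MvPolynomial (Fin n) (MvPolynomial (Fin (N + 1)) K))

/-- The equations without the parts that vanish on the generic fibre. -/
noncomputable def redH (f : Fin w → Pol K N q p n) (l : Fin w) : Pol K N q p n :=
  open Classical in
  ∑ μ ∈ (f l).support.filter fun μ => md μ ∈ NewH B H f, monomial μ (coeff μ (f l))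

theorem K3_coeff_sum (f : Pol K N q p n) (Q : (Fin q × Fin p →₀ ℕ) → Prop) [DecidablePred Q]
    (ν : Fin q × Fin p →₀ ℕ) :
    coeff ν (∑ μ ∈ f.support.filter Q, monomial μ (coeff μ f) : Pol K N q p n) =
      if Q ν then coeff ν f else 0 := by
  classical
  rw [coeff_sum]
  simp only [coeff_monomial]
  rw [Finset.sum_ite_eq' (f.support.filter Q) ν]
  simp only [Finset.mem_filter, mem_support_iff]
  by_cases h1 : Q ν
  · by_cases h2 : coeff ν f = 0
    · rw [if_neg (fun h => h.1 h2), if_pos h1, h2]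
    · rw [if_pos ⟨h2, h1⟩, if_pos h1]
  · rw [if_neg (fun h => h1 h.2), if_neg h1]

theorem K3_coeff_pt (a : Fin q → ℕ) (f : Pol K N q p n) (ν : Fin q × Fin p →₀ ℕ) :
    coeff ν (ptG a f) = open Classical in if md ν = a then coeff ν f else 0 := by
  classical
  unfold ptG
  exact @K3_coeff_sum _ _ _ _ _ _ f (fun μ => md μ = a) _ ν

theorem K3_coeff_red (f : Fin w → Pol K N q p n) (l : Fin w) (ν : Fin q × Fin p →₀ ℕ) :
    coeff ν (redH B H f l) = open Classical in if md ν ∈ NewH B H f then coeff ν (f l) else 0 := by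
  classical
  unfold redH
  exact @K3_coeff_sum _ _ _ _ _ _ (f l) (fun μ => md μ ∈ NewH B H f) _ ν

theorem redH_BB {D d : ℕ} {f : Fin w → Pol K N q p n} (hf : ∀ l, BB B D d (f l)) (l : Fin w) :
    BB B D d (redH B H f l) := by
  classical
  intro μ hμ
  rw [K3_coeff_red] at hμ ⊢
  split_ifs at hμ ⊢ with h
  · exact hf l μ hμ
  · exact absurd rfl hμ

theorem K3_BB_pt {D d : ℕ} {f : Pol K N q p n} (hf : BB B D d f) (a : Fin q → ℕ) :
    BB B D d (ptG a f) := by
  classical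
  intro μ hμ
  rw [K3_coeff_pt] at hμ ⊢
  split_ifs at hμ ⊢ with h
  · exact hf μ hμ
  · exact absurd rfl hμ

theorem K3_wt (τ : Fin q → ℝ) (μ : Fin q × Fin p →₀ ℕ) :
    wt τ μ = ∑ i, (md μ i : ℝ) * τ i := by
  unfold wt md
  rw [Fintype.sum_prod_type]
  refine Finset.sum_congr rfl fun i _ => ?_
  rw [Nat.cast_sum, Finset.sum_mul]

theorem K3_zer_zero : Zer B H (0 : Pol K N q p n) := by
  intro L _ _ _ P y _
  have : spG P y (0 : Pol K N q p n) = 0 := map_zero (spH P y)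
  rw [this]
  exact Ideal.zero_mem _

theorem redH_maxWt (f : Fin w → Pol K N q p n) (τ : Fin q → ℝ) :
    maxWt τ (redH B H f) = supH B H f τ := by
  classical
  have hs : ∀ μ, μ ∈ supp (redH B H f) ↔ md μ ∈ NewH B H f ∧ ∃ l, coeff μ (f l) ≠ 0 := by
    intro μ
    rw [mem_supp]
    simp only [mem_support_iff, K3_coeff_red]
    constructor
    · rintro ⟨l, hl⟩
      by_cases h : md μ ∈ NewH B H f
      · rw [if_pos h] at hl
        exact ⟨h, l, hl⟩
      · rw [if_neg h] at hl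
        exact absurd rfl hl
    · rintro ⟨h, l, hl⟩
      exact ⟨l, by rwa [if_pos h]⟩
  let F : supp (redH B H f) → NewH B H f := fun μ => ⟨md μ.1, ((hs μ.1).mp μ.2).1⟩
  have hF : Function.Surjective F := by
    rintro ⟨a, ha⟩
    obtain ⟨l, hl⟩ := ha
    have h0 : ptG a (f l) ≠ 0 := fun h => hl (h ▸ K3_zer_zero B H)
    obtain ⟨μ, hμ⟩ := MvPolynomial.ne_zero_iff.mp h0
    rw [K3_coeff_pt] at hμ
    by_cases h : md μ = a
    · rw [if_pos h] at hμ
      exact ⟨⟨μ, (hs μ).mpr ⟨h ▸ ⟨l, h ▸ hl⟩, l, hμ⟩⟩, Subtype.ext h⟩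
    · rw [if_neg h] at hμ
      exact absurd rfl hμ
  unfold maxWt supH
  rw [← hF.iSup_comp]
  refine iSup_congr fun μ => ?_
  exact K3_wt τ μ.1

/-- the parts outside `NewH` -/
theorem K3_out {f : Fin w → Pol K N q p n} (l : Fin w)
    (Q : (Fin q × Fin p →₀ ℕ) → Prop) [DecidablePred Q] (hQ : ∀ μ μ', md μ = md μ' → Q μ → Q μ') :
    (∑ μ ∈ (f l).support.filter Q, monomial μ (coeff μ (f l)) : Pol K N q p n) =
      ∑ a ∈ ((f l).support.filter Q).image md, ptG a (f l) := by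
  classical
  rw [← Finset.sum_fiberwise_of_maps_to
    (g := md) (t := ((f l).support.filter Q).image md) fun x hx => Finset.mem_image_of_mem _ hx]
  refine Finset.sum_congr rfl fun a ha => ?_
  obtain ⟨μ, hμ, rfl⟩ := Finset.mem_image.mp ha
  unfold ptG
  refine Finset.sum_congr ?_ fun _ _ => rfl
  ext ν
  simp only [Finset.mem_filter] at hμ ⊢
  constructor
  · rintro ⟨⟨h1, -⟩, h2⟩
    exact ⟨h1, h2⟩
  · rintro ⟨h1, h2⟩
    exact ⟨⟨h1, hQ μ ν h2.symm hμ.2⟩, h2⟩

/-- The leading parts differ by parts that vanish on the generic fibre. -/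
theorem redH_codim {t : ℕ} {D d : Fin s → ℕ} {f : Fin s → Fin w → Pol K N q p n}
    (hf : ∀ j l, BB B (D j) (d j) (f j l)) (τ : Fin q → ℝ) (U : Finset (Fin s)) {i : ℕ}
    (h : CodimP B H t (cutP B H f τ U) i) :
    CodimP B H t (cutB (fun j => redH B H (f j)) τ U) i := by
  classical
  intro L _ _ _ P y hg 𝔭 h𝔭 hle hG
  refine h L P y hg 𝔭 h𝔭 hle ?_
  rintro g ⟨j, hj, l, rfl⟩
  have h1 := hG (partWt τ (maxWt τ (redH B H (f j))) (redH B H (f j) l)) ⟨j, hj, l, rfl⟩
  rw [redH_maxWt] at h1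
  set c := supH B H (f j) τ with hc
  have h2 : partWt τ c (f j l) = partWt τ c (redH B H (f j) l) +
      ∑ μ ∈ (f j l).support.filter (fun μ => md μ ∉ NewH B H (f j) ∧
        ∑ i, (md μ i : ℝ) * τ i = c), monomial μ (coeff μ (f j l)) := by
    ext1 ν
    rw [coeff_add, K3_coeff_sum, coeff_partWt, coeff_partWt, K3_coeff_red, K3_wt]
    by_cases h3 : ∑ i, (md ν i : ℝ) * τ i = c
    · by_cases h4 : md ν ∈ NewH B H (f j)
      · simp [h3, h4]
      · simp [h3, h4]
    · simp [h3]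
  rw [h2, spG_add]
  refine 𝔭.add_mem h1 ?_
  rw [K3_out l _ (by
    intro μ μ' h3 h4
    rw [← h3]
    exact h4), spG_sum]
  refine Ideal.sum_mem _ fun a ha => hle ?_
  obtain ⟨μ, hμ, rfl⟩ := Finset.mem_image.mp ha
  have h5 := (Finset.mem_filter.mp hμ).2.1
  have h6 : Zer B H (ptG (md μ) (f j l)) := by
    by_contra h7
    exact h5 ⟨l, h7⟩
  exact h6 L P y hg

/-- The values agree outside a vertical divisor. -/
theorem redH_val (hH : ∀ i, ∃ a b : ℕ, BH a b (H i)) {ch : Fin q → Fin p'} (h : B.Ch ch)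
    {D d : ℕ} {f : Fin w → Pol K N q p n} (hf : ∀ l, BB B D d (f l)) :
    ∃ (R : MvPolynomial (Fin (N + 1)) K) (ρ : ℕ), R.IsHomogeneous ρ ∧ R ∉ A.I ∧
      ∀ (P : A.Pts K) (y : Fin q × Fin p → K), (B.tor ch h).On P y → aeval (A.x P) R ≠ 0 →
        ∀ X : Fin n → K, (∀ i, eval X (sp A P (H i)) = 0) → ∀ l,
          eval X (spG P y (redH B H f l)) = eval X (spG P y (f l)) := by
  classical
  have key : ∀ (l : Fin w) (a : Fin q → ℕ), a ∉ NewH B H f →
      ∃ (R : MvPolynomial (Fin (N + 1)) K) (ρ : ℕ), R.IsHomogeneous ρ ∧ R ∉ A.I ∧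
      ∀ (P : A.Pts K) (y : Fin q × Fin p → K), (B.tor ch h).On P y → aeval (A.x P) R ≠ 0 →
        ∀ X : Fin n → K, (∀ i, eval X (sp A P (H i)) = 0) →
          eval X (spG P y (ptG a (f l))) = 0 := by
    intro l a ha
    have h1 : Zer B H (ptG a (f l)) := by
      by_contra h2
      exact ha ⟨l, h2⟩
    refine K_zer (B.tor ch h) H hH (D := D) (d := d) (K3_BB_pt B (hf l) a) ?_
    intro L _ _ _ P y hg
    exact h1 L P y ((K_gen B h P y).mpr hg)
  have key' : ∀ z : Fin w × (Fin q → ℕ),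
      ∃ (R : MvPolynomial (Fin (N + 1)) K) (ρ : ℕ), R.IsHomogeneous ρ ∧ R ∉ A.I ∧
      (z.2 ∉ NewH B H f → ∀ (P : A.Pts K) (y : Fin q × Fin p → K), (B.tor ch h).On P y →
        aeval (A.x P) R ≠ 0 →
        ∀ X : Fin n → K, (∀ i, eval X (sp A P (H i)) = 0) →
          eval X (spG P y (ptG z.2 (f z.1))) = 0) := by
    intro z
    by_cases hz : z.2 ∈ NewH B H f
    · refine ⟨1, 0, isHomogeneous_one _ _, fun h1 => ?_, fun h1 => absurd hz h1⟩
      exact (Z_prime A).ne_top ((Ideal.eq_top_iff_one _).mpr h1)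
    · obtain ⟨R, ρ, h1, h2, h3⟩ := key z.1 z.2 hz
      exact ⟨R, ρ, h1, h2, fun _ => h3⟩
  choose R ρ h1 h2 h3 using key'
  let Ω : Finset (Fin w × (Fin q → ℕ)) :=
    Finset.univ ×ˢ (Finset.univ.biUnion fun l => (f l).support.image md)
  refine ⟨∏ z ∈ Ω, R z, ∑ z ∈ Ω, ρ z, IsHomogeneous.prod _ _ _ fun z _ => h1 z, ?_, ?_⟩
  · intro h4
    obtain ⟨z, -, hz⟩ := ((Z_prime A).prod_mem_iff).mp h4
    exact h2 z hz
  · intro P y hy hR X hX l
    rw [map_prod] at hR
    have h5 : f l = redH B H f l + ∑ μ ∈ (f l).support.filter (fun μ => md μ ∉ NewH B H f),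
        monomial μ (coeff μ (f l)) := by
      ext1 ν
      rw [coeff_add, K3_coeff_sum, K3_coeff_red]
      by_cases h4 : md ν ∈ NewH B H f
      · simp [h4]
      · simp [h4]
    have h6 := congrArg (fun g => eval X (spG P y g)) h5
    simp only [spG_add, map_add] at h6
    rw [h6]
    refine (add_eq_left.mpr ?_).symm
    rw [K3_out l _ (by
      intro μ μ' h3 h4
      rw [← h3]
      exact h4), spG_sum, map_sum]
    refine Finset.sum_eq_zero fun a ha => ?_
    obtain ⟨μ, hμ, rfl⟩ := Finset.mem_image.mp ha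
    have h6 := Finset.mem_filter.mp hμ
    have h7 : (l, md μ) ∈ Ω := Finset.mem_product.mpr ⟨Finset.mem_univ _,
      Finset.mem_biUnion.mpr ⟨l, Finset.mem_univ _, Finset.mem_image_of_mem _ h6.1⟩⟩
    exact h3 (l, md μ) h6.2 P y hy (Finset.prod_ne_zero_iff.mp hR _ h7) X hX

end

end

end Pool.Agent.Lib.MP_17a322_nt.EG
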