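import Pool.Agent.Lib.MP_17a322_nt.EG.B1
import Pool.Agent.Lib.MP_17a322_nt.EG.B2
import Pool.Agent.Lib.MP_17a322_nt.TB.R1
import Pool.Agent.Lib.MP_17a322_nt.EF.W1

/-!
Closed subschemes over torus bundles: local heights.
-/

universe u

namespace Pool.Agent.Lib.MP_17a322_nt.EG

open MvPolynomial Height
open Pool.Agent.Lib.MP_17a322_nt.VA
open Pool.Agent.Lib.MP_17a322_nt.SL
open Pool.Agent.Lib.MP_17a322_nt.EF (BH fib sp Mo mo ver cf IsRows fam fm ver_sup ver_ne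
  W_fam W_BH_prod W_BH_pow W_BH_X W_BH_C W_BH_mul W_log_prod W_log_pow_le W_le_sup)
open Pool.Agent.Lib.MP_17a322_nt.TB (Tor ev supp wt maxWt partWt)

section

variable {K : Type u} [Field K] {N q p n m s w : ℕ} {A : AV K N} (T : Tor A q p)

theorem lam_ver (v : AbsoluteValue K ℝ) {D k : ℕ} {Q : Pol K N q p n} (hQ : BG T D k Q)
    (P : A.Pts K) (y : Fin q × Fin p → K) {X : Fin n → K} (hX : X ≠ 0) :
    T.lam v D (cfG k Q) P y (ver k X) = lam1 T v D k Q P y X := by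
  unfold Tor.lam lam1
  rw [sum_cfG P y hQ X, maxWt_cfG hQ, ver_sup v hX, Real.log_pow]

theorem lam1_ge (v : AbsoluteValue K ℝ) {D d : ℕ} {Q : Pol K N q p n} (hQ : BG T D d Q) :
    ∃ C : ℝ, 0 ≤ C ∧ ∀ (P : A.Pts K) (y : Fin q × Fin p → K), T.On P y → ∀ X : Fin n → K,
      X ≠ 0 → eval X (spG P y Q) ≠ 0 → - C ≤ lam1 T v D d Q P y X := by
  obtain ⟨C, hC⟩ := TB.R_ge T v (cfG d Q) (fun l => cfG_WH hQ l)
  refine ⟨max C 0, le_max_right _ _, fun P y hy X hX h0 => ?_⟩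
  have h1 := hC P y hy (ver d X) (by rw [sum_cfG P y hQ X]; exact h0)
  rw [lam_ver T v hQ P y hX] at h1
  have h2 := le_max_left C 0
  linarith

variable {T}

theorem LamG_coef_BH (a : Fin (N + 1)) (e : ℕ) (ν : Fin n → ℕ) :
    BH e (∑ l, ν l) (C (X a ^ e) * ∏ l, X l ^ ν l :
      MvPolynomial (Fin n) (MvPolynomial (Fin (N + 1)) K)) := by
  have h1 : BH e 0 (C (X a ^ e) : MvPolynomial (Fin n) (MvPolynomial (Fin (N + 1)) K)) := by
    have h2 := (isHomogeneous_X K a).pow e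
    rw [one_mul] at h2
    exact W_BH_C h2
  have h3 : BH (∑ l : Fin n, 0) (∑ l, ν l)
      (∏ l, (X l : MvPolynomial (Fin n) (MvPolynomial (Fin (N + 1)) K)) ^ ν l) := by
    refine W_BH_prod Finset.univ (fun _ => 0) ν _ fun l _ => ?_
    have h4 := W_BH_pow (W_BH_X (K := K) (N := N) l) (ν l)
    rwa [mul_zero, mul_one] at h4
  have h5 := W_BH_mul h1 h3
  rwa [Finset.sum_const_zero, add_zero, zero_add] at h5

theorem LamG_BG {a : Fin (N + 1)} {D d k t : ℕ} (hd : 0 < d) {Q : Fin t → Pol K N q p n}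
    (hQ : ∀ j, BG T D d (Q j)) {M : Finset (Fin n → ℕ)} {z : (Fin n → ℕ) × (Fin t → ℕ)}
    (hz : z ∈ fam M t d k) : BG T (D * k) k (LamG a D k Q z) := by
  have hk := W_fam hz
  have he : ∑ j, z.2 j ≤ k := by
    calc ∑ j, z.2 j ≤ d * ∑ j, z.2 j := Nat.le_mul_of_pos_left _ hd
      _ ≤ k := by omega
  have h1 : BG T (D * (k - ∑ j, z.2 j)) (∑ l, z.1 l)
      (C (C (X a ^ (D * (k - ∑ j, z.2 j))) * ∏ l, X l ^ z.1 l) : Pol K N q p n) :=
    BG_C T (LamG_coef_BH a _ z.1)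
  have h2 := BG_prod (T := T) Finset.univ (fun j => z.2 j * D) (fun j => z.2 j * d)
    (fun j => Q j ^ z.2 j) fun j _ => BG_pow (hQ j) (z.2 j)
  have h3 := BG_mul h1 h2
  rw [← Finset.sum_mul, ← Finset.sum_mul] at h3
  have h4 : D * (k - ∑ j, z.2 j) + (∑ j, z.2 j) * D = D * k := by
    rw [mul_comm (∑ j, z.2 j) D, ← mul_add, Nat.sub_add_cancel he]
  have h5 : ∑ l, z.1 l + (∑ j, z.2 j) * d = k := by
    rw [mul_comm (∑ j, z.2 j) d]
    exact hk
  rw [h4, h5] at h3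
  exact h3

theorem LamG_sp {L : Type u} [Field L] [Algebra K L] (P : A.Pts L) (y : Fin q × Fin p → L)
    (a : Fin (N + 1)) (D k : ℕ) {t : ℕ} (Q : Fin t → Pol K N q p n)
    (z : (Fin n → ℕ) × (Fin t → ℕ)) :
    spG P y (LamG a D k Q z) =
      C (A.x P a ^ (D * (k - ∑ j, z.2 j))) * fm (fun j => spG P y (Q j)) z := by
  unfold LamG fm
  rw [spG_mul, spG_C, spG_prod]
  simp only [spG_pow]
  unfold EF.sp
  rw [map_mul, map_C, map_prod]
  simp only [map_pow, map_X]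
  rw [mul_assoc]
  refine congrArg₂ _ ?_ rfl
  have h1 : (aeval (A.x P)).toRingHom (X a : MvPolynomial (Fin (N + 1)) K) = A.x P a := by
    rw [AlgHom.toRingHom_eq_coe, RingHom.coe_coe, aeval_X]
  rw [h1]

theorem LamG_ld (τ : Fin q → ℝ) (a : Fin (N + 1)) (D k : ℕ) {t : ℕ} (Q : Fin t → Pol K N q p n)
    (z : (Fin n → ℕ) × (Fin t → ℕ)) :
    ld τ (LamG a D k Q z) = LamG a D k (fun j => ld τ (Q j)) z := by
  unfold LamG
  rw [ld_mul, ld_C, ld_prod]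
  simp only [ld_pow]

theorem LamG_coef_ne (a : Fin (N + 1)) (e : ℕ) (ν : Fin n → ℕ) :
    (C (X a ^ e) * ∏ l, X l ^ ν l :
      MvPolynomial (Fin n) (MvPolynomial (Fin (N + 1)) K)) ≠ 0 := by
  refine mul_ne_zero ?_ (Finset.prod_ne_zero_iff.2 fun l _ => pow_ne_zero _ (X_ne_zero l))
  rw [Ne, C_eq_zero]
  exact pow_ne_zero _ (X_ne_zero a)

theorem LamG_mx (τ : Fin q → ℝ) (a : Fin (N + 1)) (D k : ℕ) {t : ℕ} (Q : Fin t → Pol K N q p n)
    (hQ : ∀ j, Q j ≠ 0) (z : (Fin n → ℕ) × (Fin t → ℕ)) :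
    mx τ (LamG a D k Q z) = ∑ j, (z.2 j : ℝ) * mx τ (Q j) := by
  unfold LamG
  have h1 : (C (C (X a ^ (D * (k - ∑ j, z.2 j))) * ∏ l, X l ^ z.1 l) : Pol K N q p n) ≠ 0 := by
    rw [Ne, C_eq_zero]
    exact LamG_coef_ne a _ z.1
  have h2 : ∏ j, Q j ^ z.2 j ≠ 0 := Finset.prod_ne_zero_iff.2 fun j _ => pow_ne_zero _ (hQ j)
  rw [mx_mul τ h1 h2, mx_C, zero_add, mx_prod τ _ _ fun j _ => pow_ne_zero _ (hQ j)]
  exact Finset.sum_congr rfl fun j _ => mx_pow τ (hQ j) _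

theorem LamG_ge {a : Fin (N + 1)} {D d k t : ℕ} (hd : 0 < d) {Q : Fin t → Pol K N q p n}
    (_hQ : ∀ j, BG T D d (Q j)) (hQ0 : ∀ j, Q j ≠ 0) {M : Finset (Fin n → ℕ)}
    {z : (Fin n → ℕ) × (Fin t → ℕ)} (hz : z ∈ fam M t d k) (v : AbsoluteValue K ℝ) (P : A.Pts K)
    (y : Fin q × Fin p → K) {X : Fin n → K} (_hX : X ≠ 0)
    (h0 : eval X (spG P y (LamG a D k Q z)) ≠ 0) :
    (∀ j, 0 < z.2 j → eval X (spG P y (Q j)) ≠ 0) ∧
      ∑ j, (z.2 j : ℝ) * lam1 T v D d (Q j) P y X ≤ lam1 T v (D * k) k (LamG a D k Q z) P y X := by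
  have hE : eval X (spG P y (LamG a D k Q z)) =
      A.x P a ^ (D * (k - ∑ j, z.2 j)) *
        ((∏ l, X l ^ z.1 l) * ∏ j, eval X (spG P y (Q j)) ^ z.2 j) := by
    rw [LamG_sp, fm, map_mul, map_mul, map_prod, map_prod, eval_C]
    simp only [map_pow, eval_X]
  have hk := W_fam hz
  have he : ∑ j, z.2 j ≤ k := by
    calc ∑ j, z.2 j ≤ d * ∑ j, z.2 j := Nat.le_mul_of_pos_left _ hd
      _ ≤ k := by omega
  rw [hE] at h0
  have ha := left_ne_zero_of_mul h0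
  have hb := left_ne_zero_of_mul (right_ne_zero_of_mul h0)
  have hc := right_ne_zero_of_mul (right_ne_zero_of_mul h0)
  refine ⟨fun j hj h => ?_, ?_⟩
  · refine Finset.prod_ne_zero_iff.mp hc j (Finset.mem_univ j) ?_
    rw [h, zero_pow hj.ne']
  · have l1 : Real.log (v (eval X (spG P y (LamG a D k Q z)))) =
        ((D * (k - ∑ j, z.2 j) : ℕ) : ℝ) * Real.log (v (A.x P a)) +
          (∑ l, (z.1 l : ℝ) * Real.log (v (X l)) +
            ∑ j, (z.2 j : ℝ) * Real.log (v (eval X (spG P y (Q j))))) := by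
      rw [hE, map_mul, map_mul, Real.log_mul (v.pos ha).ne' (mul_pos (v.pos hb) (v.pos hc)).ne',
        Real.log_mul (v.pos hb).ne' (v.pos hc).ne', W_log_prod v X z.1 hb,
        W_log_prod v (fun j => eval X (spG P y (Q j))) z.2 hc, map_pow, Real.log_pow]
    have l2 : ∑ l, (z.1 l : ℝ) * Real.log (v (X l)) ≤
        (∑ l, (z.1 l : ℝ)) * Real.log (⨆ l, v (X l)) := by
      rw [Finset.sum_mul]
      exact Finset.sum_le_sum fun l _ => W_log_pow_le v X l (z.1 l)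
        (Finset.prod_ne_zero_iff.mp hb l (Finset.mem_univ l))
    have l3 := W_log_pow_le v (A.x P) a _ ha
    have l4 : ((D * (k - ∑ j, z.2 j) : ℕ) : ℝ) = D * k - D * ∑ j, (z.2 j : ℝ) := by
      push_cast [Nat.cast_sub he]
      ring
    have l5 : (k : ℝ) = ∑ l, (z.1 l : ℝ) + d * ∑ j, (z.2 j : ℝ) := by
      rw [← hk]
      push_cast
      rfl
    have l6 : ∑ j, (z.2 j : ℝ) * lam1 T v D d (Q j) P y X =
        (∑ j, (z.2 j : ℝ)) * (d * Real.log (⨆ l, v (X l)) + D * Real.log (⨆ i, v (A.x P i))) +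
          ∑ j, (z.2 j : ℝ) * mx (T.tau v P y) (Q j) -
          ∑ j, (z.2 j : ℝ) * Real.log (v (eval X (spG P y (Q j)))) := by
      rw [Finset.sum_mul, ← Finset.sum_add_distrib, ← Finset.sum_sub_distrib]
      exact Finset.sum_congr rfl fun j _ => by rw [lam1]; ring
    rw [l4] at l3
    rw [l6, lam1, LamG_mx _ a D k Q hQ0 z, l1, l4]
    push_cast
    generalize Real.log (⨆ l, v (X l)) = Lx at *
    generalize Real.log (⨆ i, v (A.x P i)) = Lp at *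
    generalize ∑ l, (z.1 l : ℝ) * Real.log (v (X l)) = a1 at *
    generalize ∑ j, (z.2 j : ℝ) * Real.log (v (eval X (spG P y (Q j)))) = a2 at *
    generalize ∑ l, (z.1 l : ℝ) = n1 at *
    generalize ∑ j, (z.2 j : ℝ) = s at *
    have l7 : (k : ℝ) * Lx = n1 * Lx + d * s * Lx := by rw [l5]; ring
    linarith [l2, l3, l7]

end

end Pool.Agent.Lib.MP_17a322_nt.EG
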