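import Pool.Agent.Lib.MP_17a322_nt.EG.R1

/-!
Patterns: finitely many directions represent all leading parts.
-/

universe u

namespace Pool.Agent.Lib.MP_17a322_nt.EG

open MvPolynomial Height
open Pool.Agent.Lib.MP_17a322_nt.VA
open Pool.Agent.Lib.MP_17a322_nt.SL
open Pool.Agent.Lib.MP_17a322_nt.EF (BH fib sp Mo mo ver cf)
open Pool.Agent.Lib.MP_17a322_nt.TB (Tor ev supp wt maxWt partWt)

section

variable {q p s w : ℕ}

/-- Finitely many directions represent all patterns. -/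
theorem pat_reps {R : Type*} [CommRing R] (f : Fin s → Fin w → MvPolynomial (Fin q × Fin p) R) :
    ∃ (e : ℕ) (τs : Fin e → Fin q → ℝ), ∀ τ, ∃ κ, ∀ j, pat f τ j = pat f (τs κ) j := by
  classical
  have hfin : (Set.range fun (τ : Fin q → ℝ) (j : Fin s) => pat f τ j).Finite := by
    refine (Set.Finite.pi' fun j : Fin s =>
      ((supp (f j)).powerset : Finset (Finset (Fin q × Fin p →₀ ℕ))).finite_toSet).subset ?_
    rintro _ ⟨τ, rfl⟩ j
    rw [Finset.mem_coe, Finset.mem_powerset]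
    unfold pat
    exact Finset.filter_subset _ _
  set S := Set.range fun (τ : Fin q → ℝ) (j : Fin s) => pat f τ j with hS
  have : Fintype S := hfin.fintype
  set eqv := Fintype.equivFin S with heqv
  have h1 : ∀ z : S, ∃ τ, (fun j => pat f τ j) = z.1 := fun z => z.2
  choose rep hrep using h1
  refine ⟨Fintype.card S, fun κ => rep (eqv.symm κ), fun τ => ?_⟩
  have hmem : (fun j => pat f τ j) ∈ S := ⟨τ, rfl⟩
  obtain ⟨z, hz⟩ : ∃ z : S, z.1 = fun j => pat f τ j := ⟨⟨_, hmem⟩, rfl⟩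
  refine ⟨eqv z, fun j => ?_⟩
  have h2 := hrep (eqv.symm (eqv z))
  have h3 : eqv.symm (eqv z) = z := Equiv.symm_apply_apply _ _
  have h4 : (fun j => pat f (rep (eqv.symm (eqv z))) j) = fun j => pat f τ j := by
    rw [h2, h3, hz]
  exact (congrFun h4 j).symm

theorem pat_lead {R : Type*} [CommRing R] {f : Fin s → Fin w → MvPolynomial (Fin q × Fin p) R}
    {τ τ' : Fin q → ℝ} {j : Fin s} (h : pat f τ j = pat f τ' j) (l : Fin w) :
    partWt τ (maxWt τ (f j)) (f j l) = partWt τ' (maxWt τ' (f j)) (f j l) := by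
  classical
  refine MvPolynomial.ext _ _ fun a => ?_
  rw [coeff_partWt, coeff_partWt]
  by_cases h0 : coeff a (f j l) = 0
  · rw [h0]
    split_ifs <;> rfl
  · have h1 : a ∈ supp (f j) := by
      simp only [supp, Finset.mem_biUnion, Finset.mem_univ, true_and, mem_support_iff]
      exact ⟨l, h0⟩
    have h2 : wt τ a = maxWt τ (f j) ↔ wt τ' a = maxWt τ' (f j) := by
      have h3 : a ∈ pat f τ j ↔ a ∈ pat f τ' j := by rw [h]
      simp only [pat, Finset.mem_filter, h1, true_and] at h3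
      exact h3
    simp only [h2]

theorem cutB_eq {K : Type u} [Field K] {N n : ℕ} {f : Fin s → Fin w → Pol K N q p n}
    {τ τ' : Fin q → ℝ} (h : ∀ j, pat f τ j = pat f τ' j) (U : Finset (Fin s)) :
    cutB f τ U = cutB f τ' U := by
  ext g
  constructor
  · rintro ⟨j, hj, l, rfl⟩
    exact ⟨j, hj, l, pat_lead (h j) l⟩
  · rintro ⟨j, hj, l, rfl⟩
    exact ⟨j, hj, l, (pat_lead (h j) l).symm⟩

end

section

variable {K : Type u} [Field K] {N q p n m s w : ℕ} {A : AV K N} (T : Tor A q p)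

/-- All patterns: one list of resultants. -/
theorem R_lowG {t D d : ℕ} (ht : 0 < t) (hd : 0 < d)
    (H : Fin m → MvPolynomial (Fin n) (MvPolynomial (Fin (N + 1)) K))
    (hH : ∀ i, ∃ a b : ℕ, BH a b (H i)) (f : Fin s → Fin w → Pol K N q p n)
    (hf : ∀ j l, BG T D d (f j l)) {L : Type u} [Field L] [IsAlgClosed L] [Algebra K L]
    (P₀ : A.Pts L) (y₀ : Fin q × Fin p → L) (h₀ : GenB T P₀ y₀) (hpr : (fib A H P₀).IsPrime)
    (htr : Algebra.trdeg L (MvPolynomial (Fin n) L ⧸ fib A H P₀) = t) :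
    ∃ (e : ℕ) (R : Fin e → MvPolynomial (Fin q × Fin p) (MvPolynomial (Fin (N + 1)) K))
      (ρ : Fin e → ℕ), (∀ c, T.WH (ρ c) (R c)) ∧ (∀ c, T.NZ (R c)) ∧
      ∀ (v : AbsoluteValue K ℝ), ∃ C : ℝ, 0 ≤ C ∧ ∀ (P : A.Pts K) (y : Fin q × Fin p → K),
        T.On P y → ∀ X : Fin n → K, X ≠ 0 → (∀ i, eval X (sp A P (H i)) = 0) →
        (∀ c, ev P y (R c) ≠ 0) →
        ∀ U, CodA (fib A H P₀) t (spG P₀ y₀ '' cutB f (T.tau v P y) U) t →
          ∃ c, ∃ j ∈ U, lamB T v D d (f j) P y X ≤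
            T.lam v (ρ c) (fun _ : Fin 1 => R c) P y (fun _ => 1) + C := by
  classical
  obtain ⟨e₁, τs, hτs⟩ := pat_reps f
  set Idx := {z : Fin e₁ × Finset (Fin s) //
    CodA (fib A H P₀) t (spG P₀ y₀ '' cutB f (τs z.1) z.2) t} with hIdx
  have : Fintype Idx := Fintype.ofFinite _
  have h1 := fun z : Idx => R_oneG T ht hd H hH f hf P₀ y₀ h₀ hpr htr (τs z.1.1) z.1.2 z.2
  choose R ρ hR hNZ hloc using h1
  choose C hC0 hC using hloc
  set eqv := Fintype.equivFin Idx with heqv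
  refine ⟨Fintype.card Idx, fun b => R (eqv.symm b), fun b => ρ (eqv.symm b), fun b => hR _,
    fun b => hNZ _, fun v => ⟨∑ z, C z v, Finset.sum_nonneg fun z _ => hC0 z v, ?_⟩⟩
  intro P y hy X hX hHX hne U hU
  obtain ⟨κ, hκ⟩ := hτs (T.tau v P y)
  rw [cutB_eq hκ] at hU
  set z : Idx := ⟨(κ, U), hU⟩ with hz
  have h2 : ev P y (R z) ≠ 0 := by
    have h3 := hne (eqv z)
    simp only [Equiv.symm_apply_apply] at h3
    exact h3
  obtain ⟨j, hj, -, h3⟩ := hC z v P y hy (fun j _ l => pat_lead (hκ j) l) X hX hHX h2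
  refine ⟨eqv z, j, hj, ?_⟩
  simp only [Equiv.symm_apply_apply]
  have h4 : C z v ≤ ∑ z, C z v :=
    Finset.single_le_sum (f := fun z => C z v) (fun z _ => hC0 z v) (Finset.mem_univ z)
  linarith

end

end Pool.Agent.Lib.MP_17a322_nt.EG
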