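import Pool.Agent.Lib.MP_17a322_nt.EG.B1
import Pool.Agent.Lib.MP_17a322_nt.EG.B2
import Pool.Agent.Lib.MP_17a322_nt.EG.C1
import Pool.Agent.Lib.MP_17a322_nt.EG.P1
import Pool.Agent.Lib.MP_17a322_nt.EG.A1
import Pool.Agent.Lib.MP_17a322_nt.TB.R1
import Pool.Agent.Lib.MP_17a322_nt.EF.Y2
import Pool.Agent.Lib.MP_17a322_nt.EF.R1
import Pool.Agent.Lib.MP_17a322_nt.EF.R3
import Pool.Agent.Lib.MP_17a322_nt.EF.W1

/-!
Closed subschemes over torus bundles: the hypersurfaces for one direction and one tuple.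
-/

universe u

namespace Pool.Agent.Lib.MP_17a322_nt.EG

open MvPolynomial Height
open Pool.Agent.Lib.MP_17a322_nt.VA
open Pool.Agent.Lib.MP_17a322_nt.SL
open Pool.Agent.Lib.MP_17a322_nt.EF (BH fib Mo mo ver cf mn Y_choose)
open Pool.Agent.Lib.MP_17a322_nt.TB (Tor ev supp wt maxWt partWt)

section

variable {q p s w : ℕ} {R : Type*} [CommRing R]

/-- The multidegree. -/
def md (μ : Fin q × Fin p →₀ ℕ) (i : Fin q) : ℕ := ∑ c, μ (i, c)

theorem md_add (μ ν : Fin q × Fin p →₀ ℕ) (i : Fin q) : md (μ + ν) i = md μ i + md ν i := by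
  unfold md
  simp only [Finsupp.add_apply, Finset.sum_add_distrib]

theorem wt_md (τ : Fin q → ℝ) (μ : Fin q × Fin p →₀ ℕ) :
    wt τ μ = ∑ i, (md μ i : ℝ) * τ i := by
  unfold TB.wt md
  rw [Fintype.sum_prod_type]
  refine Finset.sum_congr rfl fun i _ => ?_
  push_cast
  rw [Finset.sum_mul]

theorem k_md (k : Fin q → ℕ) (μ : Fin q × Fin p →₀ ℕ) :
    ∑ i, k i.1 * μ i = ∑ i, k i * md μ i := by
  unfold md
  rw [Fintype.sum_prod_type]
  refine Finset.sum_congr rfl fun i _ => ?_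
  rw [Finset.mul_sum]

/-- The exponent with the multidegree `E` and the coordinates `ch`. -/
noncomputable def me (ch : Fin q → Fin p) (E : Fin q → ℕ) : Fin q × Fin p →₀ ℕ :=
  ∑ i, Finsupp.single (i, ch i) (E i)

theorem md_me (ch : Fin q → Fin p) (E : Fin q → ℕ) (i : Fin q) : md (me ch E) i = E i := by
  classical
  unfold md me
  have h1 : ∀ c, (∑ j, Finsupp.single (j, ch j) (E j) : Fin q × Fin p →₀ ℕ) (i, c) =
      if c = ch i then E i else 0 := by
    intro c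
    rw [Finsupp.finsetSum_apply]
    rw [Finset.sum_eq_single i]
    · rw [Finsupp.single_apply]
      by_cases hc : c = ch i
      · rw [if_pos hc, if_pos (by rw [hc])]
      · rw [if_neg hc, if_neg]
        intro h
        exact hc (Prod.mk.inj h).2.symm
    · intro j _ hj
      rw [Finsupp.single_apply, if_neg]
      intro h
      exact hj (Prod.mk.inj h).1
    · intro h
      exact absurd (Finset.mem_univ i) h
  simp only [h1, Finset.sum_ite_eq', Finset.mem_univ, if_true]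

theorem me_prod {L : Type*} [Field L] (ch : Fin q → Fin p) (E : Fin q → ℕ)
    (y : Fin q × Fin p → L) (h : ∀ i, y (i, ch i) ≠ 0) : ∏ i, y i ^ me ch E i ≠ 0 := by
  classical
  refine Finset.prod_ne_zero_iff.2 fun i _ => ?_
  by_cases hi : i.2 = ch i.1
  · refine pow_ne_zero _ ?_
    have h1 := h i.1
    rw [← hi] at h1
    exact h1
  · have h1 : me ch E i = 0 := by
      unfold me
      rw [Finsupp.finsetSum_apply]
      refine Finset.sum_eq_zero fun j _ => ?_
      rw [Finsupp.single_apply, if_neg]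
      intro hh
      apply hi
      rw [← hh]
    rw [h1, pow_zero]
    exact one_ne_zero

/-- The monomial has one weight. -/
theorem wt_monomial (τ : Fin q → ℝ) (ν : Fin q × Fin p →₀ ℕ) (c : R) :
    (∀ a ∈ (monomial ν c).support, wt τ a ≤ wt τ ν) ∧
      partWt τ (wt τ ν) (monomial ν c) = monomial ν c := by
  classical
  constructor
  · intro a ha
    rw [mem_support_iff, coeff_monomial] at ha
    by_cases h : ν = a
    · rw [h]
    · rw [if_neg h] at ha
      exact absurd rfl ha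
  · ext a
    rw [TB.R1_coeff, coeff_monomial]
    by_cases h : ν = a
    · rw [h, if_pos rfl]
    · rw [if_neg h]
      split_ifs <;> rfl

/-- The vertex. -/
theorem exists_vertex (f : Fin s → Fin w → MvPolynomial (Fin q × Fin p) R) (τ₀ : Fin q → ℝ)
    (j : Fin s) : ∃ ν : Fin q × Fin p →₀ ℕ, (ν ∈ supp (f j) ∨ ν = 0) ∧
      ∀ τ, pat f τ j = pat f τ₀ j → wt τ ν = maxWt τ (f j) := by
  classical
  by_cases h : ∃ l, f j l ≠ 0
  · obtain ⟨l, a, ha, hw⟩ := exists_maxWt τ₀ h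
    have h1 : a ∈ pat f τ₀ j := by
      unfold pat
      rw [Finset.mem_filter]
      refine ⟨?_, hw⟩
      unfold supp
      exact Finset.mem_biUnion.2 ⟨l, Finset.mem_univ _, ha⟩
    refine ⟨a, Or.inl ?_, fun τ hτ => ?_⟩
    · unfold pat at h1
      exact (Finset.mem_filter.1 h1).1
    · rw [← hτ] at h1
      unfold pat at h1
      exact (Finset.mem_filter.1 h1).2
  · refine ⟨0, Or.inr rfl, fun τ _ => ?_⟩
    push Not at h
    have h1 : supp (f j) = ∅ := by
      unfold supp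
      rw [Finset.eq_empty_iff_forall_notMem]
      intro a ha
      obtain ⟨l, _, hl⟩ := Finset.mem_biUnion.1 ha
      rw [h l] at hl
      simp at hl
    have h2 : IsEmpty (supp (f j)) := by
      rw [h1]
      infer_instance
    unfold maxWt
    rw [Real.iSup_of_isEmpty]
    exact TB.R1_wt_zero τ

end

section

variable {K : Type u} [Field K] {N q p n m s w : ℕ} {A : AV K N} (T : Tor A q p)

theorem P2_sp_C {L : Type u} [Field L] [Algebra K L] (P : A.Pts L)
    (R : MvPolynomial (Fin (N + 1)) K) :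
    EF.sp A P (C R : MvPolynomial (Fin n) (MvPolynomial (Fin (N + 1)) K)) =
      C (aeval (A.x P) R) := by
  unfold EF.sp
  exact map_C _ _

theorem P2_sp_mul {L : Type u} [Field L] [Algebra K L] (P : A.Pts L)
    (F F' : MvPolynomial (Fin n) (MvPolynomial (Fin (N + 1)) K)) :
    EF.sp A P (F * F') = EF.sp A P F * EF.sp A P F' := by
  unfold EF.sp
  exact map_mul _ _ _

/-- The forms of one weighted degree. -/
noncomputable def gP (a : Fin (N + 1)) (ch : Fin q → Fin p) (Mx : Fin q → ℕ) (D d : ℕ)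
    (ν : Fin s → Fin q × Fin p →₀ ℕ) (f : Fin s → Fin w → Pol K N q p n) :
    (Fin s × Fin w) ⊕ Fin (Mo n d).card → Pol K N q p n
  | Sum.inl z => monomial (me ch fun i => Mx i - md (ν z.1) i)
      (C (X a ^ ∑ i, T.k i * md (ν z.1) i)) * f z.1 z.2
  | Sum.inr μ => C (C (X a ^ (D + ∑ i, T.k i * Mx i)) *
      mn (MvPolynomial (Fin (N + 1)) K) n d μ)

theorem gP_BG (a : Fin (N + 1)) (ch : Fin q → Fin p) (Mx : Fin q → ℕ) {D d : ℕ}
    (ν : Fin s → Fin q × Fin p →₀ ℕ) (hν : ∀ j i, md (ν j) i ≤ Mx i)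
    (f : Fin s → Fin w → Pol K N q p n) (hf : ∀ j l, BG T D d (f j l))
    (z : (Fin s × Fin w) ⊕ Fin (Mo n d).card) :
    BG T (D + ∑ i, T.k i * Mx i) d (gP T a ch Mx D d ν f z) := by
  classical
  rcases z with z | μ
  · have h1 : BG T (∑ i, T.k i * Mx i) 0 (monomial (me ch fun i => Mx i - md (ν z.1) i)
        (C (X a ^ ∑ i, T.k i * md (ν z.1) i)) : Pol K N q p n) := by
      intro b hb
      rw [coeff_monomial] at hb
      by_cases h : (me ch fun i => Mx i - md (ν z.1) i) = b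
      · rw [coeff_monomial, if_pos h]
        refine ⟨∑ i, T.k i * md (ν z.1) i, ?_, ?_⟩
        · have h2 := (isHomogeneous_X K a).pow (∑ i, T.k i * md (ν z.1) i)
          rw [one_mul] at h2
          exact EF.W_BH_C h2
        · rw [← h, k_md, ← Finset.sum_add_distrib]
          refine Finset.sum_congr rfl fun i _ => ?_
          rw [md_me, ← mul_add, Nat.add_sub_cancel' (hν z.1 i)]
      · rw [if_neg h] at hb
        exact absurd rfl hb
    have h3 := BG_mul h1 (hf z.1 z.2)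
    rw [zero_add, add_comm] at h3
    exact h3
  · refine BG_C T ?_
    have h2 := (isHomogeneous_X K a).pow (D + ∑ i, T.k i * Mx i)
    rw [one_mul] at h2
    have h3 : BH 0 d (mn (MvPolynomial (Fin (N + 1)) K) n d μ) := by
      constructor
      · have h4 := EF.R3_mn (MvPolynomial (Fin (N + 1)) K) n d μ
        rw [h4]
        refine isHomogeneous_monomial _ ?_
        rw [Finsupp.degree_eq_sum]
        exact EF.R1_mo μ
      · intro b
        rw [EF.R3_mn, coeff_monomial]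
        split_ifs
        · exact isHomogeneous_one _ _
        · exact isHomogeneous_zero _ _ _
    have h5 := EF.W_BH_mul (EF.W_BH_C (n := n) h2) h3
    rwa [add_zero, zero_add] at h5

theorem gP_sp_inl (a : Fin (N + 1)) (ch : Fin q → Fin p) (Mx : Fin q → ℕ) (D d : ℕ)
    (ν : Fin s → Fin q × Fin p →₀ ℕ) (f : Fin s → Fin w → Pol K N q p n)
    {L : Type u} [Field L] [Algebra K L] (P : A.Pts L) (y : Fin q × Fin p → L) (z : Fin s × Fin w) :
    spG P y (gP T a ch Mx D d ν f (Sum.inl z)) =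
      C (A.x P a ^ (∑ i, T.k i * md (ν z.1) i) *
        ∏ i, y i ^ (me ch fun i => Mx i - md (ν z.1) i) i) * spG P y (f z.1 z.2) := by
  show spG P y (_ * _) = _
  rw [spG_mul]
  congr 1
  have h1 : (monomial (me ch fun i => Mx i - md (ν z.1) i)
      (C (X a ^ ∑ i, T.k i * md (ν z.1) i)) : Pol K N q p n) =
      C (C (X a ^ ∑ i, T.k i * md (ν z.1) i)) *
        ∏ i, X i ^ (me ch fun i => Mx i - md (ν z.1) i) i := by
    rw [monomial_eq, Finsupp.prod_fintype _ _ (fun i => pow_zero _)]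
  rw [h1, spG_mul, spG_C, spG_prod]
  simp only [spG_pow, spG_X]
  rw [P2_sp_C, map_pow, aeval_X, C_mul, map_prod]
  simp only [map_pow]

theorem gP_sp_inr (a : Fin (N + 1)) (ch : Fin q → Fin p) (Mx : Fin q → ℕ) (D d : ℕ)
    (ν : Fin s → Fin q × Fin p →₀ ℕ) (f : Fin s → Fin w → Pol K N q p n)
    {L : Type u} [Field L] [Algebra K L] (P : A.Pts L) (y : Fin q × Fin p → L)
    (μ : Fin (Mo n d).card) :
    spG P y (gP T a ch Mx D d ν f (Sum.inr μ)) =
      C (A.x P a ^ (D + ∑ i, T.k i * Mx i)) * mn L n d μ := by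
  show spG P y (C (C _ * _)) = _
  rw [spG_C, P2_sp_mul, P2_sp_C, map_pow, aeval_X]
  congr 1
  rw [EF.R3_mn, EF.R3_mn]
  unfold EF.sp
  rw [map_monomial, map_one]

/-- The weights. -/
theorem gP_wt (a : Fin (N + 1)) (ch : Fin q → Fin p) (Mx : Fin q → ℕ) (D d : ℕ)
    (ν : Fin s → Fin q × Fin p →₀ ℕ) (hν : ∀ j i, md (ν j) i ≤ Mx i)
    (f : Fin s → Fin w → Pol K N q p n) (τ τ₀ : Fin q → ℝ)
    (hτ : ∀ j, pat f τ j = pat f τ₀ j) (hντ : ∀ j, wt τ (ν j) = maxWt τ (f j))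
    (z : (Fin s × Fin w) ⊕ Fin (Mo n d).card) {h : ℝ}
    (hh : h = Sum.elim (fun _ => ∑ i, (Mx i : ℝ) * τ i) (fun _ => 0) z) :
    (∀ b ∈ (gP T a ch Mx D d ν f z).support, wt τ b ≤ h) ∧
      partWt τ h (gP T a ch Mx D d ν f z) = gP T a ch Mx D d ν
        (fun j l => partWt τ₀ (maxWt τ₀ (f j)) (f j l)) z := by
  subst hh
  rcases z with z | μ
  · simp only [Sum.elim_inl]
    have h1 : ∑ i, (Mx i : ℝ) * τ i = wt τ (me ch fun i => Mx i - md (ν z.1) i) +
        maxWt τ (f z.1) := by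
      rw [← hντ z.1, wt_md, wt_md, ← Finset.sum_add_distrib]
      refine Finset.sum_congr rfl fun i _ => ?_
      rw [md_me, Nat.cast_sub (hν z.1 i)]
      ring
    rw [h1]
    obtain ⟨h2, h3⟩ := wt_monomial τ (me ch fun i => Mx i - md (ν z.1) i)
      (C (X a ^ ∑ i, T.k i * md (ν z.1) i) :
        MvPolynomial (Fin n) (MvPolynomial (Fin (N + 1)) K))
    obtain ⟨h4, h5⟩ := TB.R1_mul h2 (TB.R1_le_max τ (f z.1) z.2)
    refine ⟨h4, ?_⟩
    show partWt τ _ (_ * _) = _ * _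
    rw [h5, h3, pat_lead (hτ z.1) z.2]
  · exact TB.R1_C τ _

/-- One direction `τ₀` and one tuple `V`: the hypersurfaces. -/
theorem P_one [Infinite K] {t D d : ℕ} (hd : 0 < d) (f : Fin s → Fin w → Pol K N q p n)
    (hf : ∀ j l, BG T D d (f j l)) {L : Type u} [Field L] [IsAlgClosed L] [Algebra K L]
    (P₀ : A.Pts L) (y₀ : Fin q × Fin p → L) (h₀ : GenB T P₀ y₀)
    (I : Ideal (MvPolynomial (Fin n) L)) (hI : I.IsPrime)
    (hgr : ∀ f ∈ I, ∀ k, homogeneousComponent k f ∈ I)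
    (htr : Algebra.trdeg L (MvPolynomial (Fin n) L ⧸ I) = t)
    (a : Fin (N + 1)) (ha : A.x P₀ a ≠ 0) (ch : Fin q → Fin p) (hch : ∀ i, y₀ (i, ch i) ≠ 0)
    (Mx : Fin q → ℕ) (hMx : ∀ j, ∀ μ ∈ supp (f j), ∀ i, ∑ c, μ (i, c) ≤ Mx i)
    (τ₀ : Fin q → ℝ) (V : Fin t → Option (Finset (Fin s)))
    (hV : ∀ (i : Fin t) U, V i = some U →
      CodA I t (spG P₀ y₀ '' cutB f τ₀ U) (i + 1)) :
    ∃ Q Q₀ : Fin t → Pol K N q p n,
      (∀ i, BG T (D + ∑ i, T.k i * Mx i) d (Q i)) ∧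
      (∀ i, BG T (D + ∑ i, T.k i * Mx i) d (Q₀ i)) ∧
      (∀ X : Fin n → L, (∀ f ∈ I, eval X f = 0) → (∀ i, eval X (spG P₀ y₀ (Q₀ i)) = 0) →
        X = 0) ∧
      (∀ τ, (∀ j, pat f τ j = pat f τ₀ j) → ∀ i, ld τ (Q i) = Q₀ i) ∧
      ∀ v : AbsoluteValue K ℝ, ∃ C : ℝ, 0 ≤ C ∧ ∀ (P : A.Pts K) (y : Fin q × Fin p → K),
        T.On P y → (∀ j, pat f (T.tau v P y) j = pat f τ₀ j) → ∀ X : Fin n → K, X ≠ 0 →
        ∀ (i : Fin t) U, V i = some U → eval X (spG P y (Q i)) ≠ 0 →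
          ∃ j ∈ U, (∃ l, eval X (spG P y (f j l)) ≠ 0) ∧
            lamB T v D d (f j) P y X ≤
              lam1 T v (D + ∑ i, T.k i * Mx i) d (Q i) P y X + C := by
  classical
  choose ν hν1 hν2 using exists_vertex f τ₀
  have hν : ∀ j i, md (ν j) i ≤ Mx i := by
    intro j i
    rcases hν1 j with h | h
    · exact hMx j _ h i
    · rw [h]
      unfold md
      simp
  obtain ⟨G, hG⟩ : ∃ G : Fin t → Finset ((Fin s × Fin w) ⊕ Fin (Mo n d).card), ∀ i,
      (∀ U, V i = some U → ∀ z, z ∈ G i ↔ ∃ j ∈ U, ∃ l, z = Sum.inl (j, l)) ∧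
      (V i = none → ∀ z, z ∈ G i ↔ ∃ μ, z = Sum.inr μ) := by
    refine ⟨fun i => Finset.univ.filter fun z => match V i with
      | some U => ∃ j ∈ U, ∃ l, z = Sum.inl (j, l)
      | none => ∃ μ, z = Sum.inr μ, fun i => ⟨fun U hU z => ?_, fun hU z => ?_⟩⟩
    · rw [Finset.mem_filter, hU]
      simp
    · rw [Finset.mem_filter, hU]
      simp
  obtain ⟨f₀, hf₀⟩ : ∃ f₀ : Fin s → Fin w → Pol K N q p n,
      f₀ = fun j l => partWt τ₀ (maxWt τ₀ (f j)) (f j l) := ⟨_, rfl⟩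
  have hf₀B : ∀ j l, BG T D d (f₀ j l) := fun j l => by
    rw [hf₀]
    exact BG_partWt (hf j l) _ _
  -- the constants
  have htr' : ∀ 𝔭 : Ideal (MvPolynomial (Fin n) L), 𝔭.IsPrime → I ≤ 𝔭 →
      Algebra.trdeg L (MvPolynomial (Fin n) L ⧸ 𝔭) ≤ t := by
    intro 𝔭 _ h
    rw [← htr]
    exact trdeg_le_of_surjective (Ideal.Quotient.factorₐ L h) (Ideal.Quotient.factor_surjective h)
  have hax : (A.x P₀ a) ≠ 0 := ha
  obtain ⟨kk, hkk⟩ := Y_choose (K := K) I hgr htr' G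
    (fun z => spG P₀ y₀ (gP T a ch Mx D d ν f₀ z)) (d := d)
    (fun i z _ => spG_hom P₀ y₀ (gP_BG T a ch Mx ν hν f₀ hf₀B z))
    (fun i 𝔭 h𝔭 hI𝔭 hg => by
      rcases hVi : V i with _ | U
      · have h1 := CodA_all (L := L) (n := n) (I := I) (t := t) hd (i := i + 1) i.2 𝔭 h𝔭 hI𝔭 (by
          rintro _ ⟨μ, rfl⟩
          have h2 := hg (Sum.inr μ) (((hG i).2 hVi _).2 ⟨μ, rfl⟩)
          rw [gP_sp_inr] at h2
          exact (Ideal.unit_mul_mem_iff_mem 𝔭 ((IsUnit.mk0 _ (pow_ne_zero _ hax)).map C)).1 h2)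
        exact_mod_cast h1
      · have h1 := hV i U hVi 𝔭 h𝔭 hI𝔭 (by
          rintro _ ⟨_, ⟨j, hj, l, rfl⟩, rfl⟩
          have h2 := hg (Sum.inl (j, l)) (((hG i).1 U hVi _).2 ⟨j, hj, l, rfl⟩)
          rw [gP_sp_inl] at h2
          have h3 := (Ideal.unit_mul_mem_iff_mem 𝔭 ((IsUnit.mk0 _ (mul_ne_zero
            (pow_ne_zero _ hax) (me_prod ch _ y₀ hch))).map C)).1 h2
          rw [hf₀] at h3
          exact h3)
        exact_mod_cast h1)
  obtain ⟨Q, hQ⟩ : ∃ Q : Fin t → Pol K N q p n, Q = fun i => ∑ z ∈ G i,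
      C (C (C (kk i z))) * gP T a ch Mx D d ν f z := ⟨_, rfl⟩
  obtain ⟨Q₀, hQ₀⟩ : ∃ Q₀ : Fin t → Pol K N q p n, Q₀ = fun i => ∑ z ∈ G i,
      C (C (C (kk i z))) * gP T a ch Mx D d ν f₀ z := ⟨_, rfl⟩
  have hBk : ∀ k : K, BG T 0 0 (C (C (C k)) : Pol K N q p n) := fun k =>
    BG_C T (EF.W_BH_C (isHomogeneous_C _ k))
  have hQB : ∀ i, BG T (D + ∑ i, T.k i * Mx i) d (Q i) := fun i => by
    rw [hQ]
    refine BG_sum _ _ fun z _ => ?_
    have h1 := BG_mul (hBk (kk i z)) (gP_BG T a ch Mx ν hν f hf z)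
    rwa [zero_add, zero_add] at h1
  have hQ₀B : ∀ i, BG T (D + ∑ i, T.k i * Mx i) d (Q₀ i) := fun i => by
    rw [hQ₀]
    refine BG_sum _ _ fun z _ => ?_
    have h1 := BG_mul (hBk (kk i z)) (gP_BG T a ch Mx ν hν f₀ hf₀B z)
    rwa [zero_add, zero_add] at h1
  have hsp : ∀ i, spG P₀ y₀ (Q₀ i) = ∑ z ∈ G i, C (algebraMap K L (kk i z)) *
      spG P₀ y₀ (gP T a ch Mx D d ν f₀ z) := fun i => by
    rw [hQ₀]
    show spG P₀ y₀ (∑ z ∈ G i, _) = _
    rw [spG_sum]
    refine Finset.sum_congr rfl fun z _ => ?_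
    rw [spG_mul, spG_C, P2_sp_C, aeval_C]
  have hno : ∀ X : Fin n → L, (∀ f ∈ I, eval X f = 0) →
      (∀ i, eval X (spG P₀ y₀ (Q₀ i)) = 0) → X = 0 := fun X hX hX' =>
    hkk X hX fun i => by
      rw [← hsp i]
      exact hX' i
  have hne : ∀ i, Q₀ i ≠ 0 := fun i h => by
    have := hI
    refine A_notMem hd I hgr htr (fun i => spG P₀ y₀ (Q₀ i))
      (fun i => spG_hom P₀ y₀ (hQ₀B i)) hno i ?_
    have h1 : spG P₀ y₀ (0 : Pol K N q p n) = 0 := by
      rw [← spH_apply]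
      exact map_zero _
    show spG P₀ y₀ (Q₀ i) ∈ I
    rw [h, h1]
    exact I.zero_mem
  -- the weights
  obtain ⟨hw, hhw⟩ : ∃ hw : (Fin q → ℝ) → Fin t → ℝ, hw = fun τ i => match V i with
      | some _ => ∑ i, (Mx i : ℝ) * τ i
      | none => 0 := ⟨_, rfl⟩
  have hwz : ∀ τ i, ∀ z ∈ G i, hw τ i =
      Sum.elim (fun _ => ∑ i, (Mx i : ℝ) * τ i) (fun _ => 0) z := by
    intro τ i z hz
    rw [hhw]
    rcases hVi : V i with _ | U
    · obtain ⟨μ, rfl⟩ := ((hG i).2 hVi z).1 hz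
      simp [hVi]
    · obtain ⟨j, _, l, rfl⟩ := ((hG i).1 U hVi z).1 hz
      simp [hVi]
  have hwt : ∀ τ, (∀ j, pat f τ j = pat f τ₀ j) → ∀ i,
      (∀ b ∈ (Q i).support, wt τ b ≤ hw τ i) ∧ partWt τ (hw τ i) (Q i) = Q₀ i := by
    intro τ hτ i
    have h1 : ∀ z ∈ G i,
        (∀ b ∈ (C (C (C (kk i z))) * gP T a ch Mx D d ν f z : Pol K N q p n).support,
          wt τ b ≤ hw τ i) ∧
        partWt τ (hw τ i) (C (C (C (kk i z))) * gP T a ch Mx D d ν f z) =
          C (C (C (kk i z))) * gP T a ch Mx D d ν f₀ z := by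
      intro z hz
      obtain ⟨h2, h3⟩ := gP_wt T a ch Mx D d ν hν f τ τ₀ hτ (fun j => hν2 j τ (hτ j)) z
        (hwz τ i z hz)
      obtain ⟨h4, h5⟩ := TB.R1_C (p := p) τ (C (C (kk i z)) :
        MvPolynomial (Fin n) (MvPolynomial (Fin (N + 1)) K))
      obtain ⟨h6, h7⟩ := TB.R1_mul h4 h2
      rw [zero_add] at h6 h7
      refine ⟨h6, ?_⟩
      rw [h7, h5, h3, hf₀]
    obtain ⟨h2, h3⟩ := TB.R1_sum (G i) (hw τ i) _ fun z hz => (h1 z hz).1
    rw [hQ, hQ₀]
    refine ⟨h2, ?_⟩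
    rw [h3]
    exact Finset.sum_congr rfl fun z hz => (h1 z hz).2
  have hmx : ∀ τ, (∀ j, pat f τ j = pat f τ₀ j) → ∀ i, mx τ (Q i) = hw τ i :=
    fun τ hτ i => mx_of τ (hwt τ hτ i).1 (by rw [(hwt τ hτ i).2]; exact hne i)
  refine ⟨Q, Q₀, hQB, hQ₀B, hno, fun τ hτ i => ?_, fun v => ?_⟩
  · unfold ld
    rw [hmx τ hτ i]
    exact (hwt τ hτ i).2
  · -- the local inequality
    have hk0 : ∀ i, 0 ≤ ∑ z ∈ G i, v (kk i z) := fun i =>
      Finset.sum_nonneg fun z _ => v.nonneg _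
    have hl0 : ∀ i, 0 ≤ Real.log (∑ z ∈ G i, v (kk i z) + 1) := fun i =>
      Real.log_nonneg (by linarith [hk0 i])
    refine ⟨∑ i, Real.log (∑ z ∈ G i, v (kk i z) + 1),
      Finset.sum_nonneg fun i _ => hl0 i, fun P y hy hpat X hX i U hU h0 => ?_⟩
    have hval : eval X (spG P y (Q i)) = ∑ z ∈ G i, kk i z *
        eval X (spG P y (gP T a ch Mx D d ν f z)) := by
      rw [hQ]
      show eval X (spG P y (∑ z ∈ G i, _)) = _
      rw [spG_sum, map_sum]
      refine Finset.sum_congr rfl fun z _ => ?_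
      rw [spG_mul, spG_C, P2_sp_C, aeval_C, map_mul, eval_C]
      rfl
    have hGne : (G i).Nonempty := by
      by_contra h
      rw [Finset.not_nonempty_iff_eq_empty] at h
      rw [hval, h, Finset.sum_empty] at h0
      exact h0 rfl
    obtain ⟨z, hz, hmax⟩ := Finset.exists_max_image (G i)
      (fun z => v (eval X (spG P y (gP T a ch Mx D d ν f z)))) hGne
    have h2 : v (eval X (spG P y (Q i))) ≤ (∑ z ∈ G i, v (kk i z) + 1) *
        v (eval X (spG P y (gP T a ch Mx D d ν f z))) := by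
      rw [hval]
      refine (v.sum_le _ _).trans ?_
      have h3 : ∑ z' ∈ G i, v (kk i z' * eval X (spG P y (gP T a ch Mx D d ν f z'))) ≤
          ∑ z' ∈ G i, v (kk i z') * v (eval X (spG P y (gP T a ch Mx D d ν f z))) := by
        refine Finset.sum_le_sum fun z' hz' => ?_
        rw [map_mul]
        exact mul_le_mul_of_nonneg_left (hmax z' hz') (v.nonneg _)
      rw [← Finset.sum_mul] at h3
      refine h3.trans ?_
      exact mul_le_mul_of_nonneg_right (by linarith) (v.nonneg _)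
    have h4 : 0 < v (eval X (spG P y (Q i))) := v.pos h0
    have h5 : 0 < v (eval X (spG P y (gP T a ch Mx D d ν f z))) := by
      by_contra h
      have h6 : v (eval X (spG P y (gP T a ch Mx D d ν f z))) = 0 :=
        le_antisymm (not_lt.1 h) (v.nonneg _)
      rw [h6, mul_zero] at h2
      linarith
    have h7 := Real.log_le_log h4 h2
    rw [Real.log_mul (by linarith [hk0 i]) h5.ne'] at h7
    obtain ⟨j, hj, l, rfl⟩ := ((hG i).1 U hU z).1 hz
    rw [gP_sp_inl, map_mul, eval_C] at h5 h7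
    have h8 : (A.x P a ^ (∑ i, T.k i * md (ν j) i) *
        ∏ i, y i ^ (me ch fun i => Mx i - md (ν j) i) i) * eval X (spG P y (f j l)) ≠ 0 := by
      intro h
      rw [h, map_zero] at h5
      exact lt_irrefl _ h5
    have h9 := left_ne_zero_of_mul (left_ne_zero_of_mul h8)
    have h10 := right_ne_zero_of_mul (left_ne_zero_of_mul h8)
    have h11 := right_ne_zero_of_mul h8
    refine ⟨j, hj, ⟨l, h11⟩, ?_⟩
    have hx := TB.R1_x_pos (A := A) v P
    rw [map_mul, map_mul, Real.log_mul (mul_pos (v.pos h9) (v.pos h10)).ne' (v.pos h11).ne',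
      Real.log_mul (v.pos h9).ne' (v.pos h10).ne', map_pow, Real.log_pow] at h7
    have h12 := EF.W_log_pow_le v (A.x P) a _ h9
    have h13 := Real.log_le_log (v.pos h10) (TB.R1_mon T v hy (me ch fun i => Mx i - md (ν j) i))
    rw [Real.log_mul (Real.exp_pos _).ne' (pow_pos hx _).ne', Real.log_exp, Real.log_pow,
      k_md] at h13
    have h14 : v (eval X (spG P y (f j l))) ≤ ⨆ l, v (eval X (spG P y (f j l))) :=
      Finite.le_ciSup_of_le (f := fun l => v (eval X (spG P y (f j l)))) l le_rfl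
    have h15 := Real.log_le_log (v.pos h11) h14
    have h16 : ∑ i, Real.log (∑ z ∈ G i, v (kk i z) + 1) ≥
        Real.log (∑ z ∈ G i, v (kk i z) + 1) :=
      Finset.single_le_sum (f := fun i => Real.log (∑ z ∈ G i, v (kk i z) + 1))
        (fun i _ => hl0 i) (Finset.mem_univ i)
    have h17 : hw (T.tau v P y) i = ∑ i, (Mx i : ℝ) * T.tau v P y i := by
      rw [hhw]
      simp [hU]
    have h18 : ∑ i, (Mx i : ℝ) * T.tau v P y i =
        wt (T.tau v P y) (me ch fun i => Mx i - md (ν j) i) + maxWt (T.tau v P y) (f j) := by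
      rw [← hν2 j _ (hpat j), wt_md, wt_md, ← Finset.sum_add_distrib]
      refine Finset.sum_congr rfl fun i _ => ?_
      rw [md_me, Nat.cast_sub (hν j i)]
      ring
    have h19 : ((∑ i, T.k i * md (ν j) i : ℕ) : ℝ) +
        ((∑ i, T.k i * md (me ch fun i => Mx i - md (ν j) i) i : ℕ) : ℝ) =
        ((∑ i, T.k i * Mx i : ℕ) : ℝ) := by
      rw [← Nat.cast_add]
      congr 1
      rw [← Finset.sum_add_distrib]
      refine Finset.sum_congr rfl fun i _ => ?_
      rw [md_me, ← mul_add, Nat.add_sub_cancel' (hν j i)]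
    unfold lamB lam1
    rw [hmx _ hpat i, h17, h18]
    rw [Nat.cast_add, add_mul (D : ℝ), ← h19, add_mul]
    linarith

end

end Pool.Agent.Lib.MP_17a322_nt.EG
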