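import Pool.Agent.Lib.MP_17a322_nt.EG.P2
import Pool.Agent.Lib.MP_17a322_nt.VA.Mu

/-!
All directions and all tuples: one finite list of hypersurfaces.
-/

universe u

namespace Pool.Agent.Lib.MP_17a322_nt.EG

open MvPolynomial Height
open Pool.Agent.Lib.MP_17a322_nt.VA
open Pool.Agent.Lib.MP_17a322_nt.SL
open Pool.Agent.Lib.MP_17a322_nt.EF (BH fib sp Mo mo ver cf)
open Pool.Agent.Lib.MP_17a322_nt.TB (Tor ev supp wt maxWt partWt)

section

variable {K : Type u} [Field K] {N q p n m s w : ℕ} {A : AV K N} (T : Tor A q p)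

/-- All directions and all tuples: one finite list. -/
theorem P_picks [Infinite K] {t D d : ℕ} (hd : 0 < d) (f : Fin s → Fin w → Pol K N q p n)
    (hf : ∀ j l, BG T D d (f j l)) {L : Type u} [Field L] [IsAlgClosed L] [Algebra K L]
    (P₀ : A.Pts L) (y₀ : Fin q × Fin p → L) (h₀ : GenB T P₀ y₀)
    (I : Ideal (MvPolynomial (Fin n) L)) (hI : I.IsPrime)
    (hgr : ∀ f ∈ I, ∀ k, homogeneousComponent k f ∈ I)
    (htr : Algebra.trdeg L (MvPolynomial (Fin n) L ⧸ I) = t) :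
    ∃ (e D' : ℕ) (Q Q₀ : Fin e → Fin t → Pol K N q p n),
      (∀ a i, BG T D' d (Q a i)) ∧ (∀ a i, BG T D' d (Q₀ a i)) ∧
      (∀ a, ∀ X : Fin n → L, (∀ f ∈ I, eval X f = 0) →
        (∀ i, eval X (spG P₀ y₀ (Q₀ a i)) = 0) → X = 0) ∧
      ∀ v : AbsoluteValue K ℝ, ∃ C : ℝ, 0 ≤ C ∧ ∀ (P : A.Pts K) (y : Fin q × Fin p → K),
        T.On P y → ∀ X : Fin n → K, X ≠ 0 → ∀ V : Fin t → Option (Finset (Fin s)),
        (∀ (i : Fin t) U, V i = some U →
          CodA I t (spG P₀ y₀ '' cutB f (T.tau v P y) U) (i + 1)) →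
        ∃ a, (∀ i, ld (T.tau v P y) (Q a i) = Q₀ a i) ∧
          ∀ (i : Fin t) U, V i = some U → eval X (spG P y (Q a i)) ≠ 0 →
            ∃ j ∈ U, (∃ l, eval X (spG P y (f j l)) ≠ 0) ∧
              lamB T v D d (f j) P y X ≤ lam1 T v D' d (Q a i) P y X + C := by
  classical
  obtain ⟨a, ha⟩ := A.exists_x_ne P₀
  choose ch hch using fun i => (h₀.2.1 i).1
  obtain ⟨e₁, τs, hτs⟩ := pat_reps f
  set Mx : Fin q → ℕ := fun i => ∑ j, ∑ μ ∈ supp (f j), ∑ c, μ (i, c) with hMxdef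
  have hMx : ∀ j, ∀ μ ∈ supp (f j), ∀ i, ∑ c, μ (i, c) ≤ Mx i := by
    intro j μ hμ i
    exact (Finset.single_le_sum (f := fun μ : Fin q × Fin p →₀ ℕ => ∑ c, μ (i, c))
      (fun _ _ => Nat.zero_le _) hμ).trans
      (Finset.single_le_sum (f := fun j => ∑ μ ∈ supp (f j), ∑ c, μ (i, c))
        (fun _ _ => Nat.zero_le _) (Finset.mem_univ j))
  -- the index set
  set Idx := Fin e₁ × (Fin t → Option (Finset (Fin s))) with hIdx
  set adm : Idx → Prop := fun z => ∀ (i : Fin t) U, z.2 i = some U →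
    CodA I t (spG P₀ y₀ '' cutB f (τs z.1) U) (i + 1) with hadm
  set Vr : Idx → Fin t → Option (Finset (Fin s)) := fun z => if adm z then z.2 else fun _ => none
    with hVr
  have hVadm : ∀ z, ∀ (i : Fin t) U, Vr z i = some U →
      CodA I t (spG P₀ y₀ '' cutB f (τs z.1) U) (i + 1) := by
    intro z i U hU
    simp only [hVr] at hU
    by_cases h : adm z
    · rw [if_pos h] at hU
      exact h i U hU
    · rw [if_neg h] at hU
      exact absurd hU (by simp)
  have h1 := fun z : Idx => P_one T hd f hf P₀ y₀ h₀ I hI hgr htr a ha ch hch Mx hMx (τs z.1)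
    (Vr z) (hVadm z)
  choose Q Q₀ hQ hQ₀ hno hld hloc using h1
  choose C hC0 hC using hloc
  set eqv := Fintype.equivFin Idx with heqv
  refine ⟨Fintype.card Idx, D + ∑ i, T.k i * Mx i, fun b => Q (eqv.symm b),
    fun b => Q₀ (eqv.symm b), fun b i => hQ _ i, fun b i => hQ₀ _ i, fun b => hno _,
    fun v => ⟨∑ z, C z v, Finset.sum_nonneg fun z _ => hC0 z v, ?_⟩⟩
  intro P y hy X hX V hV
  obtain ⟨κ, hκ⟩ := hτs (T.tau v P y)
  set z : Idx := (κ, V) with hz
  have hcut : ∀ U, cutB f (T.tau v P y) U = cutB f (τs κ) U := by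
    intro U
    ext g
    constructor
    · rintro ⟨j, hj, l, rfl⟩
      exact ⟨j, hj, l, pat_lead (hκ j) l⟩
    · rintro ⟨j, hj, l, rfl⟩
      exact ⟨j, hj, l, (pat_lead (hκ j) l).symm⟩
  have hza : adm z := by
    intro i U hU
    have h2 := hV i U hU
    rw [hcut] at h2
    exact h2
  have hVz : Vr z = V := by
    simp only [hVr]
    rw [if_pos hza]
  refine ⟨eqv z, ?_, ?_⟩
  · simp only [Equiv.symm_apply_apply]
    exact hld z _ hκ
  · simp only [Equiv.symm_apply_apply]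
    intro i U hU hne
    obtain ⟨j, hj, h2, h3⟩ := hC z v P y hy hκ X hX i U (by rw [hVz]; exact hU) hne
    refine ⟨j, hj, h2, h3.trans ?_⟩
    have h4 : C z v ≤ ∑ z, C z v :=
      Finset.single_le_sum (f := fun z => C z v) (fun z _ => hC0 z v) (Finset.mem_univ z)
    linarith

end

end Pool.Agent.Lib.MP_17a322_nt.EG
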