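import Pool.Agent.Lib.MP_17a322_nt.EG.B1
import Pool.Agent.Lib.MP_17a322_nt.EG.B2
import Pool.Agent.Lib.MP_17a322_nt.EG.G1
import Pool.Agent.Lib.MP_17a322_nt.EG.L1
import Pool.Agent.Lib.MP_17a322_nt.EG.C1
import Pool.Agent.Lib.MP_17a322_nt.TB.R2
import Pool.Agent.Lib.MP_17a322_nt.EF.R3
import Pool.Agent.Lib.MP_17a322_nt.EF.T2
import Pool.Agent.Lib.MP_17a322_nt.EF.W2

/-!
Closed subschemes over torus bundles: the subschemes whose leading parts have no common zeros.
-/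

universe u

namespace Pool.Agent.Lib.MP_17a322_nt.EG

open MvPolynomial Height
open Pool.Agent.Lib.MP_17a322_nt.VA
open Pool.Agent.Lib.MP_17a322_nt.SL
open Pool.Agent.Lib.MP_17a322_nt.EF (BH fib sp Mo mo mn ver cf IsRows R3_pow R3_mn R1_fib R1_cf_mul
  cfl cfl_apply mo_inj mo_sum mo_degree T_rows exists_X_notMem ver_ne R2_mono)
open Pool.Agent.Lib.MP_17a322_nt.TB (Tor ev supp wt maxWt partWt)

/-- A family together with an independent family spans: a subset gives a basis. -/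
theorem Ra_ext {L : Type*} [Field L] {g s n : ℕ} (v : Fin g → Fin n → L)
    (hv : LinearIndependent L v) (u : Fin s → Fin n → L)
    (hs : ∀ l : Fin n, (Pi.single l 1 : Fin n → L) ∈
      Submodule.span L (Set.range v) ⊔ Submodule.span L (Set.range u)) :
    ∃ J : Finset (Fin s), LinearIndependent L (Sum.elim v fun j : J => u j) ∧
      g + J.card = n := by
  classical
  have h1 : LinearIndepOn L (Sum.elim v u) (Set.range Sum.inl) :=
    (linearIndepOn_range_iff Sum.inl_injective _).2 hv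
  obtain ⟨b, -, hb1, hb2, hb3⟩ := exists_linearIndepOn_extension h1 (Set.subset_univ _)
  obtain ⟨J, hJ⟩ : ∃ J : Finset (Fin s), J = Finset.univ.filter fun j => Sum.inr j ∈ b := ⟨_, rfl⟩
  have hJm : ∀ j, j ∈ J ↔ Sum.inr j ∈ b := fun j => by
    rw [hJ, Finset.mem_filter]
    exact ⟨fun h => h.2, fun h => ⟨Finset.mem_univ _, h⟩⟩
  obtain ⟨φ, hφ⟩ : ∃ φ : Fin g ⊕ J → b, φ = Sum.elim (fun i => ⟨Sum.inl i, hb1 ⟨i, rfl⟩⟩)
      fun j => ⟨Sum.inr j.1, (hJm _).1 j.2⟩ := ⟨_, rfl⟩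
  have hinj : Function.Injective φ := by
    rw [hφ]
    rintro (i | j) (i' | j') h
    · have h2 : (Sum.inl i : Fin g ⊕ Fin s) = Sum.inl i' := congrArg Subtype.val h
      rw [Sum.inl.inj h2]
    · have h2 : (Sum.inl i : Fin g ⊕ Fin s) = Sum.inr j'.1 := congrArg Subtype.val h
      exact absurd h2 (by simp)
    · have h2 : (Sum.inr j.1 : Fin g ⊕ Fin s) = Sum.inl i' := congrArg Subtype.val h
      exact absurd h2 (by simp)
    · have h2 : (Sum.inr j.1 : Fin g ⊕ Fin s) = Sum.inr j'.1 := congrArg Subtype.val h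
      rw [Subtype.ext (Sum.inr.inj h2)]
  have hli : LinearIndependent L (Sum.elim v fun j : J => u j) := by
    have h2 := LinearIndependent.comp (show LinearIndependent L fun x : b => Sum.elim v u x from hb3)
      φ hinj
    have h3 : (fun x : b => Sum.elim v u x) ∘ φ = Sum.elim v fun j : J => u j := by
      funext x
      rw [hφ]
      rcases x with i | j
      · rfl
      · rfl
    rwa [h3] at h2
  have hkey : ∀ x, Sum.elim v u x ∈
      Submodule.span L (Set.range (Sum.elim v fun j : J => u j)) := by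
    intro x
    refine Submodule.span_mono ?_ (hb2 ⟨x, Set.mem_univ _, rfl⟩)
    rintro _ ⟨z, hz, rfl⟩
    rcases z with i | j
    · exact ⟨Sum.inl i, rfl⟩
    · exact ⟨Sum.inr ⟨j, (hJm j).2 hz⟩, rfl⟩
  have htop : Submodule.span L (Set.range (Sum.elim v fun j : J => u j)) = ⊤ := by
    rw [eq_top_iff]
    intro z _
    have h2 : z = ∑ l, z l • (Pi.single l 1 : Fin n → L) := by
      funext c
      rw [Finset.sum_apply, Finset.sum_eq_single c]
      · rw [Pi.smul_apply, Pi.single_eq_same, smul_eq_mul, mul_one]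
      · intro l _ hl
        rw [Pi.smul_apply, Pi.single_eq_of_ne (Ne.symm hl), smul_zero]
      · intro h
        exact absurd (Finset.mem_univ c) h
    rw [h2]
    refine Submodule.sum_mem _ fun l _ => Submodule.smul_mem _ _ ?_
    refine (sup_le ?_ ?_ : Submodule.span L (Set.range v) ⊔ Submodule.span L (Set.range u) ≤ _) (hs l)
    · rw [Submodule.span_le]
      rintro _ ⟨i, rfl⟩
      exact hkey (Sum.inl i)
    · rw [Submodule.span_le]
      rintro _ ⟨i, rfl⟩
      exact hkey (Sum.inr i)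
  refine ⟨J, hli, ?_⟩
  have h2 := finrank_span_eq_card hli
  rw [htop, finrank_top, Module.finrank_fin_fun, Fintype.card_sum, Fintype.card_fin,
    Fintype.card_coe] at h2
  exact h2.symm

section

variable {K : Type u} [Field K] {N q p n m s w : ℕ} (A : AV K N)

/-- In a large degree the forms in the ideal and the multiples of the forms `Q z` are everything. -/
theorem Ra_span (H : Fin m → MvPolynomial (Fin n) (MvPolynomial (Fin (N + 1)) K))
    (hH : ∀ i, ∃ a b : ℕ, BH a b (H i)) {L : Type u} [Field L] [IsAlgClosed L] [Algebra K L]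
    (P₀ : A.Pts L) (hP₀ : Gen A P₀) {d : ℕ} (hd : 0 < d) {κ : Type} [Fintype κ]
    (Q : κ → MvPolynomial (Fin n) L) (hQ : ∀ j, (Q j).IsHomogeneous d)
    (h0 : ∀ X : Fin n → L, (∀ f ∈ fib A H P₀, eval X f = 0) → (∀ j, eval X (Q j) = 0) → X = 0) :
    ∃ b, d ≤ b ∧ ∀ (g' : ℕ) (G' : Matrix (Fin g') (Fin (Mo n b).card)
      (MvPolynomial (Fin (N + 1)) K)), IsRows A H b G' → ∀ c : Fin (Mo n b).card,
      (Pi.single c 1 : Fin (Mo n b).card → L) ∈
        Submodule.span L (Set.range fun i l => aeval (A.x P₀) (G' i l)) ⊔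
        Submodule.span L (Set.range fun z : Fin (Mo n (b - d)).card × κ =>
          cf b (mn L n (b - d) z.1 * Q z.2)) := by
  classical
  have hgr := R1_fib A H hH P₀
  obtain ⟨k₀, hk₀⟩ := R3_pow hd (fib A H P₀) hgr (fun j => Q ((Fintype.equivFin κ).symm j))
    (fun j => hQ _) (fun X h1 h2 => h0 X h1 fun j => by
      have h3 := h2 (Fintype.equivFin κ j)
      rwa [Equiv.symm_apply_apply] at h3)
  obtain ⟨b, hb⟩ : ∃ b, b = n * k₀ + d := ⟨_, rfl⟩
  refine ⟨b, by omega, fun g' G' hG' c => ?_⟩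
  obtain ⟨l, hl⟩ : ∃ l, k₀ ≤ mo n b c l := by
    by_contra hcon
    push Not at hcon
    have h1 : ∑ l, mo n b c l ≤ ∑ _l : Fin n, k₀ :=
      Finset.sum_le_sum fun l _ => (hcon l).le
    rw [mo_sum, Finset.sum_const, Finset.card_univ, Fintype.card_fin, smul_eq_mul] at h1
    omega
  have h1 : mn L n b c ∈ fib A H P₀ ⊔
      Ideal.span (Set.range fun j => Q ((Fintype.equivFin κ).symm j)) := by
    unfold mn
    rw [← Finset.mul_prod_erase _ _ (Finset.mem_univ l)]
    exact Ideal.mul_mem_right _ _ (hk₀ _ hl l)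
  obtain ⟨g, hg, g₁, hg₁, hgg⟩ := Submodule.mem_sup.1 h1
  have hdb : d ≤ b := by omega
  have h2 : cf b (mn L n b c) = (Pi.single c 1 : Fin (Mo n b).card → L) := by
    funext c'
    unfold cf
    rw [R3_mn, coeff_monomial]
    by_cases hc : c = c'
    · rw [hc, if_pos rfl, Pi.single_eq_same]
    · rw [if_neg, Pi.single_eq_of_ne (Ne.symm hc)]
      intro h3
      exact hc (mo_inj (Finsupp.equivFunOnFinite.symm.injective h3))
  rw [← h2, ← hgg, ← cfl_apply, map_add]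
  refine Submodule.add_mem_sup ?_ ?_
  · have h3 : cfl L n b g = cf b (homogeneousComponent b g) := by
      funext c'
      show coeff (Finsupp.equivFunOnFinite.symm (mo n b c')) g = _
      unfold cf
      rw [coeff_homogeneousComponent, if_pos (mo_degree c')]
    rw [h3]
    exact ((hG'.2.1 L P₀ hP₀).2 _ (homogeneousComponent_isHomogeneous b g)).1 (hgr g hg b)
  · rw [Ideal.mem_span_range_iff_exists_fun] at hg₁
    obtain ⟨c₁, hc₁⟩ := hg₁
    rw [← hc₁, map_sum]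
    refine Submodule.sum_mem _ fun j _ => ?_
    refine Submodule.span_mono ?_ (R1_cf_mul (hQ ((Fintype.equivFin κ).symm j)) hdb (c₁ j))
    rintro _ ⟨μ, rfl⟩
    exact ⟨(μ, (Fintype.equivFin κ).symm j), rfl⟩

variable {A} (T : Tor A q p)

theorem Ra_mn_BH (n e : ℕ) (i : Fin (Mo n e).card) :
    BH 0 e (mn (MvPolynomial (Fin (N + 1)) K) n e i) := by
  classical
  constructor
  · rw [R3_mn]
    exact isHomogeneous_monomial 1 (mo_degree i)
  · intro μ
    rw [R3_mn, coeff_monomial]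
    split_ifs
    · exact isHomogeneous_one _ _
    · exact isHomogeneous_zero _ _ _

theorem Ra_mn_sp {L : Type u} [Field L] [Algebra K L] (P : A.Pts L) {e : ℕ}
    (i : Fin (Mo n e).card) : sp A P (mn (MvPolynomial (Fin (N + 1)) K) n e i) = mn L n e i := by
  unfold sp
  rw [R3_mn, R3_mn, map_monomial]
  congr 1
  exact map_one _

theorem Ra_mn_ne (n e : ℕ) (i : Fin (Mo n e).card) :
    mn (MvPolynomial (Fin (N + 1)) K) n e i ≠ 0 := by
  rw [R3_mn]
  intro h
  rw [monomial_eq_zero] at h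
  exact one_ne_zero h

/-- The multiple of one equation. -/
noncomputable def RaF (e : ℕ) (F : Fin s → Fin w → Pol K N q p n)
    (z : Fin (Mo n e).card × (Fin s × Fin w)) : Pol K N q p n :=
  C (mn (MvPolynomial (Fin (N + 1)) K) n e z.1) * F z.2.1 z.2.2

theorem RaF_BG {D d b : ℕ} (hdb : d ≤ b) {F : Fin s → Fin w → Pol K N q p n}
    (hF : ∀ j l, BG T D d (F j l)) (z : Fin (Mo n (b - d)).card × (Fin s × Fin w)) :
    BG T D b (RaF (b - d) F z) := by
  have h1 := BG_mul (BG_C T (Ra_mn_BH (K := K) (N := N) n (b - d) z.1)) (hF z.2.1 z.2.2)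
  rw [zero_add, Nat.sub_add_cancel hdb] at h1
  exact h1

theorem RaF_sp {L : Type u} [Field L] [Algebra K L] (P : A.Pts L) (y : Fin q × Fin p → L) (e : ℕ)
    (F : Fin s → Fin w → Pol K N q p n) (z : Fin (Mo n e).card × (Fin s × Fin w)) :
    spG P y (RaF e F z) = mn L n e z.1 * spG P y (F z.2.1 z.2.2) := by
  unfold RaF
  rw [spG_mul, spG_C, Ra_mn_sp]

theorem R_oneG {t D d : ℕ} (ht : 0 < t) (hd : 0 < d)
    (H : Fin m → MvPolynomial (Fin n) (MvPolynomial (Fin (N + 1)) K))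
    (hH : ∀ i, ∃ a b : ℕ, BH a b (H i)) (f : Fin s → Fin w → Pol K N q p n)
    (hf : ∀ j l, BG T D d (f j l)) {L : Type u} [Field L] [IsAlgClosed L] [Algebra K L]
    (P₀ : A.Pts L) (y₀ : Fin q × Fin p → L) (h₀ : GenB T P₀ y₀) (hpr : (fib A H P₀).IsPrime)
    (htr : Algebra.trdeg L (MvPolynomial (Fin n) L ⧸ fib A H P₀) = t) (τ₀ : Fin q → ℝ)
    (U : Finset (Fin s)) (hU : CodA (fib A H P₀) t (spG P₀ y₀ '' cutB f τ₀ U) t) :
    ∃ (R : MvPolynomial (Fin q × Fin p) (MvPolynomial (Fin (N + 1)) K)) (ρ : ℕ),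
      T.WH ρ R ∧ T.NZ R ∧
      ∀ (v : AbsoluteValue K ℝ), ∃ C : ℝ, 0 ≤ C ∧ ∀ (P : A.Pts K) (y : Fin q × Fin p → K),
        T.On P y →
        (∀ j ∈ U, ∀ l, partWt (T.tau v P y) (maxWt (T.tau v P y) (f j)) (f j l) =
          partWt τ₀ (maxWt τ₀ (f j)) (f j l)) →
        ∀ X : Fin n → K, X ≠ 0 → (∀ i, eval X (sp A P (H i)) = 0) → ev P y R ≠ 0 →
          ∃ j ∈ U, (∃ l, eval X (spG P y (f j l)) ≠ 0) ∧
            lamB T v D d (f j) P y X ≤
              T.lam v ρ (fun _ : Fin 1 => R) P y (fun _ => 1) + C := by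
  classical
  have hgen : Gen A P₀ := h₀.1
  have hgr := R1_fib A H hH P₀
  obtain ⟨f₁, hf₁⟩ : ∃ f₁ : Fin s → Fin w → Pol K N q p n, ∀ j l,
      f₁ j l = if j ∈ U then partWt τ₀ (maxWt τ₀ (f j)) (f j l) else 0 := ⟨_, fun _ _ => rfl⟩
  have hf₁B : ∀ j l, BG T D d (f₁ j l) := by
    intro j l
    rw [hf₁]
    split_ifs
    · exact BG_partWt (hf j l) _ _
    · exact BG_zero T D d
  obtain ⟨b, hdb, hspan⟩ := Ra_span A H hH P₀ hgen hd
    (fun z : Fin s × Fin w => spG P₀ y₀ (f₁ z.1 z.2)) (fun z => spG_hom P₀ y₀ (hf₁B _ _))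
    (fun X h1 h2 => by
      refine CodA_zero hgr (d := d) ?_ hU h1 ?_
      · rintro _ ⟨_, ⟨j, _, l, rfl⟩, rfl⟩
        exact spG_hom P₀ y₀ (BG_partWt (hf j l) _ _)
      · rintro _ ⟨_, ⟨j, hj, l, rfl⟩, rfl⟩
        have h3 := h2 (j, l)
        have h4 : f₁ j l = partWt τ₀ (maxWt τ₀ (f j)) (f j l) := by rw [hf₁, if_pos hj]
        rw [← h4]
        exact h3)
  obtain ⟨g', G', hG'⟩ := T_rows A H hH b
  obtain ⟨ι, hι⟩ : ∃ ι : ℕ, ι = Fintype.card (Fin (Mo n (b - d)).card × (Fin s × Fin w)) :=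
    ⟨_, rfl⟩
  obtain ⟨σ⟩ : Nonempty ((Fin (Mo n (b - d)).card × (Fin s × Fin w)) ≃ Fin ι) := by
    rw [hι]
    exact ⟨Fintype.equivFin _⟩
  -- the basis
  obtain ⟨W, hW⟩ : ∃ W : Fin ι → Fin (Mo n b).card → L, ∀ j,
      W j = cf b (spG P₀ y₀ (RaF (b - d) f₁ (σ.symm j))) := ⟨_, fun _ => rfl⟩
  obtain ⟨V, hV⟩ : ∃ V : Fin g' → Fin (Mo n b).card → L,
      V = fun i l => aeval (A.x P₀) (G' i l) := ⟨_, rfl⟩
  have hVli : LinearIndependent L V := by
    rw [hV]
    exact (hG'.2.1 L P₀ hgen).1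
  obtain ⟨J, hJli, hJc⟩ := Ra_ext V hVli W (by
      intro c
      have h1 := hspan g' G' hG' c
      rw [← hV] at h1
      have h2 : Submodule.span L (Set.range V) ⊔
          Submodule.span L (Set.range fun z : Fin (Mo n (b - d)).card × (Fin s × Fin w) =>
            cf b (mn L n (b - d) z.1 * spG P₀ y₀ (f₁ z.2.1 z.2.2))) ≤
          Submodule.span L (Set.range V) ⊔ Submodule.span L (Set.range W) := by
        refine sup_le_sup le_rfl (Submodule.span_mono ?_)
        rintro _ ⟨z, rfl⟩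
        refine ⟨σ z, ?_⟩
        rw [hW, Equiv.symm_apply_apply, RaF_sp]
      exact h2 h1)
  -- it is not only the rows
  have hr : 0 < J.card := by
    rcases Nat.eq_zero_or_pos J.card with h1 | h1
    · exfalso
      rw [h1, add_zero] at hJc
      obtain ⟨l, hl⟩ := exists_X_notMem (fib A H P₀) ht htr
      apply hl
      have h3 := hVli.span_eq_top_of_card_eq_finrank' (by
        rw [Fintype.card_fin, Module.finrank_fin_fun]
        exact hJc)
      have h4 := ((hG'.2.1 L P₀ hgen).2 (X l ^ b) (isHomogeneous_X_pow l b)).2 (by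
        rw [← hV, h3]
        exact Submodule.mem_top)
      exact hpr.mem_of_pow_mem _ h4
    · exact h1
  -- the leading parts
  have hlead : ∀ τ : Fin q → ℝ, (∀ j ∈ U, ∀ l, partWt τ (maxWt τ (f j)) (f j l) =
      partWt τ₀ (maxWt τ₀ (f j)) (f j l)) → ∀ z ∈ J,
      (σ.symm z).2.1 ∈ U ∧
        mx τ (f (σ.symm z).2.1 (σ.symm z).2.2) = maxWt τ (f (σ.symm z).2.1) ∧
        ∀ l, partWt τ (maxWt τ (cfG b (RaF (b - d) f (σ.symm z)))) (cfG b (RaF (b - d) f (σ.symm z)) l) =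
          cfG b (RaF (b - d) f₁ (σ.symm z)) l := by
    intro τ hτ z hz
    have h1 := hJli.ne_zero (Sum.inr ⟨z, hz⟩)
    rw [Sum.elim_inr, hW] at h1
    obtain ⟨x, hx⟩ : ∃ x, x = σ.symm z := ⟨_, rfl⟩
    rw [← hx] at h1 ⊢
    have h2 : f₁ x.2.1 x.2.2 ≠ 0 := by
      intro h3
      apply h1
      unfold RaF
      rw [h3, mul_zero, ← spH_apply, map_zero, ← cfl_apply, map_zero]
    have h3 : x.2.1 ∈ U := by
      by_contra h4
      exact h2 (by rw [hf₁, if_neg h4])
    have h4 : f₁ x.2.1 x.2.2 = partWt τ (maxWt τ (f x.2.1)) (f x.2.1 x.2.2) := by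
      rw [hf₁, if_pos h3, hτ _ h3]
    have h5 : mx τ (f x.2.1 x.2.2) = maxWt τ (f x.2.1) :=
      mx_of τ (fun a ha => le_maxWt τ ha) (by rw [← h4]; exact h2)
    have h6 : ld τ (f x.2.1 x.2.2) = f₁ x.2.1 x.2.2 := by
      unfold ld
      rw [h5, h4]
    refine ⟨h3, h5, fun l => ?_⟩
    rw [partWt_cfG (RaF_BG T hdb hf x)]
    unfold RaF
    rw [ld_mul, ld_C, h6]
  have hind : ∀ τ : Fin q → ℝ, (∀ j ∈ U, ∀ l, partWt τ (maxWt τ (f j)) (f j l) =
      partWt τ₀ (maxWt τ₀ (f j)) (f j l)) →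
      T.Ind G' (fun z l => cfG b (RaF (b - d) f (σ.symm z)) l) τ J := by
    intro τ hτ L' _ _ P hP
    obtain ⟨D', hD'⟩ := hG'.1
    have h1 := G_li T G' hD' (fun z l => cfG b (RaF (b - d) f₁ (σ.symm z)) l)
      (fun z l => cfG_WH (RaF_BG T hdb hf₁B (σ.symm z)) l) J P₀ y₀ h₀ (by
        have h2 : (fun (j : J) (l : Fin (Mo n b).card) =>
            ev P₀ y₀ (cfG b (RaF (b - d) f₁ (σ.symm j)) l)) = fun j : J => W j := by
          funext j l
          rw [hW, cf_spG]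
        rw [h2, ← hV]
        exact hJli) P hP
    have h3 : (fun (j : J) (l : Fin (Mo n b).card) => T.sp P
        (partWt τ (maxWt τ (fun l => cfG b (RaF (b - d) f (σ.symm j)) l))
          (cfG b (RaF (b - d) f (σ.symm j)) l))) =
        fun (j : J) (l : Fin (Mo n b).card) => T.sp P (cfG b (RaF (b - d) f₁ (σ.symm j)) l) := by
      funext j l
      have h4 := (hlead τ hτ j j.2).2.2 l
      rw [← h4]
    rw [h3]
    exact h1
  obtain ⟨D', hD'⟩ := hG'.1
  obtain ⟨R, ρ, hR1, hR2, hR3⟩ := TB.R_gen T hJc hr G' hD'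
    (fun z l => cfG b (RaF (b - d) f (σ.symm z)) l)
    (fun z l => cfG_WH (RaF_BG T hdb hf (σ.symm z)) l) J rfl ⟨τ₀, hind τ₀ fun _ _ _ => rfl⟩
  refine ⟨R, ρ, hR1, hR2, fun v => ?_⟩
  obtain ⟨C₁, hC₁⟩ := hR3 v
  refine ⟨max C₁ 0, le_max_right _ _, fun P y hy hτ X hX hXH hR => ?_⟩
  obtain ⟨z, hz, hne, hle⟩ := hC₁ P y hy (hind _ hτ) (ver b X) (ver_ne hX) (hG'.2.2 K P X hXH) hR
  obtain ⟨h1, h2, -⟩ := hlead _ hτ z hz
  obtain ⟨x, hx⟩ : ∃ x, x = σ.symm z := ⟨_, rfl⟩
  rw [← hx] at hne h1 h2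
  have hle' : T.lam v D (cfG b (RaF (b - d) f x)) P y (ver b X) ≤
      T.lam v ρ (fun _ : Fin 1 => R) P y (fun _ => 1) + C₁ := by
    rw [hx]
    exact hle
  rw [sum_cfG P y (RaF_BG T hdb hf x) X, RaF_sp, map_mul] at hne
  rw [lam_ver T v (RaF_BG T hdb hf x) P y hX] at hle'
  have hne1 := left_ne_zero_of_mul hne
  have hne2 := right_ne_zero_of_mul hne
  refine ⟨x.2.1, h1, ⟨x.2.2, hne2⟩, ?_⟩
  unfold lam1 at hle'
  unfold lamB
  rw [RaF_sp, map_mul, map_mul, Real.log_mul (v.ne_zero hne1) (v.ne_zero hne2)] at hle'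
  have h3 : mx (T.tau v P y) (RaF (b - d) f x) = maxWt (T.tau v P y) (f x.2.1) := by
    unfold RaF
    have h4 : (f x.2.1 x.2.2) ≠ 0 := by
      intro h5
      apply hne2
      rw [h5, ← spH_apply, map_zero, map_zero]
    rw [mx_mul, mx_C, zero_add, h2]
    · intro h5
      rw [C_eq_zero] at h5
      exact Ra_mn_ne n (b - d) x.1 h5
    · exact h4
  rw [h3] at hle'
  have h4 : Real.log (v (eval X (mn K n (b - d) x.1))) ≤
      ((b : ℝ) - d) * Real.log (⨆ l, v (X l)) := by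
    have h5 : eval X (mn K n (b - d) x.1) = ∏ l, X l ^ mo n (b - d) x.1 l := by
      unfold mn
      rw [map_prod]
      exact Finset.prod_congr rfl fun l _ => by rw [map_pow, eval_X]
    have h6 := R2_mono v X (mo n (b - d) x.1)
    rw [← h5, mo_sum] at h6
    have h7 := Real.log_le_log (v.pos hne1) h6
    rw [Real.log_pow, Nat.cast_sub hdb] at h7
    exact h7
  have h5 : Real.log (v (eval X (spG P y (f x.2.1 x.2.2)))) ≤
      Real.log (⨆ l, v (eval X (spG P y (f x.2.1 l)))) :=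
    Real.log_le_log (v.pos hne2) (le_ciSup (f := fun l => v (eval X (spG P y (f x.2.1 l))))
      (Set.finite_range _).bddAbove x.2.2)
  have h6 := le_max_left C₁ 0
  linarith

end

end Pool.Agent.Lib.MP_17a322_nt.EG
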