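import Pool.Agent.Lib.MP_17a322_nt.EG.B1
import Pool.Agent.Lib.MP_17a322_nt.EG.L1
import Pool.Agent.Lib.MP_17a322_nt.EG.G1
import Pool.Agent.Lib.MP_17a322_nt.EG.E1
import Pool.Agent.Lib.MP_17a322_nt.TB.M1
import Pool.Agent.Lib.MP_17a322_nt.EF.W4
import Pool.Agent.Lib.MP_17a322_nt.EF.W6

/-!
Closed subschemes over torus bundles: the inequality for the forms `X ^ ν * Q ^ e`.
-/

universe u

namespace Pool.Agent.Lib.MP_17a322_nt.EG

open MvPolynomial Height
open Pool.Agent.Lib.MP_17a322_nt.VA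
open Pool.Agent.Lib.MP_17a322_nt.SL
open Pool.Agent.Lib.MP_17a322_nt.EF (BH fib sp Mo mo ver cf IsRows fam fm mn rk slope wgt SS x_ne'
  wgt_eq ver_ne ver_height cfl cfl_apply)
open Pool.Agent.Lib.MP_17a322_nt.TB (Tor ev supp wt maxWt partWt)

theorem Wa_li {L : Type*} [Field L] {ι : Type*} [Fintype ι] {g n : ℕ} (v : Fin g → Fin n → L)
    (hv : LinearIndependent L v) (u : ι → Fin n → L)
    (h : ∀ b : ι → L, ∑ j, b j • u j ∈ Submodule.span L (Set.range v) → ∀ j, b j = 0) :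
    LinearIndependent L (Sum.elim v u) := by
  rw [Fintype.linearIndependent_iff]
  intro c hc
  rw [Fintype.sum_sum_type] at hc
  simp only [Sum.elim_inl, Sum.elim_inr] at hc
  have h1 : ∑ j, c (Sum.inr j) • u j ∈ Submodule.span L (Set.range v) := by
    have h2 : ∑ j, c (Sum.inr j) • u j = - ∑ i, c (Sum.inl i) • v i := by
      rw [eq_neg_iff_add_eq_zero, add_comm]
      exact hc
    rw [h2]
    exact Submodule.neg_mem _ (Submodule.sum_mem _ fun i _ =>
      Submodule.smul_mem _ _ (Submodule.subset_span ⟨i, rfl⟩))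
  have h3 := h (fun j => c (Sum.inr j)) h1
  have h4 : ∑ i, c (Sum.inl i) • v i = 0 := by
    have h5 : ∑ j, c (Sum.inr j) • u j = 0 := Finset.sum_eq_zero fun j _ => by
      have h6 : c (Sum.inr j) = 0 := h3 j
      rw [h6, zero_smul]
    rw [h5, add_zero] at hc
    exact hc
  have h5 := Fintype.linearIndependent_iff.1 hv (fun i => c (Sum.inl i)) h4
  rintro (i | j)
  · exact h5 i
  · exact h3 j

section

variable {n t d k e : ℕ}

/-- The pairs of an index and a member of its family. -/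
abbrev IdG (M : Fin e → Finset (Fin n → ℕ)) (t d k : ℕ) : Type :=
  Σ a : Fin e, {z // z ∈ fam (M a) t d k}

/-- The enumeration of the pairs. -/
noncomputable def ixG (M : Fin e → Finset (Fin n → ℕ)) (t d k : ℕ) :
    IdG M t d k ≃ Fin (Fintype.card (IdG M t d k)) :=
  Fintype.equivFin _

/-- The indices of the pairs with the first entry `a`. -/
noncomputable def JxG (M : Fin e → Finset (Fin n → ℕ)) (t d k : ℕ) (a : Fin e) :
    Finset (Fin (Fintype.card (IdG M t d k))) :=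
  Finset.univ.filter fun i => ((ixG M t d k).symm i).1 = a

theorem mem_JxG {M : Fin e → Finset (Fin n → ℕ)} {a : Fin e}
    (z : {z // z ∈ fam (M a) t d k}) : ixG M t d k ⟨a, z⟩ ∈ JxG M t d k a := by
  unfold JxG
  rw [Finset.mem_filter]
  refine ⟨Finset.mem_univ _, ?_⟩
  rw [Equiv.symm_apply_apply]

theorem JxG_exists {M : Fin e → Finset (Fin n → ℕ)} {a : Fin e}
    {i : Fin (Fintype.card (IdG M t d k))} (hi : i ∈ JxG M t d k a) :
    ∃ z : {z // z ∈ fam (M a) t d k}, i = ixG M t d k ⟨a, z⟩ := by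
  unfold JxG at hi
  rw [Finset.mem_filter] at hi
  obtain ⟨_, hi⟩ := hi
  subst hi
  exact ⟨((ixG M t d k).symm i).2, ((ixG M t d k).apply_symm_apply i).symm⟩

theorem sum_JxG {B : Type*} [AddCommMonoid B] (M : Fin e → Finset (Fin n → ℕ)) (a : Fin e)
    (f : Fin (Fintype.card (IdG M t d k)) → B) :
    ∑ i ∈ JxG M t d k a, f i =
      ∑ z : {z // z ∈ fam (M a) t d k}, f (ixG M t d k ⟨a, z⟩) := by
  classical
  refine (Finset.sum_bij (fun z _ => ixG M t d k ⟨a, z⟩) ?_ ?_ ?_ ?_).symm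
  · intro z _
    exact mem_JxG z
  · intro z _ z' _ h
    have h1 := (ixG M t d k).injective h
    exact eq_of_heq (Sigma.mk.inj_iff.1 h1).2
  · intro i hi
    obtain ⟨z, h⟩ := JxG_exists hi
    exact ⟨z, Finset.mem_univ _, h.symm⟩
  · intro z _
    rfl

end

section

variable {K : Type u} [Field K] {N q p n m s w e : ℕ} {A : AV K N} (T : Tor A q p)

/-- The forms with the indices `(a, z)`. -/
noncomputable def PhG (x : Fin (N + 1)) (D : ℕ) {t d k : ℕ} (Q : Fin e → Fin t → Pol K N q p n)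
    (M : Fin e → Finset (Fin n → ℕ)) (i : Fin (Fintype.card (IdG M t d k))) : Pol K N q p n :=
  LamG x D k (Q ((ixG M t d k).symm i).1) ((ixG M t d k).symm i).2.1

theorem PhG_ix (x : Fin (N + 1)) (D : ℕ) {t d k : ℕ} (Q : Fin e → Fin t → Pol K N q p n)
    (M : Fin e → Finset (Fin n → ℕ)) (a : Fin e) (z : {z // z ∈ fam (M a) t d k}) :
    PhG x D Q M (ixG M t d k ⟨a, z⟩) = LamG x D k (Q a) z.1 := by
  unfold PhG
  rw [Equiv.symm_apply_apply]

variable {T}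

theorem PhG_BG (x : Fin (N + 1)) {D t d k : ℕ} (hd : 0 < d) (Q : Fin e → Fin t → Pol K N q p n)
    (hQ : ∀ a i, BG T D d (Q a i)) (M : Fin e → Finset (Fin n → ℕ))
    (i : Fin (Fintype.card (IdG M t d k))) : BG T (D * k) k (PhG x D Q M i) := by
  unfold PhG
  exact LamG_BG hd (fun j => hQ _ j) ((ixG M t d k).symm i).2.2

theorem PhG_ind (H : Fin m → MvPolynomial (Fin n) (MvPolynomial (Fin (N + 1)) K)) {k g' : ℕ}
    (G' : Matrix (Fin g') (Fin (Mo n k).card) (MvPolynomial (Fin (N + 1)) K))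
    (hG' : IsRows A H k G') (x : Fin (N + 1)) {D t d : ℕ} (hd : 0 < d)
    (Q Q₀ : Fin e → Fin t → Pol K N q p n) (hQ : ∀ a i, BG T D d (Q a i))
    (hQ₀ : ∀ a i, BG T D d (Q₀ a i)) (M : Fin e → Finset (Fin n → ℕ)) {L : Type u} [Field L]
    [Algebra K L] (P₀ : A.Pts L) (y₀ : Fin q × Fin p → L) (h₀ : GenB T P₀ y₀)
    (hx : A.x P₀ x ≠ 0) (a : Fin e)
    (h : ∀ b : (Fin n → ℕ) × (Fin t → ℕ) → L,
      ∑ z ∈ fam (M a) t d k, C (b z) * fm (fun j => spG P₀ y₀ (Q₀ a j)) z ∈ fib A H P₀ →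
        ∀ z ∈ fam (M a) t d k, b z = 0) (τ : Fin q → ℝ) (hτ : ∀ i, ld τ (Q a i) = Q₀ a i) :
    T.Ind G' (fun i l => cfG k (PhG (t := t) (d := d) x D Q M i) l) τ (JxG M t d k a) := by
  classical
  intro L' _ _ P hP
  obtain ⟨D', hD'⟩ := hG'.1
  obtain ⟨J, hJ⟩ : ∃ J, J = JxG M t d k a := ⟨_, rfl⟩
  have hgen : Gen A P₀ := h₀.1
  have hli : LinearIndependent L (Sum.elim (fun (i : Fin g') l => aeval (A.x P₀) (G' i l))
      fun (j : J) (l : Fin (Mo n k).card) =>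
        ev P₀ y₀ (cfG k (PhG (t := t) (d := d) x D Q₀ M j.1) l)) := by
    refine Wa_li _ (hG'.2.1 L P₀ hgen).1 _ fun b hb j => ?_
    obtain ⟨c, hc⟩ : ∃ c : (Fin n → ℕ) × (Fin t → ℕ) → L, c = fun z =>
        if hz : z ∈ fam (M a) t d k then
          b ⟨ixG M t d k ⟨a, ⟨z, hz⟩⟩, by rw [hJ]; exact mem_JxG _⟩ *
            A.x P₀ x ^ (D * (k - ∑ j, z.2 j)) else 0 := ⟨_, rfl⟩
    have h1 : ∑ j : J, b j • (fun l => ev P₀ y₀ (cfG k (PhG (t := t) (d := d) x D Q₀ M j.1) l)) =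
        cf k (∑ j : J, C (b j) * spG P₀ y₀ (PhG (t := t) (d := d) x D Q₀ M j.1)) := by
      rw [← cfl_apply, map_sum]
      refine Finset.sum_congr rfl fun j _ => ?_
      rw [← smul_eq_C_mul, map_smul, cfl_apply]
      refine congrArg (HSMul.hSMul (b j)) ?_
      funext l
      rw [cf_spG]
    have h2 : ∑ j : J, C (b j) * spG P₀ y₀ (PhG (t := t) (d := d) x D Q₀ M j.1) =
        ∑ z ∈ fam (M a) t d k, C (c z) * fm (fun j => spG P₀ y₀ (Q₀ a j)) z := by
      rw [← Finset.sum_coe_sort (fam (M a) t d k)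
        (fun z => C (c z) * fm (fun j => spG P₀ y₀ (Q₀ a j)) z)]
      symm
      refine Finset.sum_bij (fun z _ => (⟨ixG M t d k ⟨a, z⟩, by rw [hJ]; exact mem_JxG _⟩ : J))
        (fun _ _ => Finset.mem_univ _) ?_ ?_ ?_
      · intro z _ z' _ hzz
        have h3 := (ixG M t d k).injective (congrArg Subtype.val hzz)
        exact eq_of_heq (Sigma.mk.inj_iff.1 h3).2
      · rintro ⟨i, hi⟩ _
        rw [hJ] at hi
        obtain ⟨z, hz⟩ := JxG_exists hi
        exact ⟨z, Finset.mem_univ _, Subtype.ext hz.symm⟩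
      · intro z _
        rw [PhG_ix, LamG_sp, hc]
        simp only [z.2, dif_pos, map_mul]
        ring
    have h3 : (∑ j : J, C (b j) *
        spG P₀ y₀ (PhG (t := t) (d := d) x D Q₀ M j.1)).IsHomogeneous k := by
      refine IsHomogeneous.sum _ _ _ fun j _ => ?_
      have h4 := (isHomogeneous_C (Fin n) (b j)).mul (spG_hom P₀ y₀ (PhG_BG x hd Q₀ hQ₀ M j.1))
      rwa [zero_add] at h4
    rw [h1, ← (hG'.2.1 L P₀ hgen).2 _ h3, h2] at hb
    have h4 := h c hb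
    obtain ⟨i, hi⟩ := j
    obtain ⟨z, hz⟩ := JxG_exists (hJ ▸ hi)
    have h5 := h4 z.1 z.2
    rw [hc] at h5
    simp only [z.2, dif_pos] at h5
    have h6 := (mul_eq_zero.1 h5).resolve_right (pow_ne_zero _ hx)
    rw [← h6]
    exact congrArg b (Subtype.ext hz)
  have h1 := G_li T G' hD' (fun i l => cfG k (PhG (t := t) (d := d) x D Q₀ M i) l)
    (fun i l => cfG_WH (PhG_BG x hd Q₀ hQ₀ M i) l) J P₀ y₀ h₀ hli P hP
  rw [← hJ]
  have h2 : (fun (j : J) (l : Fin (Mo n k).card) => T.sp P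
      (partWt τ (maxWt τ (fun l => cfG k (PhG (t := t) (d := d) x D Q M j.1) l))
        (cfG k (PhG (t := t) (d := d) x D Q M j.1) l))) =
      fun (j : J) (l : Fin (Mo n k).card) =>
        T.sp P (cfG k (PhG (t := t) (d := d) x D Q₀ M j.1) l) := by
    funext j l
    obtain ⟨i, hi⟩ := j
    obtain ⟨z, hz⟩ := JxG_exists (hJ ▸ hi)
    show T.sp P (partWt τ (maxWt τ (cfG k (PhG (t := t) (d := d) x D Q M i)))
        (cfG k (PhG (t := t) (d := d) x D Q M i) l)) =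
      T.sp P (cfG k (PhG (t := t) (d := d) x D Q₀ M i) l)
    rw [partWt_cfG (PhG_BG x hd Q hQ M i), hz, PhG_ix, PhG_ix, LamG_ld]
    have h3 : (fun j => ld τ (Q a j)) = Q₀ a := funext hτ
    rw [h3]
  rw [h2]
  exact h1

end

section

variable {K : Type u} [Field K] {N q p n m s w : ℕ} {A : AV K N} (T : Tor A q p)

/-- The sum of the local heights over the family of `a`. -/
theorem Wa_sum {x : Fin (N + 1)} {D d k t e : ℕ} (ht : 0 < t) (hd : 0 < d)
    (Q : Fin e → Fin t → Pol K N q p n) (hQ : ∀ a i, BG T D d (Q a i))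
    (M : Fin e → Finset (Fin n → ℕ)) {a : Fin e} (hQa : ∀ i, Q a i ≠ 0)
    (hw : 0 < wgt (M a) t d k) (v : AbsoluteValue K ℝ) (P : A.Pts K) (y : Fin q × Fin p → K)
    {X : Fin n → K} (hX : X ≠ 0)
    (h0 : ∀ i ∈ JxG M t d k a,
      (∑ l, ev P y ((fun i l => cfG k (PhG x D Q M i) l) i l) * ver k X l) ≠ 0) :
    (∀ i, eval X (spG P y (Q a i)) ≠ 0) ∧
      wgt (M a) t d k * ∑ i, lam1 T v D d (Q a i) P y X ≤
        ∑ i ∈ JxG M t d k a, T.lam v (D * k) ((fun i l => cfG k (PhG x D Q M i) l) i) P y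
          (ver k X) := by
  classical
  have h1 : ∀ z ∈ fam (M a) t d k,
      (∀ j, 0 < z.2 j → eval X (spG P y (Q a j)) ≠ 0) ∧
      ∑ j, (z.2 j : ℝ) * lam1 T v D d (Q a j) P y X ≤
        lam1 T v (D * k) k (LamG x D k (Q a) z) P y X := by
    intro z hz
    refine LamG_ge hd (fun j => hQ a j) hQa hz v P y hX ?_
    have h2 : (∑ l, ev P y (cfG k (PhG x D Q M (ixG M t d k ⟨a, ⟨z, hz⟩⟩)) l) * ver k X l) ≠ 0 :=
      h0 _ (mem_JxG ⟨z, hz⟩)
    rw [sum_cfG P y (PhG_BG x hd Q hQ M _) X, PhG_ix] at h2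
    exact h2
  constructor
  · intro i
    rw [← wgt_eq (M a) ht d k i] at hw
    obtain ⟨z, hz, hzi⟩ := Finset.exists_ne_zero_of_sum_ne_zero hw.ne'
    exact (h1 z hz).1 i (Nat.pos_of_ne_zero fun h => hzi (by rw [h]; exact Nat.cast_zero))
  · rw [sum_JxG]
    have h4 : ∑ z : {z // z ∈ fam (M a) t d k}, T.lam v (D * k)
        ((fun i l => cfG k (PhG x D Q M i) l) (ixG M t d k ⟨a, z⟩)) P y (ver k X) =
        ∑ z ∈ fam (M a) t d k, lam1 T v (D * k) k (LamG x D k (Q a) z) P y X := by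
      rw [← Finset.sum_coe_sort (fam (M a) t d k)
        (fun z => lam1 T v (D * k) k (LamG x D k (Q a) z) P y X)]
      refine Finset.sum_congr rfl fun z _ => ?_
      show T.lam v (D * k) (cfG k (PhG x D Q M (ixG M t d k ⟨a, z⟩))) P y (ver k X) = _
      rw [lam_ver T v (PhG_BG x hd Q hQ M _) P y hX, PhG_ix]
    rw [h4]
    refine le_trans (le_of_eq ?_) (Finset.sum_le_sum fun z hz => (h1 z hz).2)
    rw [Finset.sum_comm, Finset.mul_sum]
    refine Finset.sum_congr rfl fun j _ => ?_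
    rw [← Finset.sum_mul, wgt_eq (M a) ht d k j]

theorem W_core [NumberField K] (Γ : AddSubgroup (A.Pts K)) (hΓ : Γ.FG) {t D d k : ℕ} (ht : 0 < t) (hd : 0 < d)
    (H : Fin m → MvPolynomial (Fin n) (MvPolynomial (Fin (N + 1)) K))
    (hpr : ∀ (L : Type u) [Field L] [IsAlgClosed L] [Algebra K L] (P : A.Pts L), Gen A P →
      (fib A H P).IsPrime) {e : ℕ}
    (Q Q₀ : Fin e → Fin t → Pol K N q p n) (hQ : ∀ a i, BG T D d (Q a i))
    (hQ₀ : ∀ a i, BG T D d (Q₀ a i)) {L : Type u} [Field L] [Algebra K L] (P₀ : A.Pts L)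
    (y₀ : Fin q × Fin p → L) (h₀ : GenB T P₀ y₀) {g' r' : ℕ}
    (G' : Matrix (Fin g') (Fin (Mo n k).card) (MvPolynomial (Fin (N + 1)) K))
    (hG' : IsRows A H k G') (hgr : g' + r' = (Mo n k).card) (hr : 0 < r')
    (M : Fin e → Finset (Fin n → ℕ))
    (hM : ∀ a, 0 < wgt (M a) t d k ∧ (∀ i, spG P₀ y₀ (Q₀ a i) ≠ 0) ∧
      ∀ b : (Fin n → ℕ) × (Fin t → ℕ) → L,
        ∑ z ∈ fam (M a) t d k, C (b z) * fm (fun j => spG P₀ y₀ (Q₀ a j)) z ∈ fib A H P₀ →
          ∀ z ∈ fam (M a) t d k, b z = 0)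
    (S : Finset (NumberField.FinitePlace K)) {ε : ℝ} (hε : 0 < ε) :
    ∃ (C : ℝ) (F : Pol K N q p n), ExcX T H F ∧
      ∀ P ∈ Γ, ∀ y : Fin q × Fin p → K, T.On P y → ∀ X : Fin n → K, X ≠ 0 →
        (∀ i, eval X (sp A P (H i)) = 0) → eval X (spG P y F) ≠ 0 →
        ∀ (ai : NumberField.InfinitePlace K → Fin e) (af : NumberField.FinitePlace K → Fin e),
          (∀ v i, ld (T.tau v.val P y) (Q (ai v) i) = Q₀ (ai v) i) →
          (∀ v ∈ S, ∀ i, ld (T.tau v.val P y) (Q (af v) i) = Q₀ (af v) i) →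
          ((∀ v i, eval X (spG P y (Q (ai v) i)) ≠ 0) ∧
            ∀ v ∈ S, ∀ i, eval X (spG P y (Q (af v) i)) ≠ 0) ∧
          SS S (fun v => wgt (M (ai v)) t d k * ∑ i, lam1 T v.val D d (Q (ai v) i) P y X)
            (fun v => wgt (M (af v)) t d k * ∑ i, lam1 T v.val D d (Q (af v) i) P y X) +
            hE A G' P ≤
            r' * (k * logHeight X) +
              ε * (k * logHeight X + logHeight (A.x P) + ∑ i, T.ht P y i) +
              C * (1 + T.NS S P y) := by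
  classical
  obtain ⟨x, hx⟩ := x_ne' A P₀
  obtain ⟨D', hD'⟩ := hG'.1
  obtain ⟨C, F, hF, hmain⟩ := TB.M_core T Γ hΓ hgr hr (D * k) D' G' hD'
    (fun i l => cfG k (PhG (d := d) x D Q M i) l)
    (fun i l => cfG_WH (PhG_BG x hd Q hQ M i) l) S ε hε
  refine ⟨C, pullG n k F, pullG_exc T H G' hG' hpr F hF, fun P hP y hy X hX hXH hXF ai af hai haf =>
    ?_⟩
  rw [pullG_eval] at hXF
  have hne : ∀ (τ : Fin q → ℝ) (a : Fin e), (∀ i, ld τ (Q a i) = Q₀ a i) → ∀ i, Q a i ≠ 0 := by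
    intro τ a h i h1
    apply (hM a).2.1 i
    rw [← h i, h1]
    unfold ld
    have h2 : partWt τ (mx τ (0 : Pol K N q p n)) (0 : Pol K N q p n) = 0 := by
      unfold partWt
      rw [support_zero, Finset.filter_empty, Finset.sum_empty]
    rw [h2, ← spH_apply, map_zero]
  obtain ⟨h1, h2⟩ := hmain P hP y hy (ver k X) (ver_ne hX) (hG'.2.2 K P X hXH) hXF
    (fun v => JxG M t d k (ai v)) (fun v => JxG M t d k (af v))
    (fun v => PhG_ind H G' hG' x hd Q Q₀ hQ hQ₀ M P₀ y₀ h₀ hx (ai v) (hM _).2.2 _ (hai v))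
    (fun v hv => PhG_ind H G' hG' x hd Q Q₀ hQ hQ₀ M P₀ y₀ h₀ hx (af v) (hM _).2.2 _ (haf v hv))
  rw [ver_height hX] at h2
  have hi : ∀ v : NumberField.InfinitePlace K, _ := fun v =>
    Wa_sum T (x := x) ht hd Q hQ M (hne _ _ (hai v)) (hM _).1 v.val P y hX
      (fun i hi => h1 i (Or.inl ⟨v, hi⟩))
  have hf : ∀ v : NumberField.FinitePlace K, v ∈ S → _ := fun v hv =>
    Wa_sum T (x := x) ht hd Q hQ M (hne _ _ (haf v hv)) (hM _).1 v.val P y hX
      (fun i hi => h1 i (Or.inr ⟨v, hv, hi⟩))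
  refine ⟨⟨fun v => (hi v).1, fun v hv => (hf v hv).1⟩, le_trans ?_ h2⟩
  unfold SS
  refine add_le_add (add_le_add ?_ ?_) le_rfl
  · exact Finset.sum_le_sum fun v _ => mul_le_mul_of_nonneg_left (hi v).2 (Nat.cast_nonneg _)
  · exact Finset.sum_le_sum fun v hv => (hf v hv).2

end

end Pool.Agent.Lib.MP_17a322_nt.EG
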