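import Pool.Agent.Lib.MP_17a322_nt.EG.Defs2
import Pool.Agent.Lib.MP_17a322_nt.EG.A1
import Pool.Agent.Lib.MP_17a322_nt.EG.B1
import Pool.Agent.Lib.MP_17a322_nt.EG.E1
import Pool.Agent.Lib.MP_17a322_nt.EG.L1
import Pool.Agent.Lib.MP_17a322_nt.EG.W1
import Pool.Agent.Lib.MP_17a322_nt.EF.W6
import Pool.Agent.Lib.MP_17a322_nt.EF.T2

/-!
Closed subschemes of a family over a principal torus bundle over `A`: hypersurfaces whose leading parts
have no common zeros.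
-/

universe u

namespace Pool.Agent.Lib.MP_17a322_nt.EG

open MvPolynomial Height
open Pool.Agent.Lib.MP_17a322_nt.VA
open Pool.Agent.Lib.MP_17a322_nt.SL
open Pool.Agent.Lib.MP_17a322_nt.EF (BH fib sp Mo mo ver cf IsRows fam fm mn rk slope wgt SS)
open Pool.Agent.Lib.MP_17a322_nt.TB (Tor ev supp wt maxWt partWt)

section

variable {K : Type u} [Field K] [NumberField K] {N q p n m s w : ℕ} {A : AV K N} (T : Tor A q p)

theorem ht_nonneg (P : A.Pts K) (y : Fin q × Fin p → K) : 0 ≤ ∑ i, T.ht P y i :=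
  Finset.sum_nonneg fun _ _ => logHeight_nonneg _

theorem NS_nonneg (S : Finset (NumberField.FinitePlace K)) (P : A.Pts K)
    (y : Fin q × Fin p → K) : 0 ≤ T.NS S P y :=
  Finset.sum_nonneg fun _ _ => finsum_nonneg fun _ => abs_nonneg _

/-- Hypersurfaces whose leading parts have no common zeros. -/
theorem G_gen (Γ : AddSubgroup (A.Pts K)) (hΓ : Γ.FG) {t D d : ℕ} (ht : 0 < t) (hd : 0 < d)
    (H : Fin m → MvPolynomial (Fin n) (MvPolynomial (Fin (N + 1)) K))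
    (hH : ∀ i, ∃ a b : ℕ, BH a b (H i))
    (hfib : ∀ (L : Type u) [Field L] [IsAlgClosed L] [Algebra K L] (P : A.Pts L), Gen A P →
      (fib A H P).IsPrime ∧ Algebra.trdeg L (MvPolynomial (Fin n) L ⧸ fib A H P) = t) {e : ℕ}
    (Q Q₀ : Fin e → Fin t → Pol K N q p n) (hQ : ∀ a i, BG T D d (Q a i))
    (hQ₀ : ∀ a i, BG T D d (Q₀ a i)) {L : Type u} [Field L] [IsAlgClosed L] [Algebra K L]
    (P₀ : A.Pts L) (y₀ : Fin q × Fin p → L) (h₀ : GenB T P₀ y₀)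
    (hno : ∀ a, ∀ X : Fin n → L, (∀ f ∈ fib A H P₀, eval X f = 0) →
      (∀ i, eval X (spG P₀ y₀ (Q₀ a i)) = 0) → X = 0)
    (S : Finset (NumberField.FinitePlace K)) (σ : A.Pts K → ℝ) (hσ0 : ∀ P, 0 ≤ σ P)
    (hσ : ∀ (k g' r' : ℕ)
      (G' : Matrix (Fin g') (Fin (Mo n k).card) (MvPolynomial (Fin (N + 1)) K)),
      IsRows A H k G' → g' + r' = (Mo n k).card →
      ∃ (R : MvPolynomial (Fin (N + 1)) K) (ρ : ℕ), R.IsHomogeneous ρ ∧ R ∉ A.I ∧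
        ∀ P : A.Pts K, aeval (A.x P) R ≠ 0 → (k : ℝ) * r' * σ P ≤ t * hE A G' P)
    (ε : ℝ) (hε : 0 < ε) :
    ∃ (C : ℝ) (F : Pol K N q p n), ExcX T H F ∧
      ∀ P ∈ Γ, ∀ y : Fin q × Fin p → K, T.On P y → ∀ X : Fin n → K, X ≠ 0 →
        (∀ i, eval X (sp A P (H i)) = 0) → eval X (spG P y F) ≠ 0 →
        ∀ (ai : NumberField.InfinitePlace K → Fin e) (af : NumberField.FinitePlace K → Fin e),
          (∀ v i, ld (T.tau v.val P y) (Q (ai v) i) = Q₀ (ai v) i) →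
          (∀ v ∈ S, ∀ i, ld (T.tau v.val P y) (Q (af v) i) = Q₀ (af v) i) →
          ((∀ v i, eval X (spG P y (Q (ai v) i)) ≠ 0) ∧
            ∀ v ∈ S, ∀ i, eval X (spG P y (Q (af v) i)) ≠ 0) ∧
          1 / (d : ℝ) * SS S (fun v => ∑ i, lam1 T v.val D d (Q (ai v) i) P y X)
            (fun v => ∑ i, lam1 T v.val D d (Q (af v) i) P y X) + σ P ≤
            t * logHeight X + ε * (logHeight X + logHeight (A.x P) + ∑ i, T.ht P y i) +
              C * (1 + T.NS S P y) := by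
  classical
  have hpr : ∀ (L : Type u) [Field L] [IsAlgClosed L] [Algebra K L] (P : A.Pts L), Gen A P →
      (fib A H P).IsPrime := fun L _ _ _ P hP => (hfib L P hP).1
  have hP₀ : Gen A P₀ := h₀.1
  have ht1 : (1 : ℝ) ≤ t := by exact_mod_cast ht
  have hd1 : (1 : ℝ) ≤ d := by exact_mod_cast hd
  obtain ⟨δ, hδ⟩ : ∃ δ : ℝ, δ = min (1 / 2) (ε / (8 * t)) := ⟨_, rfl⟩
  have hδ0 : 0 < δ := by rw [hδ]; positivity
  have hδ1 : δ ≤ 1 / 2 := by rw [hδ]; exact min_le_left _ _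
  have hδ2 : δ ≤ ε / (8 * t) := by rw [hδ]; exact min_le_right _ _
  have hprime := hpr L P₀ hP₀
  obtain ⟨k, M, hk, hrk, hM⟩ := A_choose ht hd (fib A H P₀) (EF.fib_graded A H hH P₀)
    (hfib L P₀ hP₀).2 (fun a i => spG P₀ y₀ (Q₀ a i)) (fun a i => spG_hom P₀ y₀ (hQ₀ a i)) hno
    hδ0 (by linarith)
  obtain ⟨g', G', hG'⟩ := EF.T_rows A H hH k
  have hgr := EF.T_rk A H k G' hG' P₀ hP₀
  obtain ⟨r', hr'⟩ : ∃ r', r' = rk (fib A H P₀) k := ⟨_, rfl⟩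
  rw [← hr'] at hgr hrk
  have hk1 : (1 : ℝ) ≤ k := by exact_mod_cast hk
  have hr1 : (1 : ℝ) ≤ r' := by exact_mod_cast hrk
  obtain ⟨Rσ, ρσ, hRσ, hRσ0, hσR⟩ := hσ k g' r' G' hG' hgr
  obtain ⟨w₀, hw₀⟩ : ∃ w₀ : ℝ, w₀ = (1 - δ) * (k * r') / (t * d) := ⟨_, rfl⟩
  have hw₀0 : 0 < w₀ := by
    rw [hw₀]
    have : 0 < 1 - δ := by linarith
    positivity
  have hwt : ∀ a, w₀ ≤ wgt (M a) t d k := by
    intro a
    have h3 := (hM a).2.1 ⟨0, ht⟩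
    rw [EF.wgt_eq (M a) ht d k, ← hr'] at h3
    rw [hw₀, div_le_iff₀ (by positivity)]
    linarith
  obtain ⟨C₁, F₁, hF₁, hall⟩ := W_core T Γ hΓ ht hd H hpr Q Q₀ hQ hQ₀ P₀ y₀ h₀ G' hG' hgr hrk M
    (fun a => ⟨hw₀0.trans_le (hwt a), fun i hi => (hM a).2.2 i (by rw [hi]; exact Ideal.zero_mem _),
      (hM a).1⟩) S (ε := ε / (8 * t)) (by positivity)
  -- local constants
  obtain ⟨cv, hcv0, hcv⟩ : ∃ cv : AbsoluteValue K ℝ → ℝ, (∀ v, 0 ≤ cv v) ∧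
      ∀ v, ∀ (P : A.Pts K) (y : Fin q × Fin p → K), T.On P y → ∀ X : Fin n → K, X ≠ 0 →
      ∀ a, (∀ i, eval X (spG P y (Q a i)) ≠ 0) →
        w₀ * (∑ i, lam1 T v D d (Q a i) P y X) ≤
          wgt (M a) t d k * (∑ i, lam1 T v D d (Q a i) P y X) + cv v := by
    have h1 := fun (v : AbsoluteValue K ℝ) (a : Fin e) (i : Fin t) => lam1_ge T v (hQ a i)
    choose c hc0 hc using h1
    refine ⟨fun v => ∑ a, (wgt (M a) t d k - w₀) * ∑ i, c v a i, fun v =>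
      Finset.sum_nonneg fun a _ => mul_nonneg (sub_nonneg.2 (hwt a))
        (Finset.sum_nonneg fun i _ => hc0 v a i), ?_⟩
    intro v P y hy X hX a ha
    have h2 : - (∑ i, c v a i) ≤ ∑ i, lam1 T v D d (Q a i) P y X := by
      rw [← Finset.sum_neg_distrib]
      exact Finset.sum_le_sum fun i _ => hc v a i P y hy X hX (ha i)
    have h3 := mul_le_mul_of_nonneg_left h2 (sub_nonneg.2 (hwt a))
    have h4 : (wgt (M a) t d k - w₀) * ∑ i, c v a i ≤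
        ∑ a, (wgt (M a) t d k - w₀) * ∑ i, c v a i :=
      Finset.single_le_sum (f := fun a => (wgt (M a) t d k - w₀) * ∑ i, c v a i)
        (fun a _ => mul_nonneg (sub_nonneg.2 (hwt a)) (Finset.sum_nonneg fun i _ => hc0 v a i))
        (Finset.mem_univ a)
    linarith
  obtain ⟨Cc, hCc⟩ : ∃ Cc, Cc = SS S (fun v => cv v.val) (fun v => cv v.val) := ⟨_, rfl⟩
  have hCc0 : 0 ≤ Cc := by
    rw [hCc]
    exact EF.SS_nonneg (fun v => hcv0 _) fun v _ => hcv0 _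
  refine ⟨2 * (t * (|C₁| + Cc)), F₁ * C (C Rσ),
    ExcX_mul T H hpr hF₁ (ExcX_C T H hpr hRσ hRσ0), fun P hP y hy X hX hXH hXF ai af hai haf => ?_⟩
  rw [spG_mul, spG_C, EF.sp_C, map_mul, eval_C] at hXF
  have hXF₁ := left_ne_zero_of_mul hXF
  have hXR := right_ne_zero_of_mul hXF
  obtain ⟨hnz, h4⟩ := hall P hP y hy X hX hXH hXF₁ ai af hai haf
  refine ⟨hnz, ?_⟩
  have h5 := hσR P hXR
  have h2 := EF.SS_mono (S := S) (fun v => hcv v.val P y hy X hX (ai v) (hnz.1 v))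
    (fun v hv => hcv v.val P y hy X hX (af v) (hnz.2 v hv))
  rw [EF.SS_add, EF.SS_mul, ← hCc, hw₀] at h2
  have hNS := NS_nonneg T S P y
  have hht := ht_nonneg T P y
  obtain ⟨U, hU⟩ : ∃ U, U = SS S (fun v => ∑ i, lam1 T v.val D d (Q (ai v) i) P y X)
    (fun v => ∑ i, lam1 T v.val D d (Q (af v) i) P y X) := ⟨_, rfl⟩
  rw [← hU] at h2 ⊢
  have h1 : 1 / (d : ℝ) * U ≤ 1 / (d : ℝ) * U + 0 / (d : ℝ) * (0 + Cc) := by
    rw [zero_div, zero_mul, add_zero]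
  have h3 : (0 : ℝ) ≤ 0 * (ε * d / (4 * (0 + 1) * (0 + 1)) *
      (logHeight (A.x P) + ∑ i, T.ht P y i) + 0) := by
    rw [zero_mul]
  have hfin := EF.W_num ht1 hd1 hk1 hr1 le_rfl le_rfl hδ0 hδ1 hδ2
    hε h1 h2 h3 (h4.trans (le_of_eq (by rw [add_assoc (a := (k : ℝ) * logHeight X)]))) h5
    (logHeight_nonneg X) (add_nonneg (logHeight_nonneg _) hht) (hσ0 P) hCc0
  refine hfin.trans ?_
  rw [abs_mul, abs_of_nonneg (by linarith : 0 ≤ 1 + T.NS S P y), zero_div, zero_mul, add_zero]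
  have h6 : 0 ≤ Cc * T.NS S P y := mul_nonneg hCc0 hNS
  have h7 : 0 ≤ t * (Cc * T.NS S P y) := mul_nonneg (by linarith) h6
  nlinarith

end

end Pool.Agent.Lib.MP_17a322_nt.EG
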