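import Pool.Agent.Lib.MP_17a322_nt.EG.Defs2
import Pool.Agent.Lib.MP_17a322_nt.EG.B1
import Pool.Agent.Lib.MP_17a322_nt.EG.C1
import Pool.Agent.Lib.MP_17a322_nt.EG.L1
import Pool.Agent.Lib.MP_17a322_nt.TB.R1
import Pool.Agent.Lib.MP_17a322_nt.EF.Y1

/-!
Closed subschemes of a family over a principal torus bundle over `A`: the local inequality at one
place.
-/

universe u

namespace Pool.Agent.Lib.MP_17a322_nt.EG

open MvPolynomial Height
open Pool.Agent.Lib.MP_17a322_nt.VA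
open Pool.Agent.Lib.MP_17a322_nt.SL
open Pool.Agent.Lib.MP_17a322_nt.EF (BH fib sp Mo mo ver)
open Pool.Agent.Lib.MP_17a322_nt.TB (Tor ev supp wt maxWt partWt)

section

variable {K : Type u} [Field K] {N q p n m s w : ℕ} {A : AV K N} (T : Tor A q p)

theorem cutB_empty (f : Fin s → Fin w → Pol K N q p n) (τ : Fin q → ℝ) : cutB f τ ∅ = ∅ := by
  ext g
  unfold cutB
  simp

variable {T}

theorem spG_cutB {L : Type u} [Field L] [Algebra K L] (P₀ : A.Pts L) (y₀ : Fin q × Fin p → L)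
    {D d : ℕ} {f : Fin s → Fin w → Pol K N q p n} (hf : ∀ j l, BG T D d (f j l))
    (τ : Fin q → ℝ) (U : Finset (Fin s)) :
    ∀ g ∈ spG P₀ y₀ '' cutB f τ U, g.IsHomogeneous d := by
  rintro _ ⟨_, ⟨j, _, l, rfl⟩, rfl⟩
  exact spG_hom P₀ y₀ (BG_partWt (hf j l) τ _)

variable (T)

/-- One place. `Q, Q₀` and `R` as in `P_picks` and `R_lowG` (their conclusions at the place `v`). -/
theorem Y_locG (v : AbsoluteValue K ℝ)
    (H : Fin m → MvPolynomial (Fin n) (MvPolynomial (Fin (N + 1)) K)) {t D d D' : ℕ}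
    (ht : 0 < t) (hd : 0 < d) (f : Fin s → Fin w → Pol K N q p n)
    (hf : ∀ j l, BG T D d (f j l)) {L : Type u} [Field L] [IsAlgClosed L] [Algebra K L]
    (P₀ : A.Pts L) (y₀ : Fin q × Fin p → L)
    (I : Ideal (MvPolynomial (Fin n) L)) (hI : I.IsPrime)
    (hgr : ∀ f ∈ I, ∀ k, homogeneousComponent k f ∈ I)
    (htr : Algebra.trdeg L (MvPolynomial (Fin n) L ⧸ I) = t) {e e' : ℕ}
    (Q Q₀ : Fin e → Fin t → Pol K N q p n) (hQ : ∀ a i, BG T D' d (Q a i))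
    (hloc : ∃ C : ℝ, 0 ≤ C ∧ ∀ (P : A.Pts K) (y : Fin q × Fin p → K),
        T.On P y → ∀ X : Fin n → K, X ≠ 0 → ∀ V : Fin t → Option (Finset (Fin s)),
        (∀ (i : Fin t) U, V i = some U →
          CodA I t (spG P₀ y₀ '' cutB f (T.tau v P y) U) (i + 1)) →
        ∃ a, (∀ i, ld (T.tau v P y) (Q a i) = Q₀ a i) ∧
          ∀ (i : Fin t) U, V i = some U → eval X (spG P y (Q a i)) ≠ 0 →
            ∃ j ∈ U, (∃ l, eval X (spG P y (f j l)) ≠ 0) ∧
              lamB T v D d (f j) P y X ≤ lam1 T v D' d (Q a i) P y X + C)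
    (R : Fin e' → MvPolynomial (Fin q × Fin p) (MvPolynomial (Fin (N + 1)) K))
    (ρ : Fin e' → ℕ) (hR : ∀ c, T.WH (ρ c) (R c))
    (hlow : ∃ C : ℝ, 0 ≤ C ∧ ∀ (P : A.Pts K) (y : Fin q × Fin p → K),
        T.On P y → ∀ X : Fin n → K, X ≠ 0 → (∀ i, eval X (sp A P (H i)) = 0) →
        (∀ c, ev P y (R c) ≠ 0) →
        ∀ U, CodA I t (spG P₀ y₀ '' cutB f (T.tau v P y) U) t →
          ∃ c, ∃ j ∈ U, lamB T v D d (f j) P y X ≤
            T.lam v (ρ c) (fun _ : Fin 1 => R c) P y (fun _ => 1) + C)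
    (c : Fin s → ℝ) (hc0 : ∀ j, 0 ≤ c j)
    (hc : ∀ τ U, CodA I t (spG P₀ y₀ '' cutB f τ U) t ∨
      ∃ i : ℕ, CodA I t (spG P₀ y₀ '' cutB f τ U) i ∧ ∑ j ∈ U, c j ≤ i) :
    ∃ C : ℝ, 0 ≤ C ∧ ∀ (P : A.Pts K) (y : Fin q × Fin p → K), T.On P y →
      ∀ X : Fin n → K, X ≠ 0 → (∀ i, eval X (sp A P (H i)) = 0) →
      (∀ b, ev P y (R b) ≠ 0) →
      0 ≤ (∑ b, T.lam v (ρ b) (fun _ : Fin 1 => R b) P y (fun _ => 1)) + C ∧
      (∃ a, (∀ i, ld (T.tau v P y) (Q a i) = Q₀ a i) ∧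
        ((∀ i, eval X (spG P y (Q a i)) ≠ 0) →
          ∑ j, c j * lamB T v D d (f j) P y X ≤ ∑ i, lam1 T v D' d (Q a i) P y X +
            (∑ j, c j) *
              ((∑ b, T.lam v (ρ b) (fun _ : Fin 1 => R b) P y (fun _ => 1)) + C) + C)) ∧
      ∀ j, c j ≠ 0 → ∃ a, (∀ i, ld (T.tau v P y) (Q a i) = Q₀ a i) ∧
        ((∀ i, eval X (spG P y (Q a i)) ≠ 0) → ∃ l, eval X (spG P y (f j l)) ≠ 0) := by
  classical
  have k2 : ∀ b, ∃ C : ℝ, 0 ≤ C ∧ ∀ (P : A.Pts K) (y : Fin q × Fin p → K), T.On P y →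
      ev P y (R b) ≠ 0 →
        - C ≤ T.lam v (ρ b) (fun _ : Fin 1 => R b) P y (fun _ => 1) := by
    intro b
    obtain ⟨C, hC⟩ := TB.R_ge T v (fun _ : Fin 1 => R b) fun _ => hR b
    refine ⟨max C 0, le_max_right _ _, fun P y hy h0 => ?_⟩
    have h1 := hC P y hy (fun _ => 1) (by simpa using h0)
    have h2 := le_max_left C 0
    linarith
  choose c2 hc2 hc2' using k2
  have k5 : ∀ a i, ∃ C : ℝ, 0 ≤ C ∧ ∀ (P : A.Pts K) (y : Fin q × Fin p → K), T.On P y →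
      ∀ X : Fin n → K, X ≠ 0 → eval X (spG P y (Q a i)) ≠ 0 →
        - C ≤ lam1 T v D' d (Q a i) P y X := fun a i => lam1_ge T v (hQ a i)
  choose c5 hc5 hc5' using k5
  obtain ⟨C1, hC1, hloc⟩ := hloc
  obtain ⟨C3, hC3, hlow⟩ := hlow
  have e2 : 0 ≤ ∑ b, c2 b := Finset.sum_nonneg fun b _ => hc2 b
  have e5 : 0 ≤ ∑ a, ∑ i, (C1 + c5 a i) :=
    Finset.sum_nonneg fun a _ => Finset.sum_nonneg fun i _ => add_nonneg hC1 (hc5 a i)
  obtain ⟨C, hC⟩ : ∃ C, C = ∑ b, c2 b + C3 + ∑ a, ∑ i, (C1 + c5 a i) := ⟨_, rfl⟩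
  refine ⟨C, by rw [hC]; positivity, fun P y hy X hX hXH hRP => ?_⟩
  obtain ⟨Y, hY⟩ : ∃ Y, Y = ∑ b, T.lam v (ρ b) (fun _ : Fin 1 => R b) P y (fun _ => 1) :=
    ⟨_, rfl⟩
  rw [← hY]
  have hY1 : ∀ b, T.lam v (ρ b) (fun _ : Fin 1 => R b) P y (fun _ => 1) + C3 ≤
      Y + (∑ b, c2 b + C3) := by
    intro b
    have h1 : T.lam v (ρ b) (fun _ : Fin 1 => R b) P y (fun _ => 1) + c2 b ≤
        ∑ b, (T.lam v (ρ b) (fun _ : Fin 1 => R b) P y (fun _ => 1) + c2 b) :=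
      Finset.single_le_sum
        (f := fun b => T.lam v (ρ b) (fun _ : Fin 1 => R b) P y (fun _ => 1) + c2 b)
        (fun b' _ => by
          have := hc2' b' P y hy (hRP b')
          linarith) (Finset.mem_univ b)
    rw [Finset.sum_add_distrib, ← hY] at h1
    have h3 := hc2 b
    linarith
  have hY0 : 0 ≤ Y + (∑ b, c2 b + C3) := by
    have h2 : 0 ≤ ∑ b, (T.lam v (ρ b) (fun _ : Fin 1 => R b) P y (fun _ => 1) + c2 b) :=
      Finset.sum_nonneg fun b' _ => by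
        have := hc2' b' P y hy (hRP b')
        linarith
    rw [Finset.sum_add_distrib, ← hY] at h2
    linarith
  refine ⟨by rw [hC]; linarith, ?_, ?_⟩
  · obtain ⟨V, x, hV, hx, hsum⟩ := EF.Y_tup (t := t)
      (fun U i => CodA I t (spG P₀ y₀ '' cutB f (T.tau v P y) U) i)
      (fun i hi h => CodA_empty hI htr hi (by
        have h' : CodA I t (spG P₀ y₀ '' cutB f (T.tau v P y) ∅) i := h
        rw [cutB_empty, Set.image_empty] at h'
        exact h'))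
      (fun U i i' hi h => CodA_mono hi h)
      (fun U i h => CodA_le hI hgr hd (spG_cutB P₀ y₀ hf _ U) h) c
      (fun j => lamB T v D d (f j) P y X) hc0 (hc (T.tau v P y)) (Y + (∑ b, c2 b + C3)) hY0
      (fun U hU => by
        obtain ⟨b, j, hj, h⟩ := hlow P y hy X hX hXH hRP U hU
        exact ⟨j, hj, h.trans (hY1 b)⟩)
    obtain ⟨a, ha, hab⟩ := hloc P y hy X hX V hV
    refine ⟨a, ha, fun hne => ?_⟩
    have h1 : ∀ i, max (x i) 0 ≤ lam1 T v D' d (Q a i) P y X + (C1 + c5 a i) := by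
      intro i
      have h5 := hc5' a i P y hy X hX (hne i)
      refine max_le ?_ (by linarith)
      rcases hx i with ⟨_, h⟩ | ⟨U, hU, h⟩
      · rw [h]
        linarith
      · obtain ⟨j, hj, _, h6⟩ := hab i U hU (hne i)
        have h7 := h j hj
        have h9 := hc5 a i
        have h10 : x i ≤ lamB T v D d (f j) P y X := h7
        linarith
    have h2 : ∑ i, (C1 + c5 a i) ≤ ∑ a, ∑ i, (C1 + c5 a i) :=
      Finset.single_le_sum (f := fun a => ∑ i, (C1 + c5 a i))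
        (fun a _ => Finset.sum_nonneg fun i _ => add_nonneg hC1 (hc5 a i))
        (Finset.mem_univ a)
    have h3 := Finset.sum_le_sum (s := Finset.univ) fun i _ => h1 i
    rw [Finset.sum_add_distrib] at h3
    have h4 : (∑ j, c j) * (Y + (∑ b, c2 b + C3)) ≤ (∑ j, c j) * (Y + C) :=
      mul_le_mul_of_nonneg_left (by rw [hC]; linarith) (Finset.sum_nonneg fun j _ => hc0 j)
    have h5 : ∑ a, ∑ i, (C1 + c5 a i) ≤ C := by
      rw [hC]
      linarith
    have hsum' : ∑ j, c j * lamB T v D d (f j) P y X ≤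
        (∑ j, c j) * (Y + (∑ b, c2 b + C3)) + ∑ i, max (x i) 0 := hsum
    linarith
  · intro j hj
    have hcj : 0 < c j := lt_of_le_of_ne (hc0 j) (Ne.symm hj)
    have hcod : CodA I t (spG P₀ y₀ '' cutB f (T.tau v P y) {j}) 1 := by
      rcases hc (T.tau v P y) {j} with h | ⟨i, h, hi⟩
      · exact CodA_mono ht h
      · rw [Finset.sum_singleton] at hi
        have h1 : (0 : ℝ) < i := lt_of_lt_of_le hcj hi
        exact CodA_mono (Nat.cast_pos.1 h1) h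
    obtain ⟨a, ha, hab⟩ := hloc P y hy X hX (fun i => if (i : ℕ) = 0 then some {j} else none)
      (by
        intro i U hU
        by_cases hi : (i : ℕ) = 0
        · rw [if_pos hi] at hU
          rw [← Option.some.inj hU, hi]
          exact hcod
        · rw [if_neg hi] at hU
          exact absurd hU (by simp))
    refine ⟨a, ha, fun hne => ?_⟩
    obtain ⟨j', hj', ⟨l, hl⟩, _⟩ := hab ⟨0, ht⟩ {j} (if_pos rfl) (hne _)
    rw [Finset.mem_singleton] at hj'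
    rw [hj'] at hl
    exact ⟨l, hl⟩

end

end Pool.Agent.Lib.MP_17a322_nt.EG
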