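import Pool.Agent.Lib.MP_17a322_nt.EG.W2
import Pool.Agent.Lib.MP_17a322_nt.EG.G1
import Pool.Agent.Lib.MP_17a322_nt.EG.P1
import Pool.Agent.Lib.MP_17a322_nt.EG.P3
import Pool.Agent.Lib.MP_17a322_nt.EG.Y1
import Pool.Agent.Lib.MP_17a322_nt.EF.Y8

/-!
Closed subschemes of a family over a principal torus bundle over `A`: the theorem for equal bidegrees.
-/

universe u

namespace Pool.Agent.Lib.MP_17a322_nt.EG

open MvPolynomial Height
open Pool.Agent.Lib.MP_17a322_nt.VA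
open Pool.Agent.Lib.MP_17a322_nt.SL
open Pool.Agent.Lib.MP_17a322_nt.EF (BH fib sp Mo mo ver IsRows SS)
open Pool.Agent.Lib.MP_17a322_nt.TB (Tor ev supp wt maxWt partWt)

section

variable {K : Type u} [Field K] {N q p n m s w : ℕ} {A : AV K N} (T : Tor A q p)

/-- The codimension on one generic fibre. -/
theorem CodimB_CodA {H : Fin m → MvPolynomial (Fin n) (MvPolynomial (Fin (N + 1)) K)} {t : ℕ}
    {G : Set (Pol K N q p n)} {i : ℕ} (h : CodimB T H t G i) {L : Type u} [Field L]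
    [IsAlgClosed L] [Algebra K L] (P₀ : A.Pts L) (y₀ : Fin q × Fin p → L) (h₀ : GenB T P₀ y₀) :
    CodA (fib A H P₀) t (spG P₀ y₀ '' G) i :=
  fun 𝔭 h1 h2 h3 => h L P₀ y₀ h₀ 𝔭 h1 h2 fun g hg => h3 _ ⟨g, hg, rfl⟩

end

section

variable {K : Type u} [Field K] [NumberField K] {N q p n m s w : ℕ} {A : AV K N} (T : Tor A q p)

/-- Equal bidegrees. -/
theorem Y_genG (Γ : AddSubgroup (A.Pts K)) (hΓ : Γ.FG) {t D d : ℕ} (ht : 0 < t) (hd : 0 < d)
    (H : Fin m → MvPolynomial (Fin n) (MvPolynomial (Fin (N + 1)) K))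
    (hH : ∀ i, ∃ a b : ℕ, BH a b (H i))
    (hfib : ∀ (L : Type u) [Field L] [IsAlgClosed L] [Algebra K L] (P : A.Pts L), Gen A P →
      (fib A H P).IsPrime ∧ Algebra.trdeg L (MvPolynomial (Fin n) L ⧸ fib A H P) = t)
    (f : Fin s → Fin w → Pol K N q p n) (hf : ∀ j l, BG T D d (f j l))
    (S : Finset (NumberField.FinitePlace K))
    (ci : NumberField.InfinitePlace K → Fin s → ℝ)
    (cf : NumberField.FinitePlace K → Fin s → ℝ) (hci0 : ∀ v j, 0 ≤ ci v j)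
    (hcf0 : ∀ v j, 0 ≤ cf v j)
    (hci : ∀ v τ U, CodimB T H t (cutB f τ U) t ∨
      ∃ i : ℕ, CodimB T H t (cutB f τ U) i ∧ ∑ j ∈ U, ci v j ≤ i)
    (hcf : ∀ v ∈ S, ∀ τ U, CodimB T H t (cutB f τ U) t ∨
      ∃ i : ℕ, CodimB T H t (cutB f τ U) i ∧ ∑ j ∈ U, cf v j ≤ i)
    (σ : A.Pts K → ℝ) (hσ0 : ∀ P, 0 ≤ σ P)
    (hσ : ∀ (k g' r' : ℕ)
      (G' : Matrix (Fin g') (Fin (Mo n k).card) (MvPolynomial (Fin (N + 1)) K)),
      IsRows A H k G' → g' + r' = (Mo n k).card →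
      ∃ (R : MvPolynomial (Fin (N + 1)) K) (ρ : ℕ), R.IsHomogeneous ρ ∧ R ∉ A.I ∧
        ∀ P : A.Pts K, aeval (A.x P) R ≠ 0 → (k : ℝ) * r' * σ P ≤ t * hE A G' P)
    (ε : ℝ) (hε : 0 < ε) :
    ∃ (C : ℝ) (F : Pol K N q p n), ExcX T H F ∧
      ∀ P ∈ Γ, ∀ y : Fin q × Fin p → K, T.On P y → ∀ X : Fin n → K, X ≠ 0 →
        (∀ i, eval X (sp A P (H i)) = 0) → eval X (spG P y F) ≠ 0 →
        (∀ j, (∃ v, ci v j ≠ 0) ∨ (∃ v ∈ S, cf v j ≠ 0) →
          ∃ l, eval X (spG P y (f j l)) ≠ 0) ∧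
        SS S (fun v => ∑ j, ci v j * (1 / (d : ℝ) * lamB T v.val D d (f j) P y X))
          (fun v => ∑ j, cf v j * (1 / (d : ℝ) * lamB T v.val D d (f j) P y X)) + σ P ≤
          t * logHeight X + ε * (logHeight X + logHeight (A.x P) + ∑ i, T.ht P y i) +
            C * (1 + T.NS S P y) := by
  classical
  have _ : Infinite K := inferInstance
  have hpr : ∀ (L : Type u) [Field L] [IsAlgClosed L] [Algebra K L] (P : A.Pts L), Gen A P →
      (fib A H P).IsPrime := fun L _ _ _ P hP => (hfib L P hP).1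
  have hd1 : (1 : ℝ) ≤ d := by exact_mod_cast hd
  obtain ⟨L, _, _, _, P₀, y₀, h₀⟩ := genB_exists T
  have hI := hpr L P₀ h₀.1
  have htr := (hfib L P₀ h₀.1).2
  have hgr := EF.fib_graded A H hH P₀
  obtain ⟨e, D', Q, Q₀, hQ, hQ₀, hno, hloc⟩ := P_picks T hd f hf P₀ y₀ h₀ (fib A H P₀) hI hgr htr
  obtain ⟨e', R, ρ, hR, hRN, hlow⟩ := R_lowG T ht hd H hH f hf P₀ y₀ h₀ hI htr
  -- local constants
  have hli := fun v : NumberField.InfinitePlace K => Y_locG T v.val H ht hd f hf P₀ y₀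
    (fib A H P₀) hI hgr htr Q Q₀ hQ (hloc v.val) R ρ hR (hlow v.val) (ci v) (hci0 v)
    (fun τ U => (hci v τ U).imp (fun h => CodimB_CodA T h P₀ y₀ h₀)
      fun ⟨i, h1, h2⟩ => ⟨i, CodimB_CodA T h1 P₀ y₀ h₀, h2⟩)
  choose Ki hKi0 hKi using hli
  have hlf : ∀ v : NumberField.FinitePlace K, ∃ C : ℝ, 0 ≤ C ∧ (v ∈ S →
      ∀ (P : A.Pts K) (y : Fin q × Fin p → K), T.On P y →
      ∀ X : Fin n → K, X ≠ 0 → (∀ i, eval X (sp A P (H i)) = 0) →
      (∀ b, ev P y (R b) ≠ 0) →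
      0 ≤ (∑ b, T.lam v.val (ρ b) (fun _ : Fin 1 => R b) P y (fun _ => 1)) + C ∧
      (∃ a, (∀ i, ld (T.tau v.val P y) (Q a i) = Q₀ a i) ∧
        ((∀ i, eval X (spG P y (Q a i)) ≠ 0) →
          ∑ j, cf v j * lamB T v.val D d (f j) P y X ≤
            ∑ i, lam1 T v.val D' d (Q a i) P y X +
            (∑ j, cf v j) *
              ((∑ b, T.lam v.val (ρ b) (fun _ : Fin 1 => R b) P y (fun _ => 1)) + C) + C)) ∧
      ∀ j, cf v j ≠ 0 → ∃ a, (∀ i, ld (T.tau v.val P y) (Q a i) = Q₀ a i) ∧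
        ((∀ i, eval X (spG P y (Q a i)) ≠ 0) → ∃ l, eval X (spG P y (f j l)) ≠ 0)) := by
    intro v
    by_cases hv : v ∈ S
    · obtain ⟨C, hC, h⟩ := Y_locG T v.val H ht hd f hf P₀ y₀
        (fib A H P₀) hI hgr htr Q Q₀ hQ (hloc v.val) R ρ hR (hlow v.val) (cf v) (hcf0 v)
        (fun τ U => (hcf v hv τ U).imp (fun h => CodimB_CodA T h P₀ y₀ h₀)
          fun ⟨i, h1, h2⟩ => ⟨i, CodimB_CodA T h1 P₀ y₀ h₀, h2⟩)
      exact ⟨C, hC, fun _ => h⟩
    · exact ⟨0, le_rfl, fun h => absurd h hv⟩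
  choose Kf hKf0 hKf using hlf
  obtain ⟨Cc, hCc⟩ : ∃ Cc, Cc = SS S Ki Kf := ⟨_, rfl⟩
  have hCc0 : 0 ≤ Cc := by
    rw [hCc]
    exact EF.SS_nonneg hKi0 fun v _ => hKf0 v
  -- the largest weight
  obtain ⟨c, hcd⟩ : ∃ c : ℝ, c = (∑ v, ∑ j, ci v j) + ∑ v ∈ S, ∑ j, cf v j := ⟨_, rfl⟩
  have hc1 : ∀ v, 0 ≤ ∑ j, ci v j := fun v => Finset.sum_nonneg fun j _ => hci0 v j
  have hc2 : ∀ v, 0 ≤ ∑ j, cf v j := fun v => Finset.sum_nonneg fun j _ => hcf0 v j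
  have hc0 : 0 ≤ c := by
    rw [hcd]
    exact add_nonneg (Finset.sum_nonneg fun v _ => hc1 v) (Finset.sum_nonneg fun v _ => hc2 v)
  have hci' : ∀ v, ∑ j, ci v j ≤ c := fun v => by
    rw [hcd]
    have h1 := Finset.single_le_sum (f := fun v => ∑ j, ci v j) (fun v _ => hc1 v)
      (Finset.mem_univ v)
    have h2 : 0 ≤ ∑ v ∈ S, ∑ j, cf v j := Finset.sum_nonneg fun v _ => hc2 v
    linarith
  have hcf' : ∀ v ∈ S, ∑ j, cf v j ≤ c := fun v hv => by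
    rw [hcd]
    have h1 := Finset.single_le_sum (f := fun v => ∑ j, cf v j) (fun v _ => hc2 v) hv
    have h2 : 0 ≤ ∑ v, ∑ j, ci v j := Finset.sum_nonneg fun v _ => hc1 v
    linarith
  -- the base
  obtain ⟨ε₂, hε₂⟩ : ∃ ε₂ : ℝ, ε₂ = ε * d / (2 * (c + 1) * ((e' : ℝ) + 1)) := ⟨_, rfl⟩
  have hε₂0 : 0 < ε₂ := by rw [hε₂]; positivity
  have hNS : ∀ (P : A.Pts K) (y : Fin q × Fin p → K), 0 ≤ T.NS S P y := fun P y =>
    Finset.sum_nonneg fun _ _ => finsum_nonneg fun _ => abs_nonneg _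
  obtain ⟨C₂, F₂, hF₂, hlow'⟩ := exc_allG T (Finset.univ : Finset (Fin e')) H hpr
    (fun b C P y _ => P ∈ Γ → T.On P y → ev P y (R b) ≠ 0 ∧
      SS S (fun v => T.lam v.val (ρ b) (fun _ : Fin 1 => R b) P y (fun _ => 1))
        (fun v => T.lam v.val (ρ b) (fun _ : Fin 1 => R b) P y (fun _ => 1)) ≤
        ε₂ * (logHeight (A.x P) + ∑ i, T.ht P y i) + C * (1 + T.NS S P y))
    (fun b C C' P y X hC h hP hy => ⟨(h hP hy).1, (h hP hy).2.trans (by
      have h1 := mul_le_mul_of_nonneg_right hC (by linarith [hNS P y] : 0 ≤ 1 + T.NS S P y)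
      linarith)⟩)
    (fun b _ => by
      obtain ⟨C, F, h1, h2⟩ := N_vert T Γ hΓ H hH hpr (R b) (hR b) (hRN b) S ε₂ hε₂0
      exact ⟨C, F, h1, fun P y X hF hP hy => h2 P hP y hy X hF⟩)
  obtain ⟨C₁, F₁, hF₁, hall⟩ := G_gen T Γ hΓ ht hd H hH hfib Q Q₀ hQ hQ₀ P₀ y₀ h₀ hno S σ hσ0 hσ
    (ε / 2) (half_pos hε)
  refine ⟨C₁ + (c / d * (e' * |C₂| + Cc) + Cc), F₁ * F₂, ExcX_mul T H hpr hF₁ hF₂,
    fun P hP y hy X hX hXH hXF => ?_⟩
  rw [spG_mul, map_mul] at hXF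
  have hXF₁ := left_ne_zero_of_mul hXF
  have hXF₂ := right_ne_zero_of_mul hXF
  have hlow'' := fun b => hlow' P y X hXF₂ b (Finset.mem_univ b) hP hy
  have hRP : ∀ b, ev P y (R b) ≠ 0 := fun b => (hlow'' b).1
  have hloci := fun v => hKi v P y hy X hX hXH hRP
  have hlocf := fun v hv => hKf v hv P y hy X hX hXH hRP
  have hai := fun v => (hloci v).2.1
  choose ai hai1 hai2 using hai
  obtain ⟨v₀⟩ : Nonempty (NumberField.InfinitePlace K) := inferInstance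
  have haf : ∀ v : NumberField.FinitePlace K, ∃ a, v ∈ S →
      (∀ i, ld (T.tau v.val P y) (Q a i) = Q₀ a i) ∧
        ((∀ i, eval X (spG P y (Q a i)) ≠ 0) →
          ∑ j, cf v j * lamB T v.val D d (f j) P y X ≤
            ∑ i, lam1 T v.val D' d (Q a i) P y X +
            (∑ j, cf v j) *
              ((∑ b, T.lam v.val (ρ b) (fun _ : Fin 1 => R b) P y (fun _ => 1)) + Kf v) +
                Kf v) := by
    intro v
    by_cases hv : v ∈ S
    · obtain ⟨a, ha⟩ := (hlocf v hv).2.1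
      exact ⟨a, fun _ => ha⟩
    · exact ⟨ai v₀, fun h => absurd h hv⟩
  choose af haf using haf
  obtain ⟨hnz, h2⟩ := hall P hP y hy X hX hXH hXF₁ ai af hai1 fun v hv => (haf v hv).1
  refine ⟨?_, ?_⟩
  · rintro j (⟨v, hj⟩ | ⟨v, hv, hj⟩)
    · obtain ⟨a, h3, h4⟩ := (hloci v).2.2 j hj
      refine h4 fun i => ?_
      have h5 := (hall P hP y hy X hX hXH hXF₁ (Function.update ai v a) af (fun v' => by
        by_cases h : v' = v
        · subst h
          rw [Function.update_self]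
          exact h3
        · rw [Function.update_of_ne h]
          exact hai1 v') fun v hv => (haf v hv).1).1.1 v i
      rw [Function.update_self] at h5
      exact h5
    · obtain ⟨a, h3, h4⟩ := (hlocf v hv).2.2 j hj
      refine h4 fun i => ?_
      have h5 := (hall P hP y hy X hX hXH hXF₁ ai (Function.update af v a) hai1
        (fun v' hv' => by
        by_cases h : v' = v
        · subst h
          rw [Function.update_self]
          exact h3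
        · rw [Function.update_of_ne h]
          exact (haf v' hv').1)).1.2 v hv i
      rw [Function.update_self] at h5
      exact h5
  obtain ⟨Y, hY⟩ : ∃ Y, Y = SS S
      (fun v => ∑ b, T.lam v.val (ρ b) (fun _ : Fin 1 => R b) P y (fun _ => 1))
      (fun v => ∑ b, T.lam v.val (ρ b) (fun _ : Fin 1 => R b) P y (fun _ => 1)) := ⟨_, rfl⟩
  have h3 : Y ≤ e' * (ε₂ * (logHeight (A.x P) + ∑ i, T.ht P y i) +
      C₂ * (1 + T.NS S P y)) := by
    rw [hY, EF.SS_sum]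
    refine (Finset.sum_le_sum fun b _ => (hlow'' b).2).trans (le_of_eq ?_)
    rw [Finset.sum_const, nsmul_eq_mul, Finset.card_univ, Fintype.card_fin]
  rw [hε₂] at h3
  obtain ⟨Λ, hΛ⟩ : ∃ Λ, Λ = SS S
    (fun v => ∑ j, ci v j * (1 / (d : ℝ) * lamB T v.val D d (f j) P y X))
    (fun v => ∑ j, cf v j * (1 / (d : ℝ) * lamB T v.val D d (f j) P y X)) := ⟨_, rfl⟩
  have hd0 : (0 : ℝ) < d := by linarith
  have hlocal : ∀ (w : Fin s → ℝ) (a : Fin s → ℝ) (u y k : ℝ), (∀ j, 0 ≤ w j) →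
      ∑ j, w j ≤ c → 0 ≤ y + k → 0 ≤ k → ∑ j, w j * a j ≤ u + (∑ j, w j) * (y + k) + k →
      ∑ j, w j * (1 / (d : ℝ) * a j) ≤ 1 / (d : ℝ) * u + (c / d * (y + k) + k) := by
    intro w a u y k hw hwc hyk hk h
    have e1 : ∑ j, w j * (1 / (d : ℝ) * a j) = 1 / (d : ℝ) * ∑ j, w j * a j := by
      rw [Finset.mul_sum]
      refine Finset.sum_congr rfl fun j _ => ?_
      ring
    have e2 : (∑ j, w j) * (y + k) ≤ c * (y + k) := mul_le_mul_of_nonneg_right hwc hyk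
    have e3 : 1 / (d : ℝ) * ∑ j, w j * a j ≤ 1 / (d : ℝ) * (u + c * (y + k) + k) :=
      mul_le_mul_of_nonneg_left (by linarith) (by positivity)
    have e4 : 1 / (d : ℝ) * k ≤ k := by
      rw [div_mul_eq_mul_div, one_mul, div_le_iff₀ hd0]
      nlinarith
    rw [e1]
    refine e3.trans ?_
    have e5 : 1 / (d : ℝ) * (u + c * (y + k) + k) =
        1 / (d : ℝ) * u + (c / d * (y + k) + 1 / (d : ℝ) * k) := by ring
    rw [e5]
    linarith
  have h1 : Λ ≤ 1 / (d : ℝ) * SS S (fun v => ∑ i, lam1 T v.val D' d (Q (ai v) i) P y X)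
      (fun v => ∑ i, lam1 T v.val D' d (Q (af v) i) P y X) + c / d * (Y + Cc) + Cc := by
    rw [hΛ]
    refine (EF.SS_mono
      (fun v => hlocal (ci v) _ _ _ _ (hci0 v) (hci' v) (hloci v).1 (hKi0 v)
        (hai2 v (hnz.1 v)))
      (fun v hv => hlocal (cf v) _ _ _ _ (hcf0 v) (hcf' v hv) (hlocf v hv).1 (hKf0 v)
        ((haf v hv).2 (hnz.2 v hv)))).trans (le_of_eq ?_)
    rw [EF.SS_add, EF.SS_mul, EF.SS_add, EF.SS_mul, EF.SS_add, ← hCc, ← hY]
    ring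
  have hht : 0 ≤ ∑ i, T.ht P y i := Finset.sum_nonneg fun _ _ => logHeight_nonneg _
  have hfin := EF.Y_num hd1 hc0 (Nat.cast_nonneg e') hε h1
    (h2.trans (le_of_eq (by rw [add_assoc (a := logHeight X)]))) h3 (logHeight_nonneg X)
    (add_nonneg (logHeight_nonneg _) hht)
  rw [hΛ] at hfin
  refine hfin.trans ?_
  have hns := hNS P y
  rw [abs_mul, abs_of_nonneg (by linarith : 0 ≤ 1 + T.NS S P y), ← add_assoc (a := logHeight X)]
  have h6 : 0 ≤ Cc * T.NS S P y := mul_nonneg hCc0 hns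
  have h7 : 0 ≤ c / d * (Cc * T.NS S P y) := mul_nonneg (by positivity) h6
  nlinarith

end

end Pool.Agent.Lib.MP_17a322_nt.EG
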