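import Pool.Agent.Lib.MP_17a322_nt.EG.B1
import Pool.Agent.Lib.MP_17a322_nt.EG.E1
import Pool.Agent.Lib.MP_17a322_nt.EG.Y2
import Pool.Agent.Lib.MP_17a322_nt.EF.Z2a
import Pool.Agent.Lib.MP_17a322_nt.EF.U1
import Pool.Agent.Lib.MP_17a322_nt.EF.U2

/-!
Closed subschemes of a family over a principal torus bundle over `A`: the final theorem.
-/

universe u

namespace Pool.Agent.Lib.MP_17a322_nt.EG

open MvPolynomial Height
open Pool.Agent.Lib.MP_17a322_nt.VA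
open Pool.Agent.Lib.MP_17a322_nt.SL
open Pool.Agent.Lib.MP_17a322_nt.EF (BH fib sp Mo mo ver cf IsRows fam fm mn rk slope wgt SS)
open Pool.Agent.Lib.MP_17a322_nt.TB (Tor ev supp wt maxWt partWt)

/-! ### Leading parts of powers -/

section

variable {q p : ℕ} {R : Type*} [CommRing R] (τ : Fin q → ℝ)

theorem Z1_wt_zero : wt τ (0 : Fin q × Fin p →₀ ℕ) = 0 := by
  unfold TB.wt
  simp only [Finsupp.coe_zero, Pi.zero_apply, Nat.cast_zero, zero_mul, Finset.sum_const_zero]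

theorem Z1_C (r : R) :
    (∀ a ∈ (C r : MvPolynomial (Fin q × Fin p) R).support, wt τ a ≤ 0) ∧
      partWt τ 0 (C r : MvPolynomial (Fin q × Fin p) R) = C r := by
  classical
  have h1 : ∀ a ∈ (C r : MvPolynomial (Fin q × Fin p) R).support, wt τ a = 0 := by
    intro a ha
    rw [mem_support_iff, coeff_C] at ha
    by_cases h : 0 = a
    · rw [← h, Z1_wt_zero]
    · rw [if_neg h] at ha
      exact absurd rfl ha
  refine ⟨fun a ha => (h1 a ha).le, ?_⟩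
  ext1 a
  rw [coeff_partWt]
  split_ifs with h
  · rfl
  · by_contra h2
    exact h (h1 a (mem_support_iff.2 fun h3 => h2 h3.symm))

theorem Z1_pow {h : ℝ} {f : MvPolynomial (Fin q × Fin p) R} (hf : ∀ a ∈ f.support, wt τ a ≤ h)
    (k : ℕ) : (∀ a ∈ (f ^ k).support, wt τ a ≤ k * h) ∧
      partWt τ (k * h) (f ^ k) = partWt τ h f ^ k := by
  induction k with
  | zero =>
    rw [Nat.cast_zero, zero_mul, pow_zero, pow_zero, ← C_1]
    exact Z1_C τ 1
  | succ k ih =>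
    have h1 := partWt_mul τ ih.1 hf
    have h2 : ((k + 1 : ℕ) : ℝ) * h = k * h + h := by
      push_cast
      ring
    rw [h2, pow_succ, pow_succ, ← ih.2]
    exact h1

theorem Z1_lead {h : ℝ} {f : MvPolynomial (Fin q × Fin p) R} (hf : ∀ a ∈ f.support, wt τ a ≤ h)
    (r : R) (k : ℕ) : (∀ a ∈ (C r * f ^ k).support, wt τ a ≤ k * h) ∧
      partWt τ (k * h) (C r * f ^ k) = C r * partWt τ h f ^ k := by
  have h1 := Z1_pow τ hf k
  have h2 := partWt_mul τ (Z1_C τ r).1 h1.1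
  rw [zero_add, (Z1_C τ r).2, h1.2] at h2
  exact h2

theorem Z1_maxWt_zero {w : ℕ} {f : Fin w → MvPolynomial (Fin q × Fin p) R} (hf : ∀ l, f l = 0) :
    maxWt τ f = 0 := by
  classical
  have h1 : IsEmpty (supp f) := by
    refine ⟨fun a => ?_⟩
    have h2 := a.2
    unfold supp at h2
    rw [Finset.mem_biUnion] at h2
    obtain ⟨l, -, h3⟩ := h2
    rw [hf l, support_zero] at h3
    exact absurd h3 (Finset.notMem_empty _)
  unfold maxWt
  rw [Real.iSup_of_isEmpty]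

end

section

variable {K : Type u} [Field K] {N q p n w : ℕ}

/-- The maximum of products. -/
theorem Z1_sup {ι κ : Type*} [Finite ι] [Finite κ] [Nonempty ι] [Nonempty κ] (a : ι → ℝ)
    (b : κ → ℝ) (ha : ∀ i, 0 ≤ a i) (hb : ∀ j, 0 ≤ b j) (e k : ℕ) :
    (⨆ p : ι × κ, a p.1 ^ e * b p.2 ^ k) = (⨆ i, a i) ^ e * (⨆ j, b j) ^ k := by
  obtain ⟨i₀, hi₀⟩ := exists_eq_ciSup_of_finite (f := a)
  obtain ⟨j₀, hj₀⟩ := exists_eq_ciSup_of_finite (f := b)
  refine le_antisymm (ciSup_le fun p => ?_) ?_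
  · have h1 : a p.1 ≤ ⨆ i, a i := Finite.le_ciSup_of_le p.1 le_rfl
    have h2 : b p.2 ≤ ⨆ j, b j := Finite.le_ciSup_of_le p.2 le_rfl
    exact mul_le_mul (pow_le_pow_left₀ (ha _) h1 _) (pow_le_pow_left₀ (hb _) h2 _)
      (pow_nonneg (hb _) _) (pow_nonneg ((ha _).trans h1) _)
  · rw [← hi₀, ← hj₀]
    exact Finite.le_ciSup_of_le (f := fun p : ι × κ => a p.1 ^ e * b p.2 ^ k) (i₀, j₀) le_rfl

/-- The equations of higher bidegree. -/
noncomputable def Z1f (e k : ℕ) (f : Fin w → Pol K N q p n) :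
    Fin ((N + 1) * w) → Pol K N q p n :=
  fun i => C (C (X (finProdFinEquiv.symm i).1 ^ e)) * f (finProdFinEquiv.symm i).2 ^ k

theorem Z1f_lead (e : ℕ) {k : ℕ} (f : Fin w → Pol K N q p n) (τ : Fin q → ℝ)
    (i : Fin ((N + 1) * w)) :
    (∀ a ∈ (Z1f e k f i).support, wt τ a ≤ k * maxWt τ f) ∧
      partWt τ (k * maxWt τ f) (Z1f e k f i) =
        C (C (X (finProdFinEquiv.symm i).1 ^ e)) *
          partWt τ (maxWt τ f) (f (finProdFinEquiv.symm i).2) ^ k :=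
  Z1_lead τ (fun _ ha => le_maxWt τ ha) _ k

theorem Z1f_maxWt (e : ℕ) {k : ℕ} (hk : 0 < k) (f : Fin w → Pol K N q p n) (τ : Fin q → ℝ) :
    maxWt τ (Z1f e k f) = k * maxWt τ f := by
  classical
  by_cases hf : ∃ l, f l ≠ 0
  · obtain ⟨l, a, ha, haw⟩ := exists_maxWt τ hf
    have h1 : partWt τ (maxWt τ f) (f l) ≠ 0 := by
      intro h0
      have h2 := congrArg (coeff a) h0
      rw [coeff_partWt, if_pos haw, coeff_zero] at h2
      exact mem_support_iff.1 ha h2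
    have h3 := (Z1f_lead e (k := k) f τ (finProdFinEquiv (0, l))).2
    rw [Equiv.symm_apply_apply] at h3
    have h4 : partWt τ (k * maxWt τ f) (Z1f e k f (finProdFinEquiv (0, l))) ≠ 0 := by
      rw [h3]
      refine mul_ne_zero ?_ (pow_ne_zero _ h1)
      rw [Ne, ← C_0, (C_injective _ _).eq_iff, ← C_0, (C_injective _ _).eq_iff]
      exact pow_ne_zero _ (X_ne_zero _)
    obtain ⟨b, hb⟩ := (MvPolynomial.ne_zero_iff).1 h4
    rw [coeff_partWt] at hb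
    by_cases hbw : wt τ b = k * maxWt τ f
    · rw [if_pos hbw] at hb
      exact maxWt_eq τ (fun i => (Z1f_lead e f τ i).1) (mem_support_iff.2 hb) hbw
    · rw [if_neg hbw] at hb
      exact absurd rfl hb
  · push Not at hf
    have h1 : ∀ i, Z1f e k f i = 0 := by
      intro i
      unfold Z1f
      rw [hf, zero_pow hk.ne', mul_zero]
    rw [Z1_maxWt_zero τ h1, Z1_maxWt_zero τ hf, mul_zero]

variable {A : AV K N} (T : Tor A q p)

theorem Z1f_BG {e k D d : ℕ} {f : Fin w → Pol K N q p n} (hf : ∀ l, BG T D d (f l))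
    (i : Fin ((N + 1) * w)) : BG T (e + k * D) (k * d) (Z1f e k f i) := by
  have h1 := BG_mul (BG_C T (EF.Z2_C (n := n)
    ((isHomogeneous_X K (finProdFinEquiv.symm i).1).pow e))) (BG_pow (hf (finProdFinEquiv.symm i).2) k)
  rw [one_mul, zero_add] at h1
  exact h1

theorem Z1f_sp {L : Type u} [Field L] [Algebra K L] (P : A.Pts L) (y : Fin q × Fin p → L)
    (c : Fin (N + 1)) (e k : ℕ) (g : Pol K N q p n) :
    spG P y (C (C (X c ^ e)) * g ^ k) = C (A.x P c ^ e) * spG P y g ^ k := by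
  rw [spG_mul, spG_pow, spG_C]
  refine congrArg (· * _) ?_
  unfold EF.sp
  rw [map_C]
  show C (aeval (A.x P) (X c ^ e)) = _
  rw [map_pow, aeval_X]

/-- The local heights do not change. -/
theorem Z1f_lam {L : Type u} [Field L] [Algebra K L] (v : AbsoluteValue L ℝ) {D d : ℕ} (k e : ℕ)
    (hd : 0 < d) (hk : 0 < k) (f : Fin w → Pol K N q p n) (P : A.Pts L)
    (y : Fin q × Fin p → L) (Y : Fin n → L) (hf : ∃ l, eval Y (spG P y (f l)) ≠ 0) :
    1 / ((k * d : ℕ) : ℝ) * lamB T v (e + k * D) (k * d) (Z1f e k f) P y Y =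
      1 / (d : ℝ) * lamB T v D d f P y Y := by
  obtain ⟨l₀, hl₀⟩ := hf
  have : Nonempty (Fin w) := ⟨l₀⟩
  obtain ⟨b₀, hb₀⟩ := Function.ne_iff.1 (EF.Z2_x_ne A P)
  have h0 : ∀ i, eval Y (spG P y (Z1f e k f i)) =
      A.x P (finProdFinEquiv.symm i).1 ^ e *
        eval Y (spG P y (f (finProdFinEquiv.symm i).2)) ^ k := by
    intro i
    unfold Z1f
    rw [Z1f_sp, map_mul, eval_C, map_pow]
  have h1 : (⨆ i, v (eval Y (spG P y (Z1f e k f i)))) =
      (⨆ b, v (A.x P b)) ^ e * (⨆ l, v (eval Y (spG P y (f l)))) ^ k := by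
    rw [← Z1_sup (fun b => v (A.x P b)) (fun l => v (eval Y (spG P y (f l))))
      (fun _ => v.nonneg _) (fun _ => v.nonneg _) e k,
      ← Equiv.iSup_comp (e := (finProdFinEquiv (m := N + 1) (n := w)).symm)]
    refine iSup_congr fun i => ?_
    rw [h0, map_mul, map_pow, map_pow]
  have h2 : v (A.x P b₀) ≤ ⨆ b, v (A.x P b) := Finite.le_ciSup_of_le b₀ le_rfl
  have h3 : 0 < ⨆ b, v (A.x P b) := (v.pos hb₀).trans_le h2
  have h4 : v (eval Y (spG P y (f l₀))) ≤ ⨆ l, v (eval Y (spG P y (f l))) :=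
    Finite.le_ciSup_of_le (f := fun l => v (eval Y (spG P y (f l)))) l₀ le_rfl
  have h5 : 0 < ⨆ l, v (eval Y (spG P y (f l))) := (v.pos hl₀).trans_le h4
  have hd0 : (d : ℝ) ≠ 0 := Nat.cast_ne_zero.2 hd.ne'
  have hk0 : (k : ℝ) ≠ 0 := Nat.cast_ne_zero.2 hk.ne'
  unfold lamB
  rw [h1, Z1f_maxWt e hk, Real.log_mul (pow_pos h3 _).ne' (pow_pos h5 _).ne', Real.log_pow,
    Real.log_pow]
  push_cast
  field_simp
  ring

/-- The codimension does not change. -/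
theorem Z1f_codim {m s t : ℕ} (H : Fin m → MvPolynomial (Fin n) (MvPolynomial (Fin (N + 1)) K))
    (f : Fin s → Fin w → Pol K N q p n) (e k : Fin s → ℕ) (hk : ∀ j, 0 < k j) (τ : Fin q → ℝ)
    (U : Finset (Fin s)) {i : ℕ} (h : CodimB T H t (cutB f τ U) i) :
    CodimB T H t (cutB (fun j => Z1f (e j) (k j) (f j)) τ U) i := by
  intro L _ _ _ P y hP 𝔭 hp hfib hg
  refine h L P y hP 𝔭 hp hfib ?_
  rintro g ⟨j, hj, l, rfl⟩
  obtain ⟨b₀, hb₀⟩ := Function.ne_iff.1 (EF.Z2_x_ne A P)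
  have h1 := hg _ ⟨j, hj, finProdFinEquiv (b₀, l), rfl⟩
  rw [Z1f_maxWt _ (hk j), (Z1f_lead (e j) (f j) τ _).2, Equiv.symm_apply_apply, Z1f_sp] at h1
  have h2 : IsUnit (C (A.x P b₀ ^ e j) : MvPolynomial (Fin n) L) :=
    (IsUnit.mk0 _ (pow_ne_zero _ hb₀)).map C
  exact hp.mem_of_pow_mem _ ((Ideal.unit_mul_mem_iff_mem 𝔭 h2).1 h1)

end

section

variable {K : Type u} [Field K] [NumberField K] {N q p n m s w : ℕ} {A : AV K N} (T : Tor A q p)

/-- Arbitrary bidegrees. -/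
theorem Z1_gen (Γ : AddSubgroup (A.Pts K)) (hΓ : Γ.FG) {t : ℕ} (ht : 0 < t)
    (H : Fin m → MvPolynomial (Fin n) (MvPolynomial (Fin (N + 1)) K))
    (hH : ∀ i, ∃ a b : ℕ, BH a b (H i))
    (hfib : ∀ (L : Type u) [Field L] [IsAlgClosed L] [Algebra K L] (P : A.Pts L), Gen A P →
      (fib A H P).IsPrime ∧ Algebra.trdeg L (MvPolynomial (Fin n) L ⧸ fib A H P) = t)
    (D d : Fin s → ℕ) (hd : ∀ j, 0 < d j)
    (f : Fin s → Fin w → Pol K N q p n) (hf : ∀ j l, BG T (D j) (d j) (f j l))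
    (S : Finset (NumberField.FinitePlace K))
    (ci : NumberField.InfinitePlace K → Fin s → ℝ)
    (cf : NumberField.FinitePlace K → Fin s → ℝ) (hci0 : ∀ v j, 0 ≤ ci v j)
    (hcf0 : ∀ v j, 0 ≤ cf v j)
    (hci : ∀ v τ U, CodimB T H t (cutB f τ U) t ∨
      ∃ i : ℕ, CodimB T H t (cutB f τ U) i ∧ ∑ j ∈ U, ci v j ≤ i)
    (hcf : ∀ v ∈ S, ∀ τ U, CodimB T H t (cutB f τ U) t ∨
      ∃ i : ℕ, CodimB T H t (cutB f τ U) i ∧ ∑ j ∈ U, cf v j ≤ i)
    (ε : ℝ) (hε : 0 < ε) :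
    ∃ (C : ℝ) (F : Pol K N q p n), ExcX T H F ∧
      ∀ P ∈ Γ, ∀ y : Fin q × Fin p → K, T.On P y → ∀ X : Fin n → K, X ≠ 0 →
        (∀ i, eval X (sp A P (H i)) = 0) → eval X (spG P y F) ≠ 0 →
        (∀ j, (∃ v, ci v j ≠ 0) ∨ (∃ v ∈ S, cf v j ≠ 0) →
          ∃ l, eval X (spG P y (f j l)) ≠ 0) ∧
        (∑ v : NumberField.InfinitePlace K, (v.mult : ℝ) *
            (∑ j, ci v j * (1 / (d j : ℝ) * lamB T v.val (D j) (d j) (f j) P y X))) +
          (∑ v ∈ S, (∑ j, cf v j * (1 / (d j : ℝ) * lamB T v.val (D j) (d j) (f j) P y X))) +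
          slope A H t P ≤
          t * logHeight X + ε * (logHeight X + logHeight (A.x P) + ∑ i, T.ht P y i) +
            C * (1 + T.NS S P y) := by
  classical
  obtain ⟨dd, hdd⟩ : ∃ dd, dd = ∏ j, d j := ⟨_, rfl⟩
  have hdd0 : 0 < dd := by
    rw [hdd]
    exact Finset.prod_pos fun j _ => hd j
  have hdvd : ∀ j, ∃ k, 0 < k ∧ k * d j = dd := by
    intro j
    obtain ⟨k, hk⟩ : d j ∣ dd := by
      rw [hdd]
      exact Finset.dvd_prod_of_mem _ (Finset.mem_univ j)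
    refine ⟨k, ?_, by rw [hk, mul_comm]⟩
    rcases Nat.eq_zero_or_pos k with h | h
    · rw [h, mul_zero] at hk
      omega
    · exact h
  choose k hk0 hk using hdvd
  obtain ⟨DD, hDD⟩ : ∃ DD, DD = ∑ j, k j * D j := ⟨_, rfl⟩
  have hDDj : ∀ j, ∃ e, e + k j * D j = DD := by
    intro j
    have h1 : k j * D j ≤ DD := by
      rw [hDD]
      exact Finset.single_le_sum (f := fun j => k j * D j) (fun _ _ => Nat.zero_le _)
        (Finset.mem_univ j)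
    exact ⟨DD - k j * D j, by omega⟩
  choose e he using hDDj
  have hBG : ∀ j i, BG T DD dd (Z1f (e j) (k j) (f j) i) := by
    intro j i
    have h1 := Z1f_BG T (e := e j) (k := k j) (hf j) i
    rw [he, hk] at h1
    exact h1
  obtain ⟨C₀, F₀, hF₀, hmain⟩ := Y_genG T Γ hΓ ht hdd0 H hH hfib
    (fun j => Z1f (e j) (k j) (f j)) hBG S ci cf hci0 hcf0
    (fun v τ U => (hci v τ U).imp (fun h => Z1f_codim T H f e k hk0 τ U h)
      fun ⟨i, h1, h2⟩ => ⟨i, Z1f_codim T H f e k hk0 τ U h1, h2⟩)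
    (fun v hv τ U => (hcf v hv τ U).imp (fun h => Z1f_codim T H f e k hk0 τ U h)
      fun ⟨i, h1, h2⟩ => ⟨i, Z1f_codim T H f e k hk0 τ U h1, h2⟩) (fun P => slope A H t P)
    (fun P => EF.slope_nonneg A H P)
    (fun k g' r' G' hG' hgr => EF.slope_rows A H hH k g' r' G' hG' hgr) ε hε
  refine ⟨C₀, F₀, hF₀, fun P hP y hy Y hY hHY hF => ?_⟩
  obtain ⟨h1, h2⟩ := hmain P hP y hy Y hY hHY hF
  have h3 : ∀ j, (∃ v, ci v j ≠ 0) ∨ (∃ v ∈ S, cf v j ≠ 0) →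
      ∃ l, eval Y (spG P y (f j l)) ≠ 0 := by
    intro j hj
    obtain ⟨i, hi⟩ := h1 j hj
    unfold Z1f at hi
    rw [Z1f_sp, map_mul, map_pow (eval Y)] at hi
    refine ⟨(finProdFinEquiv.symm i).2, fun h0 => hi ?_⟩
    rw [h0, zero_pow (hk0 j).ne', mul_zero]
  refine ⟨h3, le_of_eq_of_le ?_ h2⟩
  have hloc : ∀ (v : AbsoluteValue K ℝ) (j : Fin s) (c : ℝ),
      (c ≠ 0 → ∃ l, eval Y (spG P y (f j l)) ≠ 0) →
      c * (1 / (d j : ℝ) * lamB T v (D j) (d j) (f j) P y Y) =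
        c * (1 / (dd : ℝ) * lamB T v DD dd (Z1f (e j) (k j) (f j)) P y Y) := by
    intro v j c hc
    by_cases h0 : c = 0
    · rw [h0, zero_mul, zero_mul]
    · have h4 := Z1f_lam T v (k j) (e j) (hd j) (hk0 j) (f j) P y Y (hc h0) (D := D j)
      rw [he, hk] at h4
      rw [h4]
  have hi : ∑ v : NumberField.InfinitePlace K, (v.mult : ℝ) *
      ∑ j, ci v j * (1 / (d j : ℝ) * lamB T v.val (D j) (d j) (f j) P y Y) =
      ∑ v : NumberField.InfinitePlace K, (v.mult : ℝ) *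
        ∑ j, ci v j * (1 / (dd : ℝ) * lamB T v.val DD dd (Z1f (e j) (k j) (f j)) P y Y) := by
    refine Finset.sum_congr rfl fun v _ => ?_
    rw [Finset.sum_congr rfl fun j _ => hloc v.val j (ci v j) fun h => h3 j (Or.inl ⟨v, h⟩)]
  have hf' : ∑ v ∈ S, ∑ j, cf v j * (1 / (d j : ℝ) * lamB T v.val (D j) (d j) (f j) P y Y) =
      ∑ v ∈ S, ∑ j, cf v j *
        (1 / (dd : ℝ) * lamB T v.val DD dd (Z1f (e j) (k j) (f j)) P y Y) := by
    refine Finset.sum_congr rfl fun v hv => ?_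
    exact Finset.sum_congr rfl fun j _ => hloc v.val j (cf v j) fun h => h3 j (Or.inr ⟨v, hv, h⟩)
  unfold EF.SS
  rw [hi, hf']

/-- The final theorem. -/
theorem EFG (Γ : AddSubgroup (A.Pts K)) (hΓ : Γ.FG) {t e : ℕ} (ht : 0 < t)
    (H : Fin m → MvPolynomial (Fin n) (MvPolynomial (Fin (N + 1)) K))
    (hH : ∀ i, ∃ a b : ℕ, BH a b (H i))
    (hfib : ∀ (L : Type u) [Field L] [IsAlgClosed L] [Algebra K L] (P : A.Pts L), Gen A P →
      (fib A H P).IsPrime ∧ Algebra.trdeg L (MvPolynomial (Fin n) L ⧸ fib A H P) = t)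
    (D d : Fin s → ℕ) (hd : ∀ j, 0 < d j)
    (f : Fin s → Fin w → Pol K N q p n) (hf : ∀ j l, BG T (D j) (d j) (f j l))
    (S : Finset (NumberField.FinitePlace K))
    (ci : NumberField.InfinitePlace K → Fin s → ℝ)
    (cf : NumberField.FinitePlace K → Fin s → ℝ) (hci0 : ∀ v j, 0 ≤ ci v j)
    (hcf0 : ∀ v j, 0 ≤ cf v j)
    (hci : ∀ v τ U, CodimB T H t (cutB f τ U) t ∨
      ∃ i : ℕ, CodimB T H t (cutB f τ U) i ∧ ∑ j ∈ U, ci v j ≤ i)
    (hcf : ∀ v ∈ S, ∀ τ U, CodimB T H t (cutB f τ U) t ∨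
      ∃ i : ℕ, CodimB T H t (cutB f τ U) i ∧ ∑ j ∈ U, cf v j ≤ i)
    (f₀ : MvPolynomial (Fin q × Fin p) (MvPolynomial (Fin (N + 1)) K)) (hf₀ : T.WH e f₀)
    (hf₀A : T.NZ f₀) (ε : ℝ) (hε : 0 < ε) :
    ∃ (C : ℝ) (F : Pol K N q p n), ExcX T H F ∧
      ∀ P ∈ Γ, ∀ y : Fin q × Fin p → K, T.On P y → ∀ X : Fin n → K, X ≠ 0 →
        (∀ i, eval X (sp A P (H i)) = 0) → eval X (spG P y F) ≠ 0 →
        (∀ j, (∃ v, ci v j ≠ 0) ∨ (∃ v ∈ S, cf v j ≠ 0) →
          ∃ l, eval X (spG P y (f j l)) ≠ 0) ∧ ev P y f₀ ≠ 0 ∧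
        (∑ v : NumberField.InfinitePlace K, (v.mult : ℝ) *
            ((∑ j, ci v j * (1 / (d j : ℝ) * lamB T v.val (D j) (d j) (f j) P y X)) +
              T.lam v.val e (fun _ : Fin 1 => f₀) P y (fun _ => 1))) +
          (∑ v ∈ S, ((∑ j, cf v j * (1 / (d j : ℝ) * lamB T v.val (D j) (d j) (f j) P y X)) +
              T.lam v.val e (fun _ : Fin 1 => f₀) P y (fun _ => 1))) +
          slope A H t P ≤
          t * logHeight X + ε * (logHeight X + logHeight (A.x P) + ∑ i, T.ht P y i) +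
            C * (1 + T.NS S P y) := by
  obtain ⟨C₁, F₁, hF₁, h1⟩ := Z1_gen T Γ hΓ ht H hH hfib D d hd f hf S ci cf hci0 hcf0 hci hcf
    (ε / 2) (half_pos hε)
  have hfib' : ∀ (L : Type u) [Field L] [IsAlgClosed L] [Algebra K L] (P : A.Pts L), Gen A P →
      (fib A H P).IsPrime := fun L _ _ _ P hP => (hfib L P hP).1
  obtain ⟨C₂, F₂, hF₂, h2⟩ := N_vert T Γ hΓ H hH hfib' f₀ hf₀ hf₀A S (ε / 2) (half_pos hε)
  refine ⟨C₁ + C₂, F₁ * F₂, ExcX_mul T H hfib' hF₁ hF₂, ?_⟩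
  intro P hP y hy Y hY hHY hF
  rw [spG_mul, map_mul] at hF
  obtain ⟨h3, h4⟩ := h1 P hP y hy Y hY hHY (left_ne_zero_of_mul hF)
  obtain ⟨h5, h6⟩ := h2 P hP y hy Y (right_ne_zero_of_mul hF)
  refine ⟨h3, h5, ?_⟩
  have h7 : 0 ≤ logHeight Y := logHeight_nonneg _
  have h8 : (∑ v : NumberField.InfinitePlace K, (v.mult : ℝ) *
        ((∑ j, ci v j * (1 / (d j : ℝ) * lamB T v.val (D j) (d j) (f j) P y Y)) +
          T.lam v.val e (fun _ : Fin 1 => f₀) P y (fun _ => 1))) =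
      (∑ v : NumberField.InfinitePlace K, (v.mult : ℝ) *
        (∑ j, ci v j * (1 / (d j : ℝ) * lamB T v.val (D j) (d j) (f j) P y Y))) +
      ∑ v : NumberField.InfinitePlace K, (v.mult : ℝ) *
        T.lam v.val e (fun _ : Fin 1 => f₀) P y (fun _ => 1) := by
    rw [← Finset.sum_add_distrib]
    exact Finset.sum_congr rfl fun v _ => mul_add _ _ _
  rw [h8, Finset.sum_add_distrib]
  nlinarith
end

end Pool.Agent.Lib.MP_17a322_nt.EG
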