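import Pool.Agent.Lib.MP_17a322_nt.EG.K1
import Pool.Agent.Lib.MP_17a322_nt.EG.K2
import Pool.Agent.Lib.MP_17a322_nt.EG.K3
import Pool.Agent.Lib.MP_17a322_nt.EG.Z1
import Pool.Agent.Lib.MP_17a322_nt.SV3.F1

/-!
Closed subschemes of a family over a bundle `Bun`: the final theorem.
-/

universe u

namespace Pool.Agent.Lib.MP_17a322_nt.EG

open MvPolynomial Height
open Pool.Agent.Lib.MP_17a322_nt.VA
open Pool.Agent.Lib.MP_17a322_nt.SL
open Pool.Agent.Lib.MP_17a322_nt.EF (BH fib sp slope)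
open Pool.Agent.Lib.MP_17a322_nt.TB (Tor ev partWt maxWt)
open Pool.Agent.Lib.MP_17a322_nt.SV3 (Bun md)

section

variable {K : Type u} [Field K] {N q p p' n m s w : ℕ} {A : AV K N} (B : Bun A q p p')
  (H : Fin m → MvPolynomial (Fin n) (MvPolynomial (Fin (N + 1)) K))

/-- The codimension in the chart. -/
theorem Z2_codim {ch : Fin q → Fin p'} (h : B.Ch ch) {t : ℕ} {G : Set (Pol K N q p n)} {i : ℕ}
    (hG : CodimP B H t G i) : CodimB (B.tor ch h) H t G i :=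
  fun L _ _ _ P y hP => hG L P y ((K_gen B h P y).2 hP)

/-- The local heights. -/
theorem Z2_lam {ch : Fin q → Fin p'} (h : B.Ch ch) {L : Type u} [Field L] [Algebra K L]
    (v : AbsoluteValue L ℝ) (D d : ℕ) (f : Fin w → Pol K N q p n) (P : A.Pts L)
    (y : Fin q × Fin p → L) (X : Fin n → L)
    (hf : ∀ l, eval X (spG P y (redH B H f l)) = eval X (spG P y (f l))) :
    lamB (B.tor ch h) v D d (redH B H f) P y X = lamP B H v D d f P y X := by
  unfold lamB lamP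
  have h1 : (B.tor ch h).tau v P y = B.tau v P y := rfl
  rw [h1, redH_maxWt]
  simp only [hf]

end

theorem EFGB {K : Type u} [Field K] [NumberField K] {N q p p' n m s w : ℕ} {A : AV K N}
    (B : Bun A q p p') (Γ : AddSubgroup (A.Pts K)) (hΓ : Γ.FG) {t e : ℕ} (ht : 0 < t)
    (H : Fin m → MvPolynomial (Fin n) (MvPolynomial (Fin (N + 1)) K))
    (hH : ∀ i, ∃ a b : ℕ, BH a b (H i))
    (hfib : ∀ (L : Type u) [Field L] [IsAlgClosed L] [Algebra K L] (P : A.Pts L), Gen A P →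
      (fib A H P).IsPrime ∧ Algebra.trdeg L (MvPolynomial (Fin n) L ⧸ fib A H P) = t)
    (D d : Fin s → ℕ) (hd : ∀ j, 0 < d j)
    (f : Fin s → Fin w → Pol K N q p n) (hf : ∀ j l, BB B (D j) (d j) (f j l))
    (S : Finset (NumberField.FinitePlace K))
    (ci : NumberField.InfinitePlace K → Fin s → ℝ)
    (cf : NumberField.FinitePlace K → Fin s → ℝ) (hci0 : ∀ v j, 0 ≤ ci v j)
    (hcf0 : ∀ v j, 0 ≤ cf v j)
    (hci : ∀ v τ U, CodimP B H t (cutP B H f τ U) t ∨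
      ∃ i : ℕ, CodimP B H t (cutP B H f τ U) i ∧ ∑ j ∈ U, ci v j ≤ i)
    (hcf : ∀ v ∈ S, ∀ τ U, CodimP B H t (cutP B H f τ U) t ∨
      ∃ i : ℕ, CodimP B H t (cutP B H f τ U) i ∧ ∑ j ∈ U, cf v j ≤ i)
    (f₀ : MvPolynomial (Fin q × Fin p) (MvPolynomial (Fin (N + 1)) K)) (hf₀ : B.WH e f₀)
    (hf₀A : ¬ B.Van f₀) (ε : ℝ) (hε : 0 < ε) :
    ∃ (C : ℝ) (F : Pol K N q p n), ExcP B H F ∧
      ∀ P ∈ Γ, ∀ y : Fin q × Fin p → K, B.On P y → ∀ X : Fin n → K, X ≠ 0 →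
        (∀ i, eval X (sp A P (H i)) = 0) → eval X (spG P y F) ≠ 0 →
        (∀ j, (∃ v, ci v j ≠ 0) ∨ (∃ v ∈ S, cf v j ≠ 0) →
          ∃ l, eval X (spG P y (f j l)) ≠ 0) ∧ ev P y f₀ ≠ 0 ∧
        (∑ v : NumberField.InfinitePlace K, (v.mult : ℝ) *
            ((∑ j, ci v j * (1 / (d j : ℝ) * lamP B H v.val (D j) (d j) (f j) P y X)) +
              B.loc v.val e (fun _ : Fin 1 => f₀) P y)) +
          (∑ v ∈ S, ((∑ j, cf v j * (1 / (d j : ℝ) * lamP B H v.val (D j) (d j) (f j) P y X)) +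
              B.loc v.val e (fun _ : Fin 1 => f₀) P y)) +
          slope A H t P ≤
          t * logHeight X + ε * (logHeight X + logHeight (A.x P) + ∑ i, B.ht P y i) +
            C * (1 + B.NS S P y) := by
  classical
  obtain ⟨ch, h⟩ := SV3.A_exists_ch B
  obtain ⟨C₀, F₀, hF₀, hmain⟩ := EFG (B.tor ch h) Γ hΓ ht H hH hfib D d hd
    (fun j => redH B H (f j)) (fun j l => redH_BB B H (hf j) l) S ci cf hci0 hcf0
    (fun v τ U => (hci v τ U).imp (fun h1 => Z2_codim B H h (redH_codim B H hf τ U h1))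
      fun ⟨i, h1, h2⟩ => ⟨i, Z2_codim B H h (redH_codim B H hf τ U h1), h2⟩)
    (fun v hv τ U => (hcf v hv τ U).imp (fun h1 => Z2_codim B H h (redH_codim B H hf τ U h1))
      fun ⟨i, h1, h2⟩ => ⟨i, Z2_codim B H h (redH_codim B H hf τ U h1), h2⟩)
    (SV3.f1 B f₀) (SV3.F1_WH B hf₀) (SV3.F1_NZ B h hf₀ hf₀A) ε hε
  have hpr : ∀ (L : Type u) [Field L] [IsAlgClosed L] [Algebra K L] (P : A.Pts L), Gen A P →
      (fib A H P).IsPrime := fun L _ _ _ P hP => (hfib L P hP).1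
  obtain ⟨R₁, ρ₁, hR₁, hR₁A, hch⟩ := K_chart B h
  choose R ρ hR hRA hval using fun j => redH_val B H hH h (hf j)
  obtain ⟨F, hF⟩ : ∃ F : Pol K N q p n, F = F₀ * C (C R₁) * ∏ j, C (C (R j)) := ⟨_, rfl⟩
  have hFX : ExcX (B.tor ch h) H F := by
    rw [hF]
    refine ExcX_mul _ H hpr (ExcX_mul _ H hpr hF₀ (ExcX_C _ H hpr hR₁ hR₁A)) ?_
    refine Finset.prod_induction _ (ExcX (B.tor ch h) H) (fun _ _ h1 h2 => ExcX_mul _ H hpr h1 h2)
      (ExcX_one _ H hpr) fun j _ => ExcX_C _ H hpr (hR j) (hRA j)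
  refine ⟨C₀, F, ⟨hFX.1, fun L _ _ _ P y hP => K_exc (B.tor ch h) H hH hFX P y
    ((K_gen B h P y).1 hP)⟩, ?_⟩
  intro P hP y hy X hX hHX hFe
  rw [hF, spG_mul, spG_mul, map_mul, map_mul, spG_C, EF.Z2_sp_C, spG_prod, map_prod] at hFe
  have h1 : aeval (A.x P) R₁ ≠ 0 := right_ne_zero_of_mul (left_ne_zero_of_mul hFe)
  have h2 : ∀ j, aeval (A.x P) (R j) ≠ 0 := by
    intro j h3
    refine right_ne_zero_of_mul hFe (Finset.prod_eq_zero (Finset.mem_univ j) ?_)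
    rw [spG_C, EF.Z2_sp_C]
    exact h3
  have hTy : (B.tor ch h).On P y := (K_on B h (hch K P h1) y).1 hy
  have hv : ∀ j l, eval X (spG P y (redH B H (f j) l)) = eval X (spG P y (f j l)) :=
    fun j => hval j P y hTy (h2 j) X hHX
  obtain ⟨h3, h4, h5⟩ := hmain P hP y hTy X hX hHX (left_ne_zero_of_mul (left_ne_zero_of_mul hFe))
  have h6 : ev P y (SV3.f1 B f₀) = ev P y f₀ := SV3.F1_ev B f₀ hy
  have h7 : ∀ (v : AbsoluteValue K ℝ) (j : Fin s),
      lamB (B.tor ch h) v (D j) (d j) (redH B H (f j)) P y X =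
        lamP B H v (D j) (d j) (f j) P y X :=
    fun v j => Z2_lam B H h v (D j) (d j) (f j) P y X (hv j)
  have h8 : ∀ v : AbsoluteValue K ℝ,
      (B.tor ch h).lam v e (fun _ : Fin 1 => SV3.f1 B f₀) P y (fun _ => 1) =
        B.loc v e (fun _ : Fin 1 => f₀) P y := fun v => SV3.F1_lam B h v e f₀ hy
  refine ⟨fun j hj => ?_, h6 ▸ h4, ?_⟩
  · obtain ⟨l, hl⟩ := h3 j hj
    exact ⟨l, by rw [← hv j l]; exact hl⟩
  · simp only [h7, h8] at h5
    exact h5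

end Pool.Agent.Lib.MP_17a322_nt.EG
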